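import Mathlib

/-!
The chordal metric on the Riemann sphere and the class `F(L)`.
-/

namespace Pool.Agent.Lib.MP_1b82cc_an

open Set OnePoint

/-- The chordal metric on `ℂ ∪ {∞}`. -/
noncomputable def chordal : OnePoint ℂ → OnePoint ℂ → ℝ
  | (a : ℂ), (b : ℂ) => ‖a - b‖ / (√(1 + ‖a‖ ^ 2) * √(1 + ‖b‖ ^ 2))
  | (a : ℂ), ∞ => 1 / √(1 + ‖a‖ ^ 2)
  | ∞, (b : ℂ) => 1 / √(1 + ‖b‖ ^ 2)
  | ∞, ∞ => 0

/-- The class `F(L)`: continuous on `L` with values in the sphere, and on each component of the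
interior either identically `∞` or finite and holomorphic. -/
def InClass (L : Set ℂ) (f : ℂ → OnePoint ℂ) : Prop :=
  ContinuousOn f L ∧ ∀ z ∈ interior L,
    (∀ w ∈ connectedComponentIn (interior L) z, f w = ∞) ∨
    ∃ g : ℂ → ℂ, DifferentiableOn ℂ g (connectedComponentIn (interior L) z) ∧
      ∀ w ∈ connectedComponentIn (interior L) z, f w = (g w : OnePoint ℂ)

end Pool.Agent.Lib.MP_1b82cc_an
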