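import Pool.Agent.Lib.MP_1b82cc_an.Defs

/-!
Uniform limits of polynomials in the chordal metric.
-/

namespace Pool.Agent.Lib.MP_1b82cc_an

/-- `f` is a uniform limit on `K`, in the chordal metric, of a sequence of polynomials. -/
def PolyLimit (K : Set ℂ) (f : ℂ → OnePoint ℂ) : Prop :=
  ∃ p : ℕ → Polynomial ℂ, ∀ ε > 0, ∃ N, ∀ n ≥ N, ∀ z ∈ K, chordal ((p n).eval z : ℂ) (f z) < ε

end Pool.Agent.Lib.MP_1b82cc_an
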