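import Mathlib

/-!
Topology of a union of disjoint discs converging to a point.
-/

namespace Pool.Agent.Lib.MP_1b82cc_an

open Set Metric Filter Topology

lemma isPreconnected_ring (c : ℂ) {I : Set ℝ} (hI : IsPreconnected I) (hI0 : I ⊆ Ici 0) :
    IsPreconnected {z : ℂ | ‖z - c‖ ∈ I} := by
  have : {z : ℂ | ‖z - c‖ ∈ I} = (fun p : ℝ × ℝ => circleMap c p.1 p.2) '' (I ×ˢ univ) := by
    ext z
    constructor
    · intro hz
      have h : z ∈ range (circleMap c ‖z - c‖) := by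
        rw [range_circleMap]; simp [dist_eq_norm]
      obtain ⟨θ, hθ⟩ := h
      exact ⟨(‖z - c‖, θ), ⟨hz, trivial⟩, hθ⟩
    · rintro ⟨⟨s, θ⟩, ⟨hs, -⟩, rfl⟩
      have : ‖circleMap c s θ - c‖ = s := by
        simp [circleMap_sub_center, abs_of_nonneg (show 0 ≤ s from hI0 hs)]
      show ‖circleMap c s θ - c‖ ∈ I
      rw [this]; exact hs
  rw [this]
  refine (hI.prod isPreconnected_univ).image _ (Continuous.continuousOn ?_)
  unfold circleMap
  fun_prop

variable {P : ℂ} {c : ℕ → ℂ} {r : ℕ → ℝ}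

lemma isClosed_sub (hconv : ∀ ε > 0, ∃ N, ∀ n ≥ N, closedBall (c n) (r n) ⊆ closedBall P ε)
    (I : Set ℕ) : IsClosed ({P} ∪ ⋃ n ∈ I, closedBall (c n) (r n)) := by
  choose N hN using hconv
  have : ({P} ∪ ⋃ n ∈ I, closedBall (c n) (r n)) = ⋂ k : ℕ,
      (closedBall P (1 / (k + 1)) ∪ ⋃ n ∈ I ∩ Iio (N (1 / (k + 1)) Nat.one_div_pos_of_nat),
        closedBall (c n) (r n)) := by
    apply Subset.antisymm
    · refine subset_iInter fun k => union_subset ?_ (iUnion₂_subset fun n hn => ?_)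
      · exact subset_union_of_subset_left
          (singleton_subset_iff.2 (mem_closedBall_self Nat.one_div_pos_of_nat.le)) _
      · rcases lt_or_ge n (N (1 / (k + 1)) Nat.one_div_pos_of_nat) with h | h
        · exact subset_union_of_subset_right (subset_biUnion_of_mem
            (u := fun n => closedBall (c n) (r n)) (show n ∈ I ∩ Iio _ from ⟨hn, h⟩)) _
        · exact subset_union_of_subset_left (hN _ _ n h) _
    · intro z hz
      by_cases hP : z = P
      · exact Or.inl hP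
      · obtain ⟨k, hk⟩ := exists_nat_one_div_lt (dist_pos.2 hP)
        rcases mem_iInter.1 hz k with h | h
        · exact absurd (mem_closedBall.1 h) (not_le.2 hk)
        · exact Or.inr (biUnion_subset_biUnion_left inter_subset_left h)
  rw [this]
  exact isClosed_iInter fun k => isClosed_closedBall.union
    (((finite_Iio _).inter_of_right I).isClosed_biUnion fun _ _ => isClosed_closedBall)

lemma isCompact_all (hconv : ∀ ε > 0, ∃ N, ∀ n ≥ N, closedBall (c n) (r n) ⊆ closedBall P ε) :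
    IsCompact ({P} ∪ ⋃ n, closedBall (c n) (r n)) := by
  have h1 := isClosed_sub hconv univ
  simp only [mem_univ, iUnion_true] at h1
  obtain ⟨N, hN⟩ := hconv 1 one_pos
  refine (((isCompact_closedBall P 1).union ((finite_Iio N).isCompact_biUnion
    fun n _ => isCompact_closedBall (c n) (r n)))).of_isClosed_subset h1 ?_
  refine union_subset ?_ (iUnion_subset fun n => ?_)
  · exact subset_union_of_subset_left (singleton_subset_iff.2 (mem_closedBall_self zero_le_one)) _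
  · rcases lt_or_ge n N with h | h
    · exact subset_union_of_subset_right (subset_biUnion_of_mem
        (u := fun n => closedBall (c n) (r n)) (show n ∈ Iio N from h)) _
    · exact subset_union_of_subset_left (hN n h) _

lemma isolated (hr : ∀ n, 0 < r n)
    (hdisj : Pairwise fun m n => Disjoint (closedBall (c m) (r m)) (closedBall (c n) (r n)))
    (hconv : ∀ ε > 0, ∃ N, ∀ n ≥ N, closedBall (c n) (r n) ⊆ closedBall P ε) {n : ℕ}
    (hn : P ∉ closedBall (c n) (r n)) :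
    ∃ R > r n, ({P} ∪ ⋃ n, closedBall (c n) (r n)) ∩ ball (c n) R ⊆ closedBall (c n) (r n) := by
  have h1 := isClosed_sub hconv {m | m ≠ n}
  have h2 : closedBall (c n) (r n) ⊆ ({P} ∪ ⋃ m ∈ {m | m ≠ n}, closedBall (c m) (r m))ᶜ := by
    intro z hz h
    rcases h with h | h
    · exact hn (h ▸ hz)
    · obtain ⟨m, hm, hz'⟩ := mem_iUnion₂.1 h
      exact disjoint_left.1 (hdisj hm) hz' hz
  obtain ⟨δ, hδ, hsub⟩ := (isCompact_closedBall (c n) (r n)).exists_thickening_subset_open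
    h1.isOpen_compl h2
  rw [thickening_closedBall hδ (hr n).le] at hsub
  refine ⟨δ + r n, by linarith, ?_⟩
  rintro z ⟨hz, hz'⟩
  by_contra hc
  apply hsub hz'
  rcases hz with h | h
  · exact Or.inl h
  · obtain ⟨m, hm⟩ := mem_iUnion.1 h
    refine Or.inr (mem_iUnion₂.2 ⟨m, ?_, hm⟩)
    rintro rfl
    exact hc hm

/-- The piece containing the limit point. -/
lemma exists_core (hr : ∀ n, 0 < r n)
    (hdisj : Pairwise fun m n => Disjoint (closedBall (c m) (r m)) (closedBall (c n) (r n))) :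
    ∃ (c0 : ℂ) (r0 : ℝ), 0 ≤ r0 ∧ P ∈ closedBall c0 r0 ∧
      (closedBall c0 r0 = {P} ∨ ∃ k, c0 = c k ∧ r0 = r k) ∧
      (∀ n, P ∈ closedBall (c n) (r n) → closedBall (c n) (r n) ⊆ closedBall c0 r0) ∧
      ∀ n, P ∉ closedBall (c n) (r n) → Disjoint (closedBall (c n) (r n)) (closedBall c0 r0) := by
  by_cases h : ∃ k, P ∈ closedBall (c k) (r k)
  · obtain ⟨k, hk⟩ := h
    refine ⟨c k, r k, (hr k).le, hk, Or.inr ⟨k, rfl, rfl⟩, fun n hn => ?_, fun n hn => ?_⟩
    · by_cases hnk : n = k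
      · rw [hnk]
      · exact absurd hk (disjoint_left.1 (hdisj hnk) hn)
    · apply hdisj
      rintro rfl
      exact hn hk
  · refine ⟨P, 0, le_rfl, by simp, Or.inl closedBall_zero, fun n hn => absurd ⟨n, hn⟩ h,
      fun n hn => ?_⟩
    simpa using hn

lemma isPreconnected_compl (hr : ∀ n, 0 < r n)
    (hdisj : Pairwise fun m n => Disjoint (closedBall (c m) (r m)) (closedBall (c n) (r n)))
    (hconv : ∀ ε > 0, ∃ N, ∀ n ≥ N, closedBall (c n) (r n) ⊆ closedBall P ε) :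
    IsPreconnected ({P} ∪ ⋃ n, closedBall (c n) (r n))ᶜ := by
  set L := {P} ∪ ⋃ n, closedBall (c n) (r n) with hL
  have hLc : IsClosed L := (isCompact_all hconv).isClosed
  obtain ⟨c0, r0, hr0, hP0, hK, hK1, hK2⟩ := exists_core (P := P) hr hdisj
  have hKL : closedBall c0 r0 ⊆ L := by
    rcases hK with h | ⟨k, rfl, rfl⟩
    · rw [h]; exact subset_union_left
    · exact subset_union_of_subset_right (subset_iUnion (fun n => closedBall (c n) (r n)) k) _
  have hDL : ∀ n, closedBall (c n) (r n) ⊆ L := fun n =>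
    subset_union_of_subset_right (subset_iUnion (fun n => closedBall (c n) (r n)) n) _
  have hK0 : IsPreconnected (closedBall c0 r0)ᶜ := by
    have := isPreconnected_ring c0 (isPreconnected_Ioi (a := r0)) (fun x hx => hr0.trans hx.le)
    convert this using 1
    ext z; simp [dist_eq_norm]
  have hiso := fun (n : ℕ) (hn : P ∉ closedBall (c n) (r n)) => isolated hr hdisj hconv hn
  choose! R hR hR' using hiso
  set A : ℕ → Set ℂ := fun n => ball (c n) (R n) \ closedBall (c n) (r n) with hA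
  have hA1 : ∀ n, IsPreconnected (A n) := by
    intro n
    have := isPreconnected_ring (c n) (isPreconnected_Ioo (a := r n) (b := R n))
      (fun x hx => (hr n).le.trans hx.1.le)
    convert this using 1
    ext z; simp [hA, dist_eq_norm, and_comm]
  have hA2 : ∀ n, P ∉ closedBall (c n) (r n) → A n ⊆ Lᶜ := fun n hn z hz hzL =>
    hz.2 (hR' n hn ⟨hzL, hz.1⟩)
  rw [isPreconnected_iff_subset_of_disjoint]
  intro u v hu hv huv hdis
  have hAuv : ∀ n, P ∉ closedBall (c n) (r n) → ¬ A n ⊆ u → A n ⊆ v := by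
    intro n hn h
    refine (isPreconnected_iff_subset_of_disjoint.1 (hA1 n) u v hu hv ((hA2 n hn).trans huv)
      ?_).resolve_left h
    exact subset_eq_empty (inter_subset_inter_left _ (hA2 n hn)) hdis
  set U := (u ∩ Lᶜ) ∪ ⋃ n ∈ {n | P ∉ closedBall (c n) (r n) ∧ A n ⊆ u}, ball (c n) (R n) with hU
  set V := (v ∩ Lᶜ) ∪ ⋃ n ∈ {n | P ∉ closedBall (c n) (r n) ∧ ¬ A n ⊆ u}, ball (c n) (R n) with hV
  have hUo : IsOpen U := (hu.inter hLc.isOpen_compl).union (isOpen_biUnion fun _ _ => isOpen_ball)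
  have hVo : IsOpen V := (hv.inter hLc.isOpen_compl).union (isOpen_biUnion fun _ _ => isOpen_ball)
  have hU1 : ∀ z ∈ U, (z ∈ u ∧ z ∉ L) ∨ ∃ n, A n ⊆ u ∧ z ∈ closedBall (c n) (r n) := by
    rintro z (hz | hz)
    · exact Or.inl hz
    · obtain ⟨n, ⟨hn, hn'⟩, hz⟩ := mem_iUnion₂.1 hz
      by_cases h : z ∈ closedBall (c n) (r n)
      · exact Or.inr ⟨n, hn', h⟩
      · exact Or.inl ⟨hn' ⟨hz, h⟩, hA2 n hn ⟨hz, h⟩⟩
  have hV1 : ∀ z ∈ V, (z ∈ v ∧ z ∉ L) ∨ ∃ n, ¬ A n ⊆ u ∧ z ∈ closedBall (c n) (r n) := by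
    rintro z (hz | hz)
    · exact Or.inl hz
    · obtain ⟨n, ⟨hn, hn'⟩, hz⟩ := mem_iUnion₂.1 hz
      by_cases h : z ∈ closedBall (c n) (r n)
      · exact Or.inr ⟨n, hn', h⟩
      · exact Or.inl ⟨hAuv n hn hn' ⟨hz, h⟩, hA2 n hn ⟨hz, h⟩⟩
  have hcov : (closedBall c0 r0)ᶜ ⊆ U ∪ V := by
    intro z hz
    by_cases hzL : z ∈ L
    · rcases hzL with h | h
      · exact absurd (h ▸ hP0) hz
      · obtain ⟨n, hn⟩ := mem_iUnion.1 h
        have hPn : P ∉ closedBall (c n) (r n) := fun h' => hz (hK1 n h' hn)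
        have hzb : z ∈ ball (c n) (R n) := closedBall_subset_ball (hR n hPn) hn
        by_cases hAn : A n ⊆ u
        · exact Or.inl (Or.inr (mem_iUnion₂.2 ⟨n, ⟨hPn, hAn⟩, hzb⟩))
        · exact Or.inr (Or.inr (mem_iUnion₂.2 ⟨n, ⟨hPn, hAn⟩, hzb⟩))
    · rcases huv hzL with h | h
      · exact Or.inl (Or.inl ⟨h, hzL⟩)
      · exact Or.inr (Or.inl ⟨h, hzL⟩)
  have hdis' : (closedBall c0 r0)ᶜ ∩ (U ∩ V) = ∅ := by
    apply eq_empty_of_forall_notMem
    rintro z ⟨-, h1, h2⟩
    rcases hU1 z h1 with ⟨a1, a2⟩ | ⟨n, a1, a2⟩ <;> rcases hV1 z h2 with ⟨b1, b2⟩ | ⟨m, b1, b2⟩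
    · exact (hdis ▸ (⟨a2, a1, b1⟩ : z ∈ Lᶜ ∩ (u ∩ v)) : z ∈ (∅ : Set ℂ))
    · exact a2 (hDL m b2)
    · exact b2 (hDL n a2)
    · by_cases hnm : n = m
      · exact b1 (hnm ▸ a1)
      · exact disjoint_left.1 (hdisj hnm) a2 b2
  rcases isPreconnected_iff_subset_of_disjoint.1 hK0 U V hUo hVo hcov hdis' with h | h
  · left
    intro z hz
    rcases hU1 z (h fun h' => hz (hKL h')) with h1 | ⟨n, -, h1⟩
    · exact h1.1
    · exact absurd (hDL n h1) hz
  · right
    intro z hz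
    rcases hV1 z (h fun h' => hz (hKL h')) with h1 | ⟨n, -, h1⟩
    · exact h1.1
    · exact absurd (hDL n h1) hz

end Pool.Agent.Lib.MP_1b82cc_an
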