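import Pool.Agent.Lib.MP_1b82cc_an.Merg2

/-!
Cauchy transforms of densities that live close to the complement, and a multiplicative correction.
-/

namespace Pool.Agent.Lib.MP_1b82cc_an

open Set Metric Filter Topology MeasureTheory Polynomial
open Pool.Agent.Lib.MP_8daebb_an.SV

variable {K : Set ℂ}

/-- The Cauchy transform of `μ` is on `K` a polynomial up to `κ`. -/
def Small (K : Set ℂ) (μ : ℂ → ℂ) (κ : ℝ) : Prop :=
  ContDiff ℝ 1 μ ∧ HasCompactSupport μ ∧ ∃ p : ℂ[X], ∀ z ∈ K, ‖ct μ z - p.eval z‖ ≤ κ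

lemma Small.mono {μ : ℂ → ℂ} {κ κ' : ℝ} (h : Small K μ κ) (hκ : κ ≤ κ') : Small K μ κ' := by
  obtain ⟨h1, h2, p, hp⟩ := h
  exact ⟨h1, h2, p, fun z hz => (hp z hz).trans hκ⟩

lemma Small.add {μ μ' : ℂ → ℂ} {κ κ' : ℝ} (h : Small K μ κ) (h' : Small K μ' κ') :
    Small K (fun ζ => μ ζ + μ' ζ) (κ + κ') := by
  obtain ⟨h1, h2, p, hp⟩ := h
  obtain ⟨k1, k2, q, hq⟩ := h'
  refine ⟨h1.add k1, h2.add k2, p + q, fun z hz => ?_⟩
  have e : ct (fun ζ => μ ζ + μ' ζ) z - (p + q).eval z =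
      (ct μ z - p.eval z) + (ct μ' z - q.eval z) := by
    simp only [ct, add_div, eval_add]
    rw [integral_add (integrable_ct h1.continuous h2 z) (integrable_ct k1.continuous k2 z)]
    ring
  rw [e]
  exact (norm_add_le _ _).trans (add_le_add (hp z hz) (hq z hz))

lemma Small.sum {ι : Type} (s : Finset ι) {μ : ι → ℂ → ℂ} {κ : ι → ℝ}
    (h : ∀ i ∈ s, Small K (μ i) (κ i)) : Small K (fun ζ => ∑ i ∈ s, μ i ζ) (∑ i ∈ s, κ i) := by
  classical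
  induction s using Finset.induction_on with
  | empty =>
    simp only [Finset.sum_empty]
    exact ⟨contDiff_const, HasCompactSupport.zero, 0, fun z _ => by simp [ct]⟩
  | insert i s hi ih =>
    simp only [Finset.sum_insert hi]
    exact (h i (Finset.mem_insert_self _ _)).add
      (ih fun j hj => h j (Finset.mem_insert_of_mem hj))

lemma GA_one : ∃ A : ℝ, 0 < A ∧ ∀ (K : Set ℂ) (μ : ℂ → ℂ) (B : ℝ), IsCompact K →
    K.Nonempty → IsPreconnected Kᶜ → Continuous μ → HasCompactSupport μ → 0 < B →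
    (∀ ζ, ‖μ ζ‖ ≤ B) → (∀ ζ, 1 < infDist ζ Kᶜ → μ ζ = 0) →
    ∃ p : ℂ[X], ∀ z ∈ K, ‖ct μ z - p.eval z‖ ≤ A * B := by
  have hI : 0 ≤ ∫ w : ℂ, (‖w‖ * (1 + ‖w‖ ^ 2))⁻¹ := integral_nonneg fun w => by positivity
  refine ⟨1 + 10 ^ 10 * ∫ w : ℂ, (‖w‖ * (1 + ‖w‖ ^ 2))⁻¹, by positivity,
    fun K μ B hK hne hc hχ hχc hB h4 h5 => ?_⟩
  have : CompactSpace K := isCompact_iff_compactSpace.1 hK
  obtain ⟨R, hR⟩ := exists_kernel hK hne hc
  have hk : Continuous fun ζ => ((1 / Real.pi : ℂ) * μ ζ) • R ζ :=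
    (continuous_const.mul hχ).smul R.continuous
  have hkc : HasCompactSupport fun ζ => ((1 / Real.pi : ℂ) * μ ζ) • R ζ :=
    hχc.mul_left.smul_right
  obtain ⟨p, hp⟩ := approx_integral hk hkc (fun ζ => Subalgebra.smul_mem _ (hR ζ).1 _) hB
  refine ⟨p, fun z hz => ?_⟩
  have h6 := hp ⟨z, hz⟩
  have i1 : Integrable fun ζ => (((1 / Real.pi : ℂ) * μ ζ) • R ζ) ⟨z, hz⟩ :=
    (ContinuousMap.evalCLM ℂ (⟨z, hz⟩ : K)).integrable_comp
      (hk.integrable_of_hasCompactSupport hkc)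
  have h7 : ‖(∫ ζ, (((1 / Real.pi : ℂ) * μ ζ) • R ζ) ⟨z, hz⟩) - ct μ z‖ ≤
      B * 10 ^ 10 * ∫ w : ℂ, (‖w‖ * (1 + ‖w‖ ^ 2))⁻¹ := by
    rw [ct, ← integral_const_mul,
      ← integral_sub i1 ((integrable_ct hχ hχc z).const_mul _),
      ← integral_sub_left_eq_self (fun w : ℂ => (‖w‖ * (1 + ‖w‖ ^ 2))⁻¹) volume z,
      ← integral_const_mul]
    refine norm_integral_le_of_norm_le ((integrable_kernel.comp_sub_left z).const_mul _) ?_
    filter_upwards [compl_mem_ae_iff.2 (measure_singleton z)] with ζ hζ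
    have hne : z - ζ ≠ 0 := sub_ne_zero.2 (Ne.symm hζ)
    have hne' : ζ - z ≠ 0 := sub_ne_zero.2 hζ
    have hn := norm_pos_iff.2 hne
    by_cases hX : infDist ζ Kᶜ ≤ 1
    · have h8 := (hR ζ).2 hX ⟨z, hz⟩
      have h9 : (((1 / Real.pi : ℂ) * μ ζ) • R ζ) ⟨z, hz⟩ -
          -(1 / Real.pi : ℂ) * (μ ζ / (ζ - z)) =
          (1 / Real.pi : ℂ) * μ ζ * (((z - ζ) * R ζ ⟨z, hz⟩ - 1) / (z - ζ)) := by
        simp only [ContinuousMap.smul_apply, smul_eq_mul]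
        field_simp
        ring
      have h10 : ‖(1 / Real.pi : ℂ)‖ ≤ 1 := by
        rw [norm_div, norm_one, Complex.norm_real, Real.norm_of_nonneg Real.pi_pos.le,
          div_le_one Real.pi_pos]
        linarith [Real.pi_gt_three]
      have h11 : ‖((z - ζ) * R ζ ⟨z, hz⟩ - 1) / (z - ζ)‖ ≤
          10 ^ 10 * (‖z - ζ‖ * (1 + ‖z - ζ‖ ^ 2))⁻¹ := by
        rw [norm_div, ← div_eq_mul_inv, div_le_div_iff₀ hn (by positivity)]
        nlinarith [mul_le_mul_of_nonneg_right h8 hn.le]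
      rw [h9, norm_mul, norm_mul]
      calc _ ≤ 1 * B * (10 ^ 10 * (‖z - ζ‖ * (1 + ‖z - ζ‖ ^ 2))⁻¹) := by
            gcongr; exact h4 ζ
        _ = _ := by ring
    · have h8 : μ ζ = 0 := h5 ζ (not_le.1 hX)
      simp only [h8, mul_zero, zero_smul, ContinuousMap.zero_apply, zero_div, sub_zero, norm_zero]
      positivity
  have h9 := norm_sub_le_norm_sub_add_norm_sub (p.eval z)
    (∫ ζ, (((1 / Real.pi : ℂ) * μ ζ) • R ζ) ⟨z, hz⟩) (ct μ z)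
  simp only at h6
  rw [norm_sub_rev]
  nlinarith

lemma GA_scale (μ : ℂ → ℂ) {δ : ℝ} (hδ : 0 < δ) (z : ℂ) :
    ct μ (δ * z) = δ * ct (fun ζ => μ (δ * ζ)) z := by
  have hδ' : (δ : ℂ) ≠ 0 := Complex.ofReal_ne_zero.2 hδ.ne'
  have h1 := Measure.integral_comp_smul volume (fun ζ : ℂ => μ ζ / (ζ - δ * z)) δ
  have h2 : (fun ξ : ℂ => μ (δ • ξ) / (δ • ξ - δ * z)) =
      fun ξ => (δ : ℂ)⁻¹ * (μ (δ * ξ) / (ξ - z)) := by
    funext ξ
    rw [Complex.real_smul, ← mul_sub, div_mul_eq_div_div_swap, div_eq_inv_mul]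
  simp only [Complex.finrank_real_complex] at h1
  rw [h2, integral_const_mul, abs_of_pos (by positivity), Complex.real_smul] at h1
  push_cast at h1
  have h3 : ∫ ζ, μ ζ / (ζ - δ * z) = δ * ∫ ξ, μ (δ * ξ) / (ξ - z) := by
    field_simp at h1
    linear_combination -h1
  rw [ct, ct, h3]
  ring

/-- The estimate of Mergelyan for a density that vanishes at depth more than `δ`. -/
theorem small_thin : ∃ A : ℝ, 0 < A ∧ ∀ (K : Set ℂ) (μ : ℂ → ℂ) (B δ : ℝ), IsCompact K →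
    K.Nonempty → IsPreconnected Kᶜ → ContDiff ℝ 1 μ → HasCompactSupport μ → 0 < B → 0 < δ →
    (∀ ζ, ‖μ ζ‖ ≤ B) → (∀ ζ, δ < infDist ζ Kᶜ → μ ζ = 0) → Small K μ (A * (B * δ)) := by
  obtain ⟨A, hA0, hA⟩ := GA_one
  refine ⟨A, hA0, fun K μ B δ hK hne hc hμ hμc hB hδ hb h0 => ⟨hμ, hμc, ?_⟩⟩
  have hδ' : (δ : ℂ) ≠ 0 := Complex.ofReal_ne_zero.2 hδ.ne'
  let T := Homeomorph.mulLeft₀ (δ : ℂ) hδ'
  have h1 : ∀ z : ℂ, (δ : ℂ) * ((δ : ℂ)⁻¹ * z) = z := fun z => by field_simp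
  obtain ⟨p, hp⟩ := hA (T ⁻¹' K) (fun ζ => μ (δ * ζ)) B (T.isCompact_preimage.2 hK)
    (hne.preimage T.surjective) (by rw [← preimage_compl]; exact T.isPreconnected_preimage.2 hc)
    (hμ.continuous.comp T.continuous) (hμc.comp_homeomorph T) hB (fun ζ => hb _) fun ζ hζ => by
      refine h0 _ (lt_of_lt_of_le (show δ < δ * infDist ζ (T ⁻¹' K)ᶜ by nlinarith) ?_)
      refine (le_infDist (nonempty_compl.2 hK.ne_univ)).2 fun y hy => ?_
      have h2 : infDist ζ (T ⁻¹' K)ᶜ ≤ dist ζ ((δ : ℂ)⁻¹ * y) :=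
        infDist_le_dist_of_mem fun h => hy (h1 y ▸ h)
      calc _ ≤ δ * dist ζ ((δ : ℂ)⁻¹ * y) := mul_le_mul_of_nonneg_left h2 hδ.le
        _ = dist (δ * ζ : ℂ) (δ * ((δ : ℂ)⁻¹ * y)) := by
          rw [dist_eq_norm, dist_eq_norm, ← mul_sub, norm_mul, Complex.norm_real,
            Real.norm_of_nonneg hδ.le]
        _ = _ := by rw [h1]
  refine ⟨C (δ : ℂ) * p.comp (C (δ : ℂ)⁻¹ * X), fun z hz => ?_⟩
  have h2 := hp ((δ : ℂ)⁻¹ * z) (show (δ : ℂ) * ((δ : ℂ)⁻¹ * z) ∈ K by rw [h1]; exact hz)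
  have h3 := GA_scale μ hδ ((δ : ℂ)⁻¹ * z)
  rw [h1] at h3
  rw [h3, eval_mul, eval_C, eval_comp, eval_mul, eval_C, eval_X, ← mul_sub, norm_mul,
    Complex.norm_real, Real.norm_of_nonneg hδ.le]
  calc _ ≤ δ * (A * B) := mul_le_mul_of_nonneg_left h2 hδ.le
    _ = _ := by ring

/-- Multiplicative correction of a function with smooth local logarithms. -/
theorem patch {E μ : ℂ → ℂ} {κ : ℝ} (hμ : Small K μ κ)
    (hloc : ∀ z ∈ K, ∃ L : ℂ → ℂ, ∀ᶠ ζ in 𝓝 z,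
      DifferentiableAt ℝ L ζ ∧ dbar L ζ = μ ζ ∧ E ζ = Complex.exp (L ζ)) :
    ∃ (U : Set ℂ) (G : ℂ → ℂ), IsOpen U ∧ K ⊆ U ∧ DifferentiableOn ℂ G U ∧
      ∀ z ∈ K, ∃ u : ℂ, ‖u‖ ≤ κ ∧ G z = E z * Complex.exp u := by
  obtain ⟨h1, h2, p, hp⟩ := hμ
  have d2 := (ct_contDiff h1 h2).1.differentiable one_ne_zero
  refine ⟨interior {z | DifferentiableAt ℂ (fun z => E z * Complex.exp (p.eval z - ct μ z)) z},
    fun z => E z * Complex.exp (p.eval z - ct μ z), isOpen_interior, fun z hz => ?_,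
    fun z hz => (interior_subset hz).differentiableWithinAt,
    fun z hz => ⟨_, by rw [norm_sub_rev]; exact hp z hz, rfl⟩⟩
  obtain ⟨L, hL⟩ := hloc z hz
  rw [mem_interior_iff_mem_nhds]
  filter_upwards [eventually_eventually_nhds.2 hL] with w hw
  obtain ⟨a1, a2, -⟩ := hw.self_of_nhds
  have a3 : DifferentiableAt ℂ (L - ct μ) w := by
    refine differentiableAt_of_dbar (a1.sub (d2 w)) ?_
    have a4 := dbar_ct h1 h2 w
    rw [dbar] at a2 a4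
    rw [dbar, fderiv_sub a1 (d2 w), sub_apply, sub_apply]
    linear_combination a2 - a4
  refine ((a3.add (p.differentiable w)).cexp).congr_of_eventuallyEq ?_
  filter_upwards [hw] with ζ hζ
  rw [hζ.2.2, ← Complex.exp_add]
  congr 1
  simp only [Pi.add_apply, Pi.sub_apply]
  ring

end Pool.Agent.Lib.MP_1b82cc_an
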