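import Mathlib

/-!
A rational self-map of the right half plane with poles on the imaginary axis.
-/

namespace Pool.Agent.Lib.MP_1b82cc_an

open Set Complex

/-- The average of `w b² / (w² + b²)` over `b = 2 π p`, `p ∈ P`. -/
noncomputable def psi (P : Finset ℕ) (w : ℂ) : ℂ :=
  (∑ p ∈ P, w * ((2 * Real.pi * p : ℝ) : ℂ) ^ 2 / (w ^ 2 + ((2 * Real.pi * p : ℝ) : ℂ) ^ 2)) /
    (P.card : ℂ)

variable {P : Finset ℕ} {w : ℂ} {R : ℝ}

lemma GB1_ge (c : ℝ) (w : ℂ) : w.re ≤ ‖w - I * c‖ :=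
  le_trans (le_of_eq (by simp)) (re_le_norm _)

lemma GB1_ne (c : ℝ) (hw : 0 < w.re) : w - I * c ≠ 0 :=
  norm_pos_iff.1 (hw.trans_le (GB1_ge c w))

lemma GB1_den (b : ℝ) (w : ℂ) : w ^ 2 + (b : ℂ) ^ 2 = (w - I * b) * (w - I * (-b : ℝ)) := by
  push_cast
  linear_combination ((b : ℂ) ^ 2) * I_sq

lemma GB1_term (b : ℝ) (hw : 0 < w.re) : w * (b : ℂ) ^ 2 / (w ^ 2 + (b : ℂ) ^ 2) =
    ((b ^ 2 / 2 : ℝ) : ℂ) * ((w - I * b)⁻¹ + (w - I * (-b : ℝ))⁻¹) := by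
  have h1 := GB1_ne b hw
  have h2 := GB1_ne (-b) hw
  rw [GB1_den, inv_add_inv h1 h2, ← mul_div_assoc]
  congr 1
  push_cast
  ring

lemma GB1_avg {f : ℕ → ℂ} {g : ℕ → ℝ} (h : ∀ p ∈ P, ‖f p‖ ≤ g p) :
    ‖(∑ p ∈ P, f p) / (P.card : ℂ)‖ ≤ (∑ p ∈ P, g p) / P.card := by
  rw [norm_div, norm_natCast]
  exact div_le_div_of_nonneg_right (norm_sum_le_of_le P h) (Nat.cast_nonneg _)

lemma GB1_const {f : ℕ → ℂ} {B : ℝ} (hB : 0 ≤ B) (h : ∀ p ∈ P, ‖f p‖ ≤ B) :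
    ‖(∑ p ∈ P, f p) / (P.card : ℂ)‖ ≤ B := by
  refine (GB1_avg h).trans ?_
  rw [Finset.sum_const, nsmul_eq_mul]
  exact div_le_of_le_mul₀ (Nat.cast_nonneg _) hB (le_of_eq (mul_comm _ _))

lemma GB1_sq {p : ℕ} (h : (p : ℝ) ≤ 3 * R) : (2 * Real.pi * p) ^ 2 ≤ 400 * R ^ 2 := by
  have h0 : (0 : ℝ) ≤ p := Nat.cast_nonneg p
  have h1 : 2 * Real.pi * p ≤ 20 * R := by nlinarith [Real.pi_lt_d2, Real.pi_pos]
  exact (pow_le_pow_left₀ (by positivity) h1 2).trans_eq (by ring)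

lemma psi_analytic (hw : 0 < w.re) : AnalyticAt ℂ (psi P) w := by
  refine AnalyticAt.div_const (Finset.analyticAt_fun_sum _ fun p _ => ?_)
  refine AnalyticAt.fun_div (by fun_prop) (by fun_prop) ?_
  rw [GB1_den]
  exact mul_ne_zero (GB1_ne _ hw) (GB1_ne _ hw)

lemma psi_re (hw : 0 < w.re) : 0 ≤ (psi P w).re := by
  have h : ∀ c : ℝ, 0 ≤ (w - I * c)⁻¹.re := fun c => by
    rw [inv_re]
    exact div_nonneg (by simpa using hw.le) (normSq_nonneg _)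
  rw [psi, div_natCast_re, re_sum]
  refine div_nonneg (Finset.sum_nonneg fun p _ => ?_) (Nat.cast_nonneg _)
  rw [GB1_term _ hw, re_ofReal_mul, add_re]
  exact mul_nonneg (by positivity) (add_nonneg (h _) (h _))

lemma psi_le (hR : 0 < R) (h : ∀ p ∈ P, (p : ℝ) ≤ 3 * R) (hw : 0 < w.re) :
    ‖psi P w‖ ≤ 400 * R ^ 2 / w.re := by
  have h1 : ∀ c : ℝ, ‖(w - I * c)⁻¹‖ ≤ (w.re)⁻¹ := fun c => by
    rw [norm_inv]
    exact inv_anti₀ hw (GB1_ge c w)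
  refine GB1_const (by positivity) fun p hp => ?_
  rw [GB1_term _ hw, norm_mul, norm_real, Real.norm_of_nonneg (by positivity)]
  refine (mul_le_mul (div_le_div_of_nonneg_right (GB1_sq (h p hp)) two_pos.le)
    (norm_add_le_of_le (h1 _) (h1 _)) (norm_nonneg _) (by positivity)).trans_eq (by ring)

lemma psi_id (hP : P.Nonempty) (hR : 0 < R) (h : ∀ p ∈ P, 2 * R ≤ (p : ℝ)) (hw : ‖w‖ ≤ R) :
    ‖psi P w - w‖ ≤ ‖w‖ ^ 3 / R ^ 2 := by
  have h0 : (P.card : ℂ) ≠ 0 := Nat.cast_ne_zero.2 hP.card_pos.ne'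
  have e : psi P w - w = (∑ p ∈ P, (w * ((2 * Real.pi * p : ℝ) : ℂ) ^ 2 /
      (w ^ 2 + ((2 * Real.pi * p : ℝ) : ℂ) ^ 2) - w)) / (P.card : ℂ) := by
    rw [Finset.sum_sub_distrib, Finset.sum_const, nsmul_eq_mul, sub_div,
      mul_div_cancel_left₀ _ h0, psi]
  rw [e]
  refine GB1_const (by positivity) fun p hp => ?_
  have h1 : 2 * R ≤ 2 * Real.pi * p := by nlinarith [h p hp, Real.pi_gt_three]
  generalize 2 * Real.pi * p = b at h1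
  have h2 : R ^ 2 ≤ ‖w ^ 2 + (b : ℂ) ^ 2‖ := by
    have a1 := norm_sub_norm_le ((b : ℂ) ^ 2) (-w ^ 2)
    rw [sub_neg_eq_add, add_comm, norm_neg, norm_pow, norm_pow, norm_real, Real.norm_eq_abs,
      sq_abs] at a1
    nlinarith [pow_le_pow_left₀ (norm_nonneg w) hw 2]
  have h3 : w ^ 2 + (b : ℂ) ^ 2 ≠ 0 := norm_pos_iff.1 (lt_of_lt_of_le (by positivity) h2)
  rw [show w * (b : ℂ) ^ 2 / (w ^ 2 + (b : ℂ) ^ 2) - w = -w ^ 3 / (w ^ 2 + (b : ℂ) ^ 2) by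
    field_simp
    ring, norm_div, norm_neg, norm_pow]
  exact div_le_div_of_nonneg_left (by positivity) (by positivity) h2

lemma GB1_far {M v q c ρ : ℝ} (hM : 1 ≤ M) (hc : c = 2 * Real.pi * q) (h0 : 0 < ρ)
    (hρ : ρ ≤ 1 + |q - v|) {u : ℂ} (h1 : 1 / 2 ≤ u.re) (h2 : ‖u - 2 * Real.pi * I * v‖ ≤ M) :
    ‖u - I * c‖⁻¹ ≤ 2 * (M + 1) / ρ := by
  rw [← inv_div]
  refine inv_anti₀ (by positivity) ?_
  rw [div_le_iff₀ (by positivity)]
  rcases le_total |q - v| M with h | h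
  · nlinarith [GB1_ge c u]
  · have a1 := norm_sub_le (u - 2 * Real.pi * I * v) (u - I * c)
    rw [show u - 2 * Real.pi * I * v - (u - I * c) = ((2 * Real.pi * (q - v) : ℝ) : ℂ) * I by
      rw [hc]
      push_cast
      ring, norm_mul, norm_I, mul_one, norm_real, Real.norm_eq_abs, abs_mul,
      abs_of_pos (by positivity : 0 < 2 * Real.pi)] at a1
    have a2 : |q - v| ≤ ‖u - I * c‖ := by nlinarith [Real.pi_gt_three]
    nlinarith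

lemma GB1_one {M v q c ρ : ℝ} (hM : 1 ≤ M) (hc : c = 2 * Real.pi * q) (h0 : 0 < ρ)
    (hρ : ρ ≤ 1 + |q - v|) (h1 : 1 / 2 ≤ w.re) (h2 : ‖w - 2 * Real.pi * I * v‖ ≤ M) :
    ‖(w - I * c)⁻¹ - ((1 + 2 * Real.pi * I * v - I * c)⁻¹.im : ℂ) * I‖ ≤
      4 * (M + 2) ^ 3 * (1 / ρ ^ 2) := by
  have r0 : (1 + 2 * Real.pi * I * v : ℂ).re = 1 := by simp
  have r1 : (1 + 2 * Real.pi * I * v - I * c : ℂ).re = 1 := by simp
  have a1 := GB1_far hM hc h0 hρ h1 h2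
  have a2 := GB1_far hM hc h0 hρ (u := 1 + 2 * Real.pi * I * v) (by rw [r0]; norm_num)
    (by simpa using hM)
  have n1 := GB1_ne c (w := w) (by linarith)
  have n2 := GB1_ne c (w := 1 + 2 * Real.pi * I * v) (by rw [r0]; norm_num)
  have a3 : ‖1 + 2 * Real.pi * I * v - I * c - (w - I * c)‖ ≤ M + 1 := by
    rw [show 1 + 2 * Real.pi * I * v - I * c - (w - I * c) = 1 - (w - 2 * Real.pi * I * v) by ring]
    exact (norm_sub_le _ _).trans (by rw [norm_one]; linarith)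
  generalize w - I * c = x at *
  generalize 1 + 2 * Real.pi * I * v - I * c = y at *
  have e : x⁻¹ - (y⁻¹.im : ℂ) * I = (y - x) * x⁻¹ * y⁻¹ + (y⁻¹.re : ℂ) := by
    have := re_add_im y⁻¹
    have e2 : (y - x) * x⁻¹ * y⁻¹ = x⁻¹ - y⁻¹ := by field_simp
    linear_combination -e2 - this
  have a4 : ‖(y⁻¹.re : ℂ)‖ = ‖y‖⁻¹ * ‖y‖⁻¹ := by
    rw [norm_real, inv_re, r1, normSq_eq_norm_sq, Real.norm_of_nonneg (by positivity), one_div, sq,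
      mul_inv]
  rw [e]
  refine (norm_add_le _ _).trans ?_
  rw [a4, norm_mul, norm_mul, norm_inv, norm_inv]
  calc _ ≤ (M + 1) * (2 * (M + 1) / ρ) * (2 * (M + 1) / ρ) +
        2 * (M + 1) / ρ * (2 * (M + 1) / ρ) := by gcongr
    _ = 4 * ((M + 2) * (M + 1) ^ 2) * (1 / ρ ^ 2) := by
        field_simp
        ring
    _ ≤ _ := by
        gcongr
        nlinarith [sq_nonneg M]

lemma psi_cost {M : ℝ} (hM : 1 ≤ M) (hR : 0 < R) (h : ∀ p ∈ P, (p : ℝ) ≤ 3 * R) (v : ℤ) :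
    ∃ s : ℝ, ∀ w : ℂ, 1 / 2 ≤ w.re → ‖w - 2 * Real.pi * I * v‖ ≤ M →
      ‖psi P w - s * I‖ ≤ 2000 * (M + 2) ^ 3 *
        (R ^ 2 * ((∑ p ∈ P, 1 / (1 + abs ((p : ℝ) - |(v : ℝ)|)) ^ 2) / P.card)) := by
  let t : ℝ → ℝ := fun c => (1 + 2 * Real.pi * I * (v : ℝ) - I * c)⁻¹.im
  refine ⟨(∑ p ∈ P, (2 * Real.pi * p) ^ 2 / 2 * (t (2 * Real.pi * p) + t (-(2 * Real.pi * p)))) /
    P.card, fun w h1 h2 => ?_⟩
  rw [psi, ofReal_div, ofReal_natCast, ofReal_sum, div_mul_eq_mul_div, ← sub_div, Finset.sum_mul,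
    ← Finset.sum_sub_distrib, ← mul_assoc, ← mul_div_assoc, Finset.mul_sum]
  refine GB1_avg fun p hp => ?_
  have p0 : |(p : ℝ)| = p := abs_of_nonneg (Nat.cast_nonneg p)
  have h3 : ‖w - 2 * Real.pi * I * (v : ℝ)‖ ≤ M := by rwa [ofReal_intCast]
  have r0 : 0 < 1 + abs ((p : ℝ) - |(v : ℝ)|) := by positivity
  have a1 := GB1_one (q := p) hM rfl r0 (by
    have := abs_abs_sub_abs_le_abs_sub (p : ℝ) v
    rw [p0] at this
    linarith) h1 h3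
  have a2 := GB1_one (q := -p) (c := -(2 * Real.pi * p)) hM (by ring) r0 (by
    have := abs_abs_sub_abs_le_abs_sub (-p : ℝ) v
    rw [abs_neg, p0] at this
    linarith) h1 h3
  rw [GB1_term _ (by linarith), ofReal_mul (_ / 2), ofReal_add, mul_assoc _ _ I, ← mul_sub, add_mul,
    ← sub_add_sub_comm, norm_mul, norm_real, Real.norm_of_nonneg (by positivity)]
  refine (mul_le_mul (div_le_div_of_nonneg_right (GB1_sq (h p hp)) two_pos.le)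
    (norm_add_le_of_le a1 a2) (norm_nonneg _) (by positivity)).trans ?_
  have : 0 ≤ (M + 2) ^ 3 * R ^ 2 * (1 / (1 + abs ((p : ℝ) - |(v : ℝ)|)) ^ 2) := by positivity
  nlinarith

end Pool.Agent.Lib.MP_1b82cc_an
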