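import Pool.Agent.Lib.MP_1b82cc_an.GB1

/-!
Choice of a window of heights with small weight and of poles that avoid the heavy heights.
-/

namespace Pool.Agent.Lib.MP_1b82cc_an

open Set Complex

/-- The integers with `R ≤ |v| < 4 R`. -/
noncomputable def win (R : ℕ) : Finset ℤ :=
  (Finset.Ioo (-(4 * R : ℤ)) (4 * R)).filter fun v => (R : ℤ) ≤ |v|

lemma mem_win {R : ℕ} {v : ℤ} : v ∈ win R ↔ (R : ℤ) ≤ |v| ∧ |v| < 4 * R := by
  rw [win, Finset.mem_filter, Finset.mem_Ioo, abs_lt]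
  exact and_comm

lemma GB2_disj {i j : ℕ} (h : i < j) : Disjoint (win (4 ^ i)) (win (4 ^ j)) := by
  rw [Finset.disjoint_left]
  intro v h1 h2
  rw [mem_win] at h1 h2
  have h3 : 4 ^ (i + 1) ≤ 4 ^ j := Nat.pow_le_pow_right (by norm_num) h
  rw [pow_succ] at h3
  omega

theorem exists_window (a : ℤ → ℝ) (ha : ∀ v, 0 ≤ a v) {V : ℝ}
    (hV : ∀ s : Finset ℤ, ∑ v ∈ s, a v ≤ V) {τ : ℝ} (hτ : 0 < τ) (i₀ : ℕ) :
    ∃ i : ℕ, i₀ ≤ i ∧ ∑ v ∈ win (4 ^ i), a v ≤ τ / ((i : ℝ) + 1) := by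
  by_contra h
  push Not at h
  have h1 : Summable fun n : ℕ => τ * (1 / ((n + (i₀ + 1) : ℕ) : ℝ)) := by
    refine summable_of_sum_range_le (c := V) (fun n => by positivity) fun N => ?_
    refine le_trans ?_ (hV ((Finset.range N).biUnion fun n => win (4 ^ (n + i₀))))
    rw [Finset.sum_biUnion]
    · refine Finset.sum_le_sum fun n _ => le_trans (le_of_eq ?_) (h (n + i₀) (by omega)).le
      push_cast
      rw [mul_one_div, add_assoc]
    · intro i _ j _ hij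
      rcases lt_or_gt_of_ne hij with h2 | h2
      · exact GB2_disj (by omega)
      · exact (GB2_disj (by omega)).symm
  rw [summable_mul_left_iff hτ.ne'] at h1
  exact Real.not_summable_one_div_natCast
    ((summable_nat_add_iff (f := fun n : ℕ => 1 / (n : ℝ)) (i₀ + 1)).1 h1)

lemma GB2_card (s : Finset ℕ) (n : ℤ) {r : ℝ} (hr : 0 ≤ r) :
    ((s.filter fun p : ℕ => 1 + abs ((p : ℝ) - n) ≤ r).card : ℝ) ≤ 2 * r := by
  rcases (s.filter fun p : ℕ => 1 + abs ((p : ℝ) - n) ≤ r).eq_empty_or_nonempty with h | ⟨q, hq⟩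
  · rw [h, Finset.card_empty, Nat.cast_zero]
    positivity
  have h1 : 1 ≤ r := by
    have := (Finset.mem_filter.1 hq).2
    have := abs_nonneg ((q : ℝ) - n)
    linarith
  have h2 : 0 ≤ ⌊r - 1⌋ := Int.floor_nonneg.2 (by linarith)
  have h3 : (s.filter fun p : ℕ => 1 + abs ((p : ℝ) - n) ≤ r).card ≤
      (Finset.Icc (n - ⌊r - 1⌋) (n + ⌊r - 1⌋)).card := by
    refine Finset.card_le_card_of_injOn (fun p : ℕ => (p : ℤ)) (fun p hp => ?_)
      fun p _ q _ h => Nat.cast_injective (R := ℤ) h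
    have h4 := (Finset.mem_filter.1 hp).2
    have h5 : |(p : ℤ) - n| ≤ ⌊r - 1⌋ := Int.le_floor.2 (by push_cast; linarith)
    rw [abs_le] at h5
    simp only [Finset.coe_Icc, Set.mem_Icc]
    omega
  rw [Int.card_Icc] at h3
  have h4 : ((s.filter fun p : ℕ => 1 + abs ((p : ℝ) - n) ≤ r).card : ℤ) ≤ 2 * ⌊r - 1⌋ + 1 := by
    omega
  have h5 : ((s.filter fun p : ℕ => 1 + abs ((p : ℝ) - n) ≤ r).card : ℝ) ≤
      2 * (⌊r - 1⌋ : ℝ) + 1 := by exact_mod_cast h4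
  have := Int.floor_le (r - 1)
  linarith

lemma GB2_tel {r : ℝ} (hr : 0 < r) (S : Finset ℕ) :
    ∑ k ∈ S, 1 / (1 + (k : ℝ) + r) ^ 2 ≤ 1 / r := by
  have h : ∀ N : ℕ, ∑ k ∈ Finset.range N, 1 / (1 + (k : ℝ) + r) ^ 2 ≤ 1 / r - 1 / (N + r) := by
    intro N
    induction N with
    | zero => simp
    | succ N ih =>
      rw [Finset.sum_range_succ]
      have h1 : 0 < (N : ℝ) + r := by positivity
      have h2 : 1 / (1 + (N : ℝ) + r) ^ 2 ≤ 1 / (N + r) - 1 / ((N + 1 : ℕ) + r) := by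
        push_cast
        rw [div_sub_div _ _ h1.ne' (by positivity), div_le_div_iff₀ (by positivity) (by positivity)]
        nlinarith
      linarith
  obtain ⟨N, hN⟩ := S.exists_nat_subset_range
  refine (Finset.sum_le_sum_of_subset_of_nonneg hN fun _ _ _ => by positivity).trans
    ((h N).trans ?_)
  have : 0 ≤ 1 / ((N : ℝ) + r) := by positivity
  linarith

lemma GB2_sum {r : ℝ} (hr : 0 < r) (P : Finset ℕ) (n : ℤ) :
    ∑ p ∈ P, 1 / (1 + abs ((p : ℝ) - n) + r) ^ 2 ≤ 2 / r := by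
  have h : ∀ T : Finset ℕ, Set.InjOn (fun p : ℕ => ((p : ℤ) - n).natAbs) T →
      ∑ p ∈ T, 1 / (1 + abs ((p : ℝ) - n) + r) ^ 2 ≤ 1 / r := by
    intro T hT
    refine le_trans (le_of_eq ?_) (GB2_tel hr (T.image fun p : ℕ => ((p : ℤ) - n).natAbs))
    rw [Finset.sum_image hT]
    refine Finset.sum_congr rfl fun p _ => ?_
    rw [Nat.cast_natAbs]
    push_cast
    rfl
  rw [← Finset.sum_filter_add_sum_filter_not P fun p : ℕ => n ≤ (p : ℤ)]
  have h1 := h (P.filter fun p : ℕ => n ≤ (p : ℤ)) fun p hp q hq e => by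
    have := (Finset.mem_filter.1 hp).2
    have := (Finset.mem_filter.1 hq).2
    simp only at e
    omega
  have h2 := h (P.filter fun p : ℕ => ¬ n ≤ (p : ℤ)) fun p hp q hq e => by
    have := (Finset.mem_filter.1 hp).2
    have := (Finset.mem_filter.1 hq).2
    simp only at e
    omega
  have h3 : 2 / r = 1 / r + 1 / r := by ring
  linarith

lemma exists_poles {R : ℕ} (hR : 1 ≤ R) {σ : ℝ} (hσ : 0 < σ) {a : ℤ → ℝ} (ha : ∀ v, 0 ≤ a v)
    (hs : ∑ v ∈ win R, a v ≤ σ) : ∃ P : Finset ℕ, P.Nonempty ∧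
      (∀ p ∈ P, 2 * R ≤ p ∧ p < 3 * R) ∧ ∀ v ∈ win R,
        (R : ℝ) ^ 2 * ((∑ p ∈ P, 1 / (1 + abs ((p : ℝ) - |(v : ℝ)|)) ^ 2) / P.card) * a v ≤
          64 * σ := by
  classical
  have hR' : (0 : ℝ) < R := by exact_mod_cast hR
  let r : ℤ → ℝ := fun v => R * a v / (4 * σ)
  have hr : ∀ v, 0 ≤ r v := fun v => by
    have := ha v
    simp only [r]
    positivity
  let s := Finset.Ico (2 * R) (3 * R)
  let P := s.filter fun p : ℕ => ∀ v ∈ win R, r v < 1 + abs ((p : ℝ) - (|v| : ℤ))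
  have h1 : s ⊆ P ∪ (win R).biUnion fun v =>
      s.filter fun p : ℕ => 1 + abs ((p : ℝ) - (|v| : ℤ)) ≤ r v := by
    intro p hp
    by_cases h : ∀ v ∈ win R, r v < 1 + abs ((p : ℝ) - (|v| : ℤ))
    · exact Finset.mem_union_left _ (Finset.mem_filter.2 ⟨hp, h⟩)
    · push Not at h
      obtain ⟨v, hv, h⟩ := h
      exact Finset.mem_union_right _ (Finset.mem_biUnion.2 ⟨v, hv, Finset.mem_filter.2 ⟨hp, h⟩⟩)
  have h2 := ((Finset.card_le_card h1).trans (Finset.card_union_le _ _)).trans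
    (Nat.add_le_add_left Finset.card_biUnion_le _)
  have h3 : s.card = R := by
    simp only [s, Nat.card_Ico]
    omega
  rw [h3] at h2
  have h4 : (R : ℝ) ≤ P.card + ∑ v ∈ win R,
      ((s.filter fun p : ℕ => 1 + abs ((p : ℝ) - (|v| : ℤ)) ≤ r v).card : ℝ) := by
    exact_mod_cast h2
  have h5 : ∑ v ∈ win R, 2 * r v ≤ R / 2 := by
    have e : ∑ v ∈ win R, 2 * r v = R / (2 * σ) * ∑ v ∈ win R, a v := by
      rw [Finset.mul_sum]
      refine Finset.sum_congr rfl fun v _ => ?_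
      simp only [r]
      field_simp
      ring
    rw [e]
    refine (mul_le_mul_of_nonneg_left hs (by positivity)).trans (le_of_eq ?_)
    field_simp
  have h6 : (R : ℝ) / 2 ≤ P.card := by
    have := Finset.sum_le_sum fun v (_ : v ∈ win R) => GB2_card s |v| (hr v)
    linarith
  have h7 : (0 : ℝ) < P.card := by linarith
  refine ⟨P, Finset.card_pos.1 (by exact_mod_cast h7),
    fun p hp => Finset.mem_Ico.1 (Finset.mem_filter.1 hp).1, fun v hv => ?_⟩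
  rcases (ha v).eq_or_lt with h | h
  · rw [← h, mul_zero]
    positivity
  have h8 : 0 < r v := by
    simp only [r]
    positivity
  have h9 : ∑ p ∈ P, 1 / (1 + abs ((p : ℝ) - |(v : ℝ)|)) ^ 2 ≤ 4 * (2 / r v) := by
    refine le_trans ?_ (mul_le_mul_of_nonneg_left (GB2_sum h8 P |v|) (by norm_num))
    rw [Finset.mul_sum]
    refine Finset.sum_le_sum fun p hp => ?_
    have h10 := (Finset.mem_filter.1 hp).2 v hv
    rw [Int.cast_abs] at h10 ⊢
    have h11 := abs_nonneg ((p : ℝ) - |(v : ℝ)|)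
    rw [mul_one_div, div_le_div_iff₀ (by positivity) (by positivity)]
    nlinarith
  calc _ ≤ (R : ℝ) ^ 2 * (4 * (2 / r v) / (R / 2)) * a v := by gcongr
    _ = 64 * σ := by
      simp only [r]
      field_simp
      ring

lemma GB2_avg {P : Finset ℕ} {f : ℕ → ℝ} {b : ℝ} (hb : 0 ≤ b) (h : ∀ p ∈ P, f p ≤ b) :
    (∑ p ∈ P, f p) / P.card ≤ b := by
  refine div_le_of_le_mul₀ (by positivity) hb ?_
  simpa [mul_comm] using Finset.sum_le_card_nsmul P f b h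

theorem exists_psi {M : ℝ} (hM : 1 ≤ M) : ∃ C : ℝ, 1 ≤ C ∧ ∀ (R : ℕ) (σ : ℝ) (a : ℤ → ℝ),
    1 ≤ R → 0 < σ → (∀ v, 0 ≤ a v) → ∑ v ∈ win R, a v ≤ σ → ∃ Ψ : ℂ → ℂ,
      (∀ w : ℂ, 0 < w.re → AnalyticAt ℂ Ψ w ∧ 0 ≤ (Ψ w).re ∧ ‖Ψ w‖ ≤ 400 * (R : ℝ) ^ 2 / w.re) ∧
      (∀ w : ℂ, ‖w‖ ≤ R → ‖w - Ψ w‖ ≤ ‖w‖ ^ 3 / (R : ℝ) ^ 2) ∧
      ∀ v : ℤ, ∃ (m : ℤ) (c : ℝ), 0 ≤ c ∧
        (∀ w : ℂ, 1 / 2 ≤ w.re → ‖w - 2 * Real.pi * I * v‖ ≤ M →
          ‖w - 2 * Real.pi * I * m - Ψ w‖ ≤ c) ∧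
        c ≤ C * (R : ℝ) ^ 2 ∧ (v ∉ win R → c ≤ C) ∧ (v ∈ win R → c * a v ≤ C * σ) := by
  have hpi := Real.pi_pos
  obtain ⟨K, hK⟩ : ∃ K : ℝ, K = 2000 * (M + 2) ^ 3 := ⟨_, rfl⟩
  have hK0 : 0 ≤ K := by
    rw [hK]
    positivity
  refine ⟨M + 2 * Real.pi + 64 * K, by linarith, fun R σ a hR hσ ha hs => ?_⟩
  obtain ⟨P, hP, h1, h2⟩ := exists_poles hR hσ ha hs
  have hR1 : (1 : ℝ) ≤ R := by exact_mod_cast hR
  have hR' : (0 : ℝ) < R := by linarith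
  have h3 : ∀ p ∈ P, (p : ℝ) ≤ 3 * (R : ℝ) := fun p hp => by exact_mod_cast (h1 p hp).2.le
  have h4 : ∀ p ∈ P, 2 * (R : ℝ) ≤ (p : ℝ) := fun p hp => by exact_mod_cast (h1 p hp).1
  refine ⟨psi P, fun w hw => ⟨psi_analytic hw, psi_re hw, psi_le hR' h3 hw⟩,
    fun w hw => by rw [norm_sub_rev]; exact psi_id hP hR' h4 hw, fun v => ?_⟩
  obtain ⟨s, h5⟩ := psi_cost hM hR' h3 v
  rw [← hK] at h5
  have h6 : (∑ p ∈ P, 1 / (1 + abs ((p : ℝ) - |(v : ℝ)|)) ^ 2) / (P.card : ℝ) ≤ 1 := by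
    refine GB2_avg zero_le_one fun p _ => ?_
    have := abs_nonneg ((p : ℝ) - |(v : ℝ)|)
    rw [div_le_one (by positivity)]
    nlinarith
  have h7 : v ∉ win R → (∑ p ∈ P, 1 / (1 + abs ((p : ℝ) - |(v : ℝ)|)) ^ 2) / (P.card : ℝ) ≤
      1 / (R : ℝ) ^ 2 := by
    intro hv
    refine GB2_avg (by positivity) fun p hp => ?_
    have e1 : (R : ℤ) ≤ abs ((p : ℤ) - |v|) := by
      rw [mem_win] at hv
      have := h1 p hp
      rw [le_abs]
      omega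
    have e2 : (R : ℝ) ≤ abs ((p : ℝ) - |(v : ℝ)|) := by exact_mod_cast e1
    gcongr
    linarith
  have h8 := h2 v
  have h9 : 0 ≤ (∑ p ∈ P, 1 / (1 + abs ((p : ℝ) - |(v : ℝ)|)) ^ 2) / (P.card : ℝ) := by
    positivity
  generalize (∑ p ∈ P, 1 / (1 + abs ((p : ℝ) - |(v : ℝ)|)) ^ 2) / (P.card : ℝ) = A
    at h5 h6 h7 h8 h9
  have hR2 : (1 : ℝ) ≤ (R : ℝ) ^ 2 := by nlinarith
  refine ⟨⌊(2 * Real.pi * v - s) / (2 * Real.pi)⌋, M + 2 * Real.pi + K * ((R : ℝ) ^ 2 * A),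
    by positivity, fun w hw hv => ?_, ?_, fun hv => ?_, fun hv => ?_⟩
  · set m := ⌊(2 * Real.pi * v - s) / (2 * Real.pi)⌋ with hm
    have e1 : (m : ℝ) * (2 * Real.pi) ≤ 2 * Real.pi * v - s :=
      (le_div_iff₀ (by positivity)).1 (Int.floor_le _)
    have e2 : 2 * Real.pi * v - s < ((m : ℝ) + 1) * (2 * Real.pi) :=
      (div_lt_iff₀ (by positivity)).1 (Int.lt_floor_add_one _)
    have e3 : w - 2 * Real.pi * I * m - psi P w = (w - 2 * Real.pi * I * v) +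
        ((2 * Real.pi * v - s - m * (2 * Real.pi) : ℝ) : ℂ) * I - (psi P w - s * I) := by
      push_cast
      ring
    have e4 : ‖((2 * Real.pi * v - s - m * (2 * Real.pi) : ℝ) : ℂ) * I‖ ≤ 2 * Real.pi := by
      rw [norm_mul, norm_I, mul_one, norm_real, Real.norm_eq_abs, abs_le]
      constructor <;> linarith
    rw [e3]
    exact (norm_sub_le _ _).trans (add_le_add ((norm_add_le _ _).trans (add_le_add hv e4))
      (h5 w hw hv))
  · have e1 : K * ((R : ℝ) ^ 2 * A) ≤ K * ((R : ℝ) ^ 2 * 1) := by gcongr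
    have e2 : 0 ≤ K * (R : ℝ) ^ 2 := by positivity
    nlinarith
  · have e1 : (R : ℝ) ^ 2 * A ≤ 1 := by
      have := h7 hv
      rwa [le_div_iff₀ (by positivity), mul_comm] at this
    nlinarith
  · have e1 : a v ≤ σ := (Finset.single_le_sum (fun v _ => ha v) hv).trans hs
    have e2 := mul_le_mul_of_nonneg_left (h8 hv) hK0
    have e3 : (M + 2 * Real.pi) * a v ≤ (M + 2 * Real.pi) * σ := by gcongr
    nlinarith

end Pool.Agent.Lib.MP_1b82cc_an
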