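import Pool.Agent.Lib.MP_1b82cc_an.Log1

/-!
A logarithm that is continuous on every continuum.
-/

namespace Pool.Agent.Lib.MP_1b82cc_an

open Set Metric Filter Topology Complex

variable {K : Set ℂ} {l : ℂ → ℝ} {Γ : ℂ → ℂ}

lemma log_const {Q : Set ℂ} (hQ : IsPreconnected Q) {g h : ℂ → ℂ} (hg : ContinuousOn g Q)
    (hh : ContinuousOn h Q) (he : ∀ z ∈ Q, exp (g z) = exp (h z)) :
    ∀ x ∈ Q, ∀ y ∈ Q, g x - h x = g y - h y := by
  intro x hx y hy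
  have key : ∀ a ∈ Q, exp (g a - h a) = 1 := fun a ha => by
    rw [exp_sub, he a ha, div_self (exp_ne_zero _)]
  exact isCoveringMap_exp.constOn_of_comp hQ (g := fun a => g a - h a) (hg.sub hh)
    (fun a ha b hb => Subtype.ext ((key a ha).trans (key b hb).symm)) hx hy

lemma exists_canon_aux (hl : ContinuousOn l K) (hlog : ∀ θ > 0, HasLog (K ∩ l ⁻¹' Ici θ) Γ) :
    ∃ g : ℂ → ℂ, (∀ z ∈ K, 0 < l z → exp (g z) = Γ z) ∧
      ∀ Q, IsCompact Q → IsPreconnected Q → (∀ z ∈ Q, z ∈ K ∧ 0 < l z) → ContinuousOn g Q := by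
  classical
  choose! h h1 h2 using hlog
  let R : ℂ → ℂ → Prop := fun x y => ∃ T : Set ℂ, IsCompact T ∧ IsPreconnected T ∧
    (∀ z ∈ T, z ∈ K ∧ 0 < l z) ∧ x ∈ T ∧ y ∈ T
  have htr : ∀ x y z, R x y → R x z → R y z := by
    rintro x y z ⟨T, a1, a2, a3, a4, a5⟩ ⟨T', b1, b2, b3, b4, b5⟩
    exact ⟨T ∪ T', a1.union b1, a2.union x a4 b4 b2,
      fun w hw => hw.elim (a3 w) (b3 w), Or.inl a5, Or.inr b5⟩
  have hsy : ∀ x y, R x y → R y x := by
    rintro x y ⟨T, a1, a2, a3, a4, a5⟩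
    exact ⟨T, a1, a2, a3, a5, a4⟩
  have hlow : ∀ T : Set ℂ, IsCompact T → (∀ z ∈ T, z ∈ K ∧ 0 < l z) →
      ∃ θ > 0, T ⊆ K ∩ l ⁻¹' Ici θ := fun T hT hO => by
    obtain ⟨θ, h0, h3⟩ := hT.exists_forall_le' (hl.mono fun z hz => (hO z hz).1)
      fun z hz => (hO z hz).2
    exact ⟨θ, h0, fun z hz => ⟨(hO z hz).1, h3 z hz⟩⟩
  have hconst : ∀ T, IsPreconnected T → ∀ θ > 0, ∀ θ' > 0, T ⊆ K ∩ l ⁻¹' Ici θ →
      T ⊆ K ∩ l ⁻¹' Ici θ' → ∀ x ∈ T, ∀ y ∈ T, h θ x - h θ' x = h θ y - h θ' y :=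
    fun T hT θ hθ θ' hθ' a1 a2 => log_const hT ((h1 θ hθ).mono a1) ((h1 θ' hθ').mono a2)
      fun z hz => (h2 θ hθ z (a1 hz)).trans (h2 θ' hθ' z (a2 hz)).symm
  have hmono : ∀ s t : ℝ, s ≤ t → K ∩ l ⁻¹' Ici t ⊆ K ∩ l ⁻¹' Ici s := fun s t hst =>
    inter_subset_inter_right _ (preimage_mono (Ici_subset_Ici.2 hst))
  let b : ℂ → ℂ := fun x => Classical.epsilon (R x)
  have hb : ∀ x, x ∈ K ∧ 0 < l x → R x (b x) := fun x hx =>
    Classical.epsilon_spec (p := R x) ⟨x, {x}, isCompact_singleton, isPreconnected_singleton,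
      fun z hz => by rwa [mem_singleton_iff.1 hz], rfl, rfl⟩
  have hN : ∀ x, x ∈ K ∧ 0 < l x → ∃ (T : Set ℂ) (θ : ℝ), IsCompact T ∧ IsPreconnected T ∧
      (∀ z ∈ T, z ∈ K ∧ 0 < l z) ∧ x ∈ T ∧ b x ∈ T ∧ 0 < θ ∧ T ⊆ K ∩ l ⁻¹' Ici θ := fun x hx => by
    obtain ⟨T, a1, a2, a3, a4, a5⟩ := hb x hx
    obtain ⟨θ, a6, a7⟩ := hlow T a1 a3
    exact ⟨T, θ, a1, a2, a3, a4, a5, a6, a7⟩
  choose! T θ a1 a2 a3 a4 a5 a6 a7 using hN
  refine ⟨fun x => h (θ x) x - h (θ x) (b x) + log (Γ (b x)), fun x hx hx' => ?_,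
    fun Q q1 q2 q3 => ?_⟩
  · have hO : x ∈ K ∧ 0 < l x := ⟨hx, hx'⟩
    have e1 := h2 _ (a6 x hO) x (a7 x hO (a4 x hO))
    have e2 := h2 _ (a6 x hO) (b x) (a7 x hO (a5 x hO))
    have e3 : Γ (b x) ≠ 0 := e2 ▸ exp_ne_zero _
    rw [exp_add, exp_sub, e1, e2, exp_log e3, div_mul_cancel₀ _ e3]
  · rcases Q.eq_empty_or_nonempty with rfl | ⟨x, hx⟩
    · exact continuousOn_empty _
    have hO := q3 x hx
    have hT' : IsPreconnected (T x ∪ Q) := (a2 x hO).union x (a4 x hO) hx q2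
    obtain ⟨θ', b1, b2⟩ := hlow _ ((a1 x hO).union q1) fun w hw => hw.elim (a3 x hO w) (q3 w)
    have c1 : ContinuousOn (fun y => h θ' y - h θ' (b x) + log (Γ (b x))) Q :=
      (((h1 θ' b1).mono (subset_union_right.trans b2)).sub continuousOn_const).add
        continuousOn_const
    refine c1.congr fun y hy => ?_
    have hyO := q3 y hy
    have hxy : R x y := ⟨Q, q1, q2, q3, hx, hy⟩
    have hbb : b y = b x := by
      have : R y = R x := funext fun z => propext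
        ⟨fun hz => htr y x z (hsy x y hxy) hz, fun hz => htr x y z hxy hz⟩
      simp only [b, this]
    have m0 : 0 < min θ' (θ y) := lt_min b1 (a6 y hyO)
    have e1 := hconst _ hT' θ' b1 _ m0 b2
      (b2.trans (hmono _ _ (min_le_left _ _))) y (Or.inr hy) (b x)
      (Or.inl (a5 x hO))
    have e2 := hconst _ (a2 y hyO) _ (a6 y hyO) _ m0 (a7 y hyO)
      ((a7 y hyO).trans (hmono _ _ (min_le_right _ _))) y (a4 y hyO)
      (b y) (a5 y hyO)
    rw [hbb] at e2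
    change h (θ y) y - h (θ y) (b y) + log (Γ (b y)) = h θ' y - h θ' (b x) + log (Γ (b x))
    rw [hbb]
    linear_combination e2 - e1

lemma GC_eq_zero {w : ℂ} (h1 : exp w = 1) (h2 : ‖w‖ < 1) : w = 0 := by
  obtain ⟨n, rfl⟩ := exp_eq_one_iff.1 h1
  have hπ := Real.pi_gt_three
  have e : ‖(n : ℂ) * (2 * Real.pi * I)‖ = |(n : ℝ)| * (2 * Real.pi) := by
    simp [abs_of_pos Real.pi_pos]
  rw [e] at h2
  have h3 : |(n : ℝ)| < 1 := by nlinarith [abs_nonneg (n : ℝ)]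
  have h4 : n = 0 := Int.abs_lt_one_iff.1 (by exact_mod_cast h3)
  simp [h4]

lemma exists_agree {Y D : Set ℂ} (hY : IsCompact Y) (hD : IsCompact D) (hDY : D ⊆ Y)
    {g h : ℂ → ℂ} (hh : ContinuousOn h Y) (he : ∀ z ∈ Y, exp (g z) = exp (h z))
    (hgD : ContinuousOn g D)
    (hg : ∀ Q, IsCompact Q → IsPreconnected Q → Q ⊆ Y → ContinuousOn g Q) :
    ∃ g' : ℂ → ℂ, ContinuousOn g' Y ∧ (∀ z ∈ Y, exp (g' z) = exp (h z)) ∧
      ∀ z ∈ D, g' z = g z := by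
  classical
  have : CompactSpace Y := isCompact_iff_compactSpace.1 hY
  have h1 : ∀ z ∈ Y, exp (g z - h z) = 1 := fun a ha => by
    rw [exp_sub, he a ha, div_self (exp_ne_zero _)]
  have key : ∃ (W : Set Y) (c : Y → ℂ), IsClopen W ∧ univ ⊆ W ∧ Continuous c ∧
      (∀ z, exp (c z) = 1) ∧ ∀ z ∈ W, (z : ℂ) ∈ D → c z = g z - h z := by
    refine isCompact_univ.induction_on
      (p := fun t : Set Y => ∃ (W : Set Y) (c : Y → ℂ), IsClopen W ∧ t ⊆ W ∧ Continuous c ∧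
        (∀ z, exp (c z) = 1) ∧ ∀ z ∈ W, (z : ℂ) ∈ D → c z = g z - h z)
      ⟨∅, fun _ => 0, isClopen_empty, Subset.rfl, continuous_const, fun _ => exp_zero,
        fun z hz => hz.elim⟩ ?_ ?_ ?_
    · rintro s t hst ⟨W, c, a1, a2, a3⟩
      exact ⟨W, c, a1, hst.trans a2, a3⟩
    · rintro s t ⟨W, c, a1, a2, a3, a4, a5⟩ ⟨W', c', b1, b2, b3, b4, b5⟩
      refine ⟨W ∪ W', W.piecewise c c', a1.union b1, union_subset_union a2 b2,
        Continuous.piecewise (by simp [a1.frontier_eq]) a3 b3, fun z => ?_, fun z hz hzD => ?_⟩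
      · by_cases hz : z ∈ W
        · rw [piecewise_eq_of_mem _ _ _ hz]; exact a4 z
        · rw [piecewise_eq_of_notMem _ _ _ hz]; exact b4 z
      · by_cases hzW : z ∈ W
        · rw [piecewise_eq_of_mem _ _ _ hzW]; exact a5 z hzW hzD
        · rw [piecewise_eq_of_notMem _ _ _ hzW]; exact b5 z (hz.resolve_left hzW) hzD
    · intro x _
      have hQY : ((↑) '' connectedComponent x : Set ℂ) ⊆ Y := by
        rintro _ ⟨y, -, rfl⟩; exact y.2
      have hQc : IsCompact ((↑) '' connectedComponent x : Set ℂ) :=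
        isClosed_connectedComponent.isCompact.image continuous_subtype_val
      have hQp : IsPreconnected ((↑) '' connectedComponent x : Set ℂ) :=
        isPreconnected_connectedComponent.image _ continuous_subtype_val.continuousOn
      have hc := log_const hQp (hg _ hQc hQp hQY) (hh.mono hQY) fun z hz => he z (hQY hz)
      have hF : IsClosed (D ∩ (fun y => ‖g y - h y - (g x - h x)‖) ⁻¹' Ici (1 : ℝ)) :=
        ((hgD.sub (hh.mono hDY)).sub continuousOn_const).norm.preimage_isClosed_of_isClosed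
          hD.isClosed isClosed_Ici
      have : Nonempty { s : Set Y // IsClopen s ∧ x ∈ s } := ⟨⟨univ, isClopen_univ, trivial⟩⟩
      obtain ⟨W, hW⟩ := exists_subset_nhds_of_compactSpace
        (V := fun s : { s : Set Y // IsClopen s ∧ x ∈ s } => (s : Set Y))
        (U := (↑) ⁻¹' (D ∩ (fun y => ‖g y - h y - (g x - h x)‖) ⁻¹' Ici (1 : ℝ))ᶜ)
        (fun s t => ⟨⟨s.1 ∩ t.1, s.2.1.inter t.2.1, s.2.2, t.2.2⟩, inter_subset_left,
          inter_subset_right⟩) (fun s => s.2.1.1) fun y hy => by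
          rw [← connectedComponent_eq_iInter_isClopen] at hy
          refine (hF.isOpen_compl.preimage continuous_subtype_val).mem_nhds fun hm => ?_
          have h2 : (1 : ℝ) ≤ ‖g y - h y - (g x - h x)‖ := hm.2
          rw [hc y ⟨y, hy, rfl⟩ x ⟨x, mem_connectedComponent, rfl⟩, sub_self, norm_zero] at h2
          exact absurd h2 (by norm_num)
      refine ⟨W, mem_nhdsWithin_of_mem_nhds (W.2.1.2.mem_nhds W.2.2), W, fun _ => g x - h x,
        W.2.1, Subset.rfl, continuous_const, fun _ => h1 x x.2, fun z hz hzD => ?_⟩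
      refine (sub_eq_zero.1 (GC_eq_zero ?_ (lt_of_not_ge fun h2 => hW hz ⟨hzD, h2⟩))).symm
      rw [exp_sub, h1 z z.2, h1 x x.2, div_one]
  obtain ⟨W, c, -, a2, a3, a4, a5⟩ := key
  refine ⟨fun z => h z + if hz : z ∈ Y then c ⟨z, hz⟩ else 0, hh.add ?_, fun z hz => ?_,
    fun z hz => ?_⟩
  · rw [continuousOn_iff_continuous_domRestrict]
    exact a3.congr fun z => by simp
  · simp only [dif_pos hz]
    rw [exp_add, a4, mul_one]
  · simp only [dif_pos (hDY hz)]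
    rw [a5 ⟨z, hDY hz⟩ (a2 trivial) hz]
    ring

theorem exists_canon (hK : IsCompact K) (hl : ContinuousOn l K)
    (hlog : ∀ θ > 0, HasLog (K ∩ l ⁻¹' Ici θ) Γ) :
    ∃ g : ℂ → ℂ, (∀ z ∈ K, 0 < l z → exp (g z) = Γ z) ∧
      (∀ Q, IsCompact Q → IsPreconnected Q → (∀ z ∈ Q, z ∈ K ∧ 0 < l z) → ContinuousOn g Q) ∧
      ∀ θ > 0, ∀ D, IsCompact D → D ⊆ K ∩ l ⁻¹' Ici θ → ContinuousOn g D →
        ∃ g' : ℂ → ℂ, ContinuousOn g' (K ∩ l ⁻¹' Ici θ) ∧
          (∀ z ∈ K ∩ l ⁻¹' Ici θ, exp (g' z) = Γ z) ∧ ∀ z ∈ D, g' z = g z := by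
  obtain ⟨g, g1, g2⟩ := exists_canon_aux hl hlog
  refine ⟨g, g1, g2, fun θ hθ D hD hDY hgD => ?_⟩
  obtain ⟨h, h1, h2⟩ := hlog θ hθ
  have hY : IsCompact (K ∩ l ⁻¹' Ici θ) := hK.of_isClosed_subset
    (hl.preimage_isClosed_of_isClosed hK.isClosed isClosed_Ici) inter_subset_left
  have hp : ∀ z ∈ K ∩ l ⁻¹' Ici θ, z ∈ K ∧ 0 < l z := fun z hz => ⟨hz.1, hθ.trans_le hz.2⟩
  obtain ⟨g', a1, a2, a3⟩ := exists_agree hY hD hDY h1
    (fun z hz => (g1 z hz.1 (hp z hz).2).trans (h2 z hz).symm) hgD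
    fun Q q1 q2 q3 => g2 Q q1 q2 fun z hz => hp z (q3 hz)
  exact ⟨g', a1, fun z hz => (a2 z hz).trans (h2 z hz), a3⟩

end Pool.Agent.Lib.MP_1b82cc_an
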