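import Mathlib

/-!
Smooth cut-off functions with a bound on the gradient.
-/

namespace Pool.Agent.Lib.MP_1b82cc_an

open Set Metric Filter Topology MeasureTheory
open scoped Convolution

lemma GD_chi_one : ∃ C : ℝ, 0 ≤ C ∧ ∀ S : Set ℂ, ∃ χ : ℂ → ℝ,
    ContDiff ℝ 2 χ ∧ (∀ z, χ z ∈ Icc (0 : ℝ) 1) ∧ (∀ z ∈ thickening 1 S, χ z = 1) ∧
      (∀ z ∉ thickening 2 S, χ z = 0) ∧ ∀ z, ‖fderiv ℝ χ z‖ ≤ C := by
  let φ : ContDiffBump (0 : ℂ) := ⟨1 / 4, 1 / 2, by norm_num, by norm_num⟩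
  have hφc : HasCompactSupport (φ.normed volume) := φ.hasCompactSupport_normed
  have hφ1 : ContDiff ℝ 1 (φ.normed volume) := φ.contDiff_normed (n := 1)
  have hD : Integrable fun t => ‖fderiv ℝ (φ.normed volume) t‖ :=
    ((hφ1.continuous_fderiv one_ne_zero).integrable_of_hasCompactSupport (hφc.fderiv ℝ)).norm
  refine ⟨∫ t, ‖fderiv ℝ (φ.normed volume) t‖, integral_nonneg fun _ => norm_nonneg _,
    fun S => ?_⟩
  set u : ℂ → ℝ := (thickening (3 / 2) S).indicator fun _ => 1 with hu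
  have hul : LocallyIntegrable u volume :=
    (locallyIntegrable_const 1).indicator isOpen_thickening.measurableSet
  have hu0 : ∀ x, 0 ≤ u x ∧ u x ≤ 1 := fun x => by
    by_cases h : x ∈ thickening (3 / 2) S <;> simp [hu, h]
  have hr : φ.rOut = 1 / 2 := rfl
  refine ⟨φ.normed volume ⋆[ContinuousLinearMap.lsmul ℝ ℝ, volume] u,
    hφc.contDiff_convolution_left _ (φ.contDiff_normed (n := 2)) hul, fun z => ⟨?_, ?_⟩,
    fun z hz => ?_, fun z hz => ?_, fun z => ?_⟩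
  · exact integral_nonneg fun t => mul_nonneg (φ.nonneg_normed t) (hu0 _).1
  · rw [convolution_def, ← φ.integral_normed (μ := volume)]
    refine integral_mono_of_nonneg (Eventually.of_forall fun t =>
      mul_nonneg (φ.nonneg_normed t) (hu0 _).1) φ.integrable_normed
      (Eventually.of_forall fun t => ?_)
    exact mul_le_of_le_one_right (φ.nonneg_normed t) (hu0 _).2
  · obtain ⟨s, hs, hd⟩ := mem_thickening_iff.1 hz
    have h : ∀ x, dist x z < 1 / 2 → u x = 1 := fun x hx =>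
      indicator_of_mem (mem_thickening_iff.2 ⟨s, hs, by linarith [dist_triangle x z s]⟩) _
    rw [φ.normed_convolution_eq_right fun x hx => (h x hx).trans (h z (by simp)).symm]
    exact h z (by simp)
  · have h : ∀ x, dist x z < 1 / 2 → u x = 0 := fun x hx =>
      indicator_of_notMem (fun hm => by
        obtain ⟨s, hs, hd⟩ := mem_thickening_iff.1 hm
        exact hz (mem_thickening_iff.2 ⟨s, hs, by linarith [dist_triangle_left z s x]⟩)) _
    rw [φ.normed_convolution_eq_right fun x hx => (h x hx).trans (h z (by simp)).symm]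
    exact h z (by simp)
  · rw [(hφc.hasFDerivAt_convolution_left (ContinuousLinearMap.lsmul ℝ ℝ) hφ1 hul z).fderiv,
      convolution_def]
    refine norm_integral_le_of_norm_le hD (Eventually.of_forall fun t => ?_)
    refine ContinuousLinearMap.opNorm_le_bound _ (norm_nonneg _) fun v => ?_
    simp only [ContinuousLinearMap.precompL_apply, ContinuousLinearMap.lsmul_apply, norm_smul]
    have h3 : ‖u (z - t)‖ ≤ 1 := by
      rw [Real.norm_of_nonneg (hu0 _).1]; exact (hu0 _).2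
    exact (mul_le_of_le_one_right (norm_nonneg _) h3).trans (ContinuousLinearMap.le_opNorm _ _)

theorem exists_chi : ∃ C : ℝ, 0 < C ∧ ∀ (S : Set ℂ) (δ : ℝ), 0 < δ → ∃ χ : ℂ → ℝ,
    ContDiff ℝ 2 χ ∧ (∀ z, χ z ∈ Icc (0 : ℝ) 1) ∧ (∀ z ∈ thickening δ S, χ z = 1) ∧
      (∀ z ∉ thickening (2 * δ) S, χ z = 0) ∧ ∀ z, ‖fderiv ℝ χ z‖ ≤ C / δ := by
  obtain ⟨C, hC, h⟩ := GD_chi_one
  refine ⟨C + 1, by linarith, fun S δ hδ => ?_⟩
  obtain ⟨χ, h1, h2, h3, h4, h5⟩ := h ((fun z => δ⁻¹ • z) '' S)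
  have hd : ∀ z s : ℂ, dist (δ⁻¹ • z) (δ⁻¹ • s) = dist z s / δ := fun z s => by
    rw [dist_smul₀, Real.norm_of_nonneg (inv_pos.2 hδ).le, div_eq_inv_mul]
  refine ⟨fun z => χ (δ⁻¹ • z), h1.comp (contDiff_id.const_smul δ⁻¹), fun z => h2 _,
    fun z hz => h3 _ ?_, fun z hz => h4 _ fun hm => hz ?_, fun z => ?_⟩
  · obtain ⟨s, hs, hs'⟩ := mem_thickening_iff.1 hz
    exact mem_thickening_iff.2 ⟨_, ⟨s, hs, rfl⟩, by rw [hd, div_lt_one hδ]; exact hs'⟩
  · obtain ⟨_, ⟨s, hs, rfl⟩, hs'⟩ := mem_thickening_iff.1 hm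
    rw [hd, div_lt_iff₀ hδ] at hs'
    exact mem_thickening_iff.2 ⟨s, hs, hs'⟩
  · rw [fderiv_comp_smul, norm_smul, Real.norm_of_nonneg (inv_pos.2 hδ).le, div_eq_inv_mul]
    exact mul_le_mul_of_nonneg_left ((h5 _).trans (by linarith)) (inv_pos.2 hδ).le

lemma GD_step : ∃ M : ℝ, 0 ≤ M ∧ (∀ x, |deriv Real.smoothTransition x| ≤ M) ∧
    ∀ x, deriv Real.smoothTransition x ≠ 0 → x ∈ Icc (0 : ℝ) 1 := by
  have h0 : ∀ x, deriv Real.smoothTransition x ≠ 0 → x ∈ Icc (0 : ℝ) 1 := fun x hx => by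
    by_contra h
    refine hx ?_
    rcases lt_or_ge x 0 with h1 | h1
    · have : Real.smoothTransition =ᶠ[𝓝 x] fun _ => 0 :=
        (gt_mem_nhds h1).mono fun y hy => Real.smoothTransition.zero_of_nonpos hy.le
      rw [this.deriv_eq, deriv_const]
    · have h2 : 1 < x := not_le.1 fun h2 => h ⟨h1, h2⟩
      have : Real.smoothTransition =ᶠ[𝓝 x] fun _ => 1 :=
        (lt_mem_nhds h2).mono fun y hy => Real.smoothTransition.one_of_one_le hy.le
      rw [this.deriv_eq, deriv_const]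
  have hc : Continuous (deriv Real.smoothTransition) :=
    (Real.smoothTransition.contDiff (n := 1)).continuous_deriv le_rfl
  obtain ⟨M, hM⟩ := (isCompact_Icc (a := (0 : ℝ)) (b := 1)).exists_bound_of_continuousOn
    hc.continuousOn
  have hM0 : 0 ≤ M := (norm_nonneg _).trans (hM 0 ⟨le_rfl, zero_le_one⟩)
  refine ⟨M, hM0, fun x => ?_, h0⟩
  by_cases hx : deriv Real.smoothTransition x = 0
  · rw [hx, abs_zero]; exact hM0
  · exact hM x (h0 x hx)

theorem exists_phi : ∃ C : ℝ, 0 < C ∧ ∀ (lm : ℂ → ℝ) (Λ : ℝ) (N : ℕ) (G : Finset ℕ),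
    ContDiff ℝ 2 lm → (∀ z, ‖fderiv ℝ lm z‖ ≤ Λ) → G.Nonempty → (∀ j ∈ G, j < N) →
    N ≤ 2 * G.card → ∃ φ : ℂ → ℝ, ContDiff ℝ 2 φ ∧ (∀ z, φ z ∈ Icc (0 : ℝ) 1) ∧
      (∀ z, lm z ≤ 1 / 4 → φ z = 1) ∧ (∀ z, 3 / 4 ≤ lm z → φ z = 0) ∧
      (∀ z, ‖fderiv ℝ φ z‖ ≤ C * Λ) ∧ ∀ z, fderiv ℝ φ z ≠ 0 →
        ∃ j ∈ G, (N : ℝ) * (2 * lm z - 1 / 2) ∈ Icc ((j : ℝ) + 1 / 3) (j + 2 / 3) := by
  obtain ⟨M, hM0, hM, hs⟩ := GD_step
  refine ⟨12 * M + 1, by linarith, fun lm Λ N G hl hΛ hG hN hc => ?_⟩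
  have hΛ0 : 0 ≤ Λ := (norm_nonneg _).trans (hΛ 0)
  have hg : (0 : ℝ) < G.card := by exact_mod_cast hG.card_pos
  have hc' : (N : ℝ) ≤ 2 * G.card := by exact_mod_cast hc
  have hN0 : (0 : ℝ) ≤ N := Nat.cast_nonneg N
  set H := Real.smoothTransition with hH
  have hH2 : ContDiff ℝ 2 H := Real.smoothTransition.contDiff (n := 2)
  set a : ℂ → ℕ → ℝ := fun z j => 3 * ((N : ℝ) * (2 * lm z - 1 / 2) - j) - 1 with ha
  have key : ∀ z, HasFDerivAt (fun z => 1 - (G.card : ℝ)⁻¹ * ∑ j ∈ G, H (a z j))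
      ((-((G.card : ℝ)⁻¹ * (6 * N) * ∑ j ∈ G, deriv H (a z j))) • fderiv ℝ lm z) z := fun z => by
    have h1 := (hl.differentiable (by norm_num) z).hasFDerivAt
    have h2 : ∀ j ∈ G, HasFDerivAt (fun z => H (a z j))
        ((deriv H (a z j) * (6 * N)) • fderiv ℝ lm z) z := fun j _ => by
      have h3 : HasDerivAt (fun t : ℝ => 3 * ((N : ℝ) * (2 * t - 1 / 2) - j) - 1) (6 * N) (lm z) :=
        ((((((hasDerivAt_id (lm z)).const_mul 2).sub_const (1 / 2)).const_mul (N : ℝ)).sub_const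
          (j : ℝ)).const_mul 3).sub_const 1 |>.congr_deriv (by ring)
      exact ((hH2.differentiable (by norm_num) (a z j)).hasDerivAt.comp (lm z)
        h3).comp_hasFDerivAt z h1
    refine (((HasFDerivAt.fun_sum h2).const_mul (G.card : ℝ)⁻¹).const_sub 1).congr_fderiv ?_
    rw [← Finset.sum_smul, smul_smul, ← neg_smul, ← Finset.sum_mul]
    congr 1
    ring
  have mem : ∀ z (j : ℕ), deriv H (a z j) ≠ 0 →
      (N : ℝ) * (2 * lm z - 1 / 2) ∈ Icc ((j : ℝ) + 1 / 3) (j + 2 / 3) := fun z j h => by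
    obtain ⟨h1, h2⟩ := hs _ h
    simp only [ha] at h1 h2
    constructor <;> linarith
  refine ⟨fun z => 1 - (G.card : ℝ)⁻¹ * ∑ j ∈ G, H (a z j), ?_, fun z => ?_, fun z hz => ?_,
    fun z hz => ?_, fun z => ?_, fun z hz => ?_⟩
  · refine contDiff_const.sub (contDiff_const.mul (ContDiff.sum fun j _ => hH2.comp ?_))
    simp only [ha]
    fun_prop
  · have h1 : 0 ≤ ∑ j ∈ G, H (a z j) := Finset.sum_nonneg fun j _ => Real.smoothTransition.nonneg _
    have h2 : ∑ j ∈ G, H (a z j) ≤ G.card := by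
      simpa using Finset.sum_le_card_nsmul G (fun j => H (a z j)) 1
        fun j _ => Real.smoothTransition.le_one _
    have h3 : (G.card : ℝ)⁻¹ * ∑ j ∈ G, H (a z j) ≤ 1 := by
      rw [inv_mul_le_iff₀ hg]; linarith
    have h4 := mul_nonneg (inv_pos.2 hg).le h1
    constructor <;> linarith
  · have h1 : ∑ j ∈ G, H (a z j) = 0 := Finset.sum_eq_zero fun j _ =>
      Real.smoothTransition.zero_of_nonpos (by
        have := mul_nonneg hN0 (show 0 ≤ 1 / 2 - 2 * lm z by linarith)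
        have := Nat.cast_nonneg (α := ℝ) j
        simp only [ha]
        linarith)
    simp only [h1, mul_zero, sub_zero]
  · have h1 : ∑ j ∈ G, H (a z j) = ∑ j ∈ G, (1 : ℝ) := Finset.sum_congr rfl fun j hj =>
      Real.smoothTransition.one_of_one_le (by
        have := mul_nonneg hN0 (show 0 ≤ 2 * lm z - 3 / 2 by linarith)
        have : (j : ℝ) + 1 ≤ N := by exact_mod_cast hN j hj
        simp only [ha]
        linarith)
    simp only [h1, Finset.sum_const, nsmul_eq_mul, mul_one, inv_mul_cancel₀ hg.ne', sub_self]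
  · have h1 : |∑ j ∈ G, deriv H (a z j)| ≤ M := by
      by_cases h : ∃ j ∈ G, deriv H (a z j) ≠ 0
      · obtain ⟨j, hj, hj'⟩ := h
        rw [Finset.sum_eq_single_of_mem j hj fun i _ hi => ?_]
        · exact hM _
        by_contra h2
        obtain ⟨h3, h4⟩ := mem z j hj'
        obtain ⟨h5, h6⟩ := mem z i h2
        have h7 : i < j + 1 := by exact_mod_cast (show (i : ℝ) < j + 1 by linarith)
        have h8 : j < i + 1 := by exact_mod_cast (show (j : ℝ) < i + 1 by linarith)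
        omega
      · push Not at h
        rw [Finset.sum_eq_zero h, abs_zero]
        exact hM0
    have h2 : (G.card : ℝ)⁻¹ * (6 * N) ≤ 12 := by
      rw [inv_mul_le_iff₀ hg]; linarith
    have h3 : 0 ≤ (G.card : ℝ)⁻¹ * (6 * N) := by positivity
    rw [(key z).fderiv, norm_smul, norm_neg, Real.norm_eq_abs, abs_mul, abs_of_nonneg h3]
    refine mul_le_mul ?_ (hΛ z) (norm_nonneg _) (by linarith)
    linarith [mul_le_mul h2 h1 (abs_nonneg _) (by norm_num)]
  · by_contra h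
    refine hz ?_
    rw [(key z).fderiv, Finset.sum_eq_zero fun j hj => by_contra fun h2 => h ⟨j, hj, mem z j h2⟩]
    simp

end Pool.Agent.Lib.MP_1b82cc_an
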