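import Pool.Agent.Lib.MP_1b82cc_an.Runge
import Pool.Agent.Lib.MP_8daebb_an.SV.CT

/-!
The theorems of Runge and of Hartogs and Rosenthal, from the formula of Cauchy and Pompeiu.
-/

namespace Pool.Agent.Lib.MP_1b82cc_an

open Set Metric Filter Topology MeasureTheory Polynomial
open Pool.Agent.Lib.MP_8daebb_an.SV
open scoped Manifold ContDiff

/-- A smooth cut-off function. -/
lemma exists_cutoff {K U : Set ℂ} (hK : IsCompact K) (hU : IsOpen U) (hKU : K ⊆ U) :
    ∃ β : ℂ → ℝ, ContDiff ℝ 2 β ∧ HasCompactSupport β ∧ tsupport β ⊆ U ∧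
      (∀ z, β z ∈ Icc (0 : ℝ) 1) ∧ ∃ V, IsOpen V ∧ K ⊆ V ∧ V ⊆ U ∧ ∀ z ∈ V, β z = 1 := by
  obtain ⟨T, hT, hKT, hTU⟩ := exists_compact_between hK hU hKU
  obtain ⟨β, h1, h0, hI⟩ := exists_contMDiffMap_one_nhds_of_subset_interior (n := 2) 𝓘(ℝ, ℂ)
    hK.isClosed hKT
  have hs : tsupport (β : ℂ → ℝ) ⊆ T := closure_minimal
    (fun z hz => by_contra fun h => hz (h0 z h)) hT.isClosed
  obtain ⟨V, hV, hKV, hV1⟩ := mem_nhdsSet_iff_exists.1 h1
  refine ⟨β, β.contMDiff.contDiff, hT.of_isClosed_subset (isClosed_tsupport _) hs, hs.trans hTU,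
    hI, V ∩ U, hV.inter hU, subset_inter hKV hKU, inter_subset_right, fun z hz => hV1 hz.1⟩

lemma dbar_of_differentiableAt {G : ℂ → ℂ} {z : ℂ} (h : DifferentiableAt ℂ G z) :
    dbar G z = 0 := by
  have h1 := (h.hasFDerivAt.restrictScalars ℝ).fderiv
  have h2 : fderiv ℂ G z Complex.I = Complex.I * fderiv ℂ G z 1 := by
    rw [← smul_eq_mul, ← map_smul]; simp
  simp only [dbar, h1, ContinuousLinearMap.coe_restrictScalars', h2]
  rw [← mul_assoc, Complex.I_mul_I]; ring

lemma contDiff_dbar {φ : ℂ → ℂ} (h : ContDiff ℝ 2 φ) : ContDiff ℝ 1 (dbar φ) := by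
  have h1 : ContDiff ℝ 1 (fderiv ℝ φ) := h.fderiv_right (by norm_num)
  unfold dbar
  exact ((h1.clm_apply contDiff_const).add
    (contDiff_const.mul (h1.clm_apply contDiff_const))).div_const _

/-- Cauchy transforms of densities that vanish near `L`. -/
lemma approx_ct {L V : Set ℂ} (hL : IsCompact L) (hne : L.Nonempty) (hc : IsPreconnected Lᶜ)
    (hV : IsOpen V) (hLV : L ⊆ V) {χ : ℂ → ℂ} (hχ : Continuous χ) (hs : HasCompactSupport χ)
    (h0 : ∀ z ∈ V, χ z = 0) : Approx L (ct χ) := by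
  have : CompactSpace L := isCompact_iff_compactSpace.1 hL
  let S : Subalgebra ℂ C(L, ℂ) := (polynomialFunctions L).topologicalClosure
  have hS : IsClosed (S : Set C(L, ℂ)) := Subalgebra.isClosed_topologicalClosure _
  have hiff : ∀ (g : C(L, ℂ)) (G : ℂ → ℂ), (∀ z : L, g z = G z) → (g ∈ S ↔ Approx L G) := by
    intro g G hg
    have : g ∈ S ↔ g ∈ closure (polynomialFunctions L : Set C(L, ℂ)) := Iff.rfl
    rw [this, Metric.mem_closure_iff]
    constructor
    · intro h ε hε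
      obtain ⟨_, ⟨p, -, rfl⟩, hp⟩ := h ε hε
      refine ⟨p, fun z hz => ?_⟩
      have := (ContinuousMap.dist_apply_le_dist (f := g)
        (g := Polynomial.toContinuousMapOnAlgHom L p) ⟨z, hz⟩).trans_lt hp
      rw [hg, dist_comm, dist_eq_norm] at this
      simpa using this
    · intro h ε hε
      obtain ⟨p, hp⟩ := h ε hε
      refine ⟨_, ⟨p, trivial, rfl⟩, (ContinuousMap.dist_lt_iff hε).2 fun z => ?_⟩
      rw [hg, dist_comm, dist_eq_norm]
      simpa using hp z z.2
  have hk : Continuous fun q : ℂ × L => χ q.1 / (q.1 - q.2) := by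
    rw [continuous_iff_continuousAt]
    intro q
    by_cases hq : q.1 ∈ V
    · refine (continuousAt_const (y := (0 : ℂ))).congr ?_
      filter_upwards [continuous_fst.continuousAt.preimage_mem_nhds (hV.mem_nhds hq)] with a ha
      simp [h0 a.1 ha]
    · refine ContinuousAt.div (by fun_prop) (by fun_prop) (sub_ne_zero.2 fun h => hq ?_)
      exact h ▸ hLV q.2.2
  let k : C(ℂ, C(L, ℂ)) := ContinuousMap.curry ⟨_, hk⟩
  have hkS : ∀ ζ, k ζ ∈ S := by
    intro ζ
    by_cases hζ : ζ ∈ V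
    · have : k ζ = 0 := by ext z; simp [k, h0 ζ hζ]
      rw [this]; exact S.zero_mem
    · refine (hiff _ (fun z => ((C ζ - X : ℂ[X]).eval z)⁻¹ * (C (χ ζ)).eval z) fun z => ?_).2
        ((approx_inv hL hne hc _ fun z hz => ?_).mul_poly hL _)
      · simp [k, div_eq_inv_mul]
      · simp only [eval_sub, eval_C, eval_X]
        exact sub_ne_zero.2 fun h => hζ (h ▸ hLV hz)
  let S' : Submodule ℂ C(L, ℂ) := S.toSubmodule
  have : CompleteSpace S' := hS.completeSpace_coe
  let k' : ℂ → S' := fun ζ => ⟨k ζ, hkS ζ⟩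
  have hk' : Integrable k' := by
    refine Continuous.integrable_of_hasCompactSupport (k.continuous.subtype_mk _) ?_
    refine hs.mono fun ζ hζ h => hζ ?_
    ext z
    simp [k', k, h]
  have hI : ∀ z : L, ((∫ ζ, k' ζ : S') : C(L, ℂ)) z = ∫ ζ, χ ζ / (ζ - z) := fun z =>
    (((ContinuousMap.evalCLM ℂ z).comp S'.subtypeL).integral_comp_comm hk').symm
  refine (hiff ((-(1 / Real.pi : ℂ)) • ((∫ ζ, k' ζ : S') : C(L, ℂ))) _ fun z => ?_).1
    (S.smul_mem (∫ ζ, k' ζ : S').2 _)
  simp only [ContinuousMap.smul_apply, hI, smul_eq_mul, ct]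

/-- The theorem of Runge. -/
theorem runge {L U : Set ℂ} (hL : IsCompact L) (hne : L.Nonempty) (hc : IsPreconnected Lᶜ)
    (hU : IsOpen U) (hLU : L ⊆ U) {G : ℂ → ℂ} (hG : DifferentiableOn ℂ G U) : Approx L G := by
  obtain ⟨β, hβ, hβc, hβU, -, V, hV, hLV, hVU, hV1⟩ := exists_cutoff hL hU hLU
  have hψ : ContDiff ℝ 2 fun z => β z • G z := by
    rw [contDiff_iff_contDiffAt]
    intro z
    by_cases hz : z ∈ U
    · exact hβ.contDiffAt.smul
        (((hG.contDiffOn hU).contDiffAt (hU.mem_nhds hz)).restrict_scalars ℝ)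
    · refine (contDiffAt_const (c := (0 : ℂ))).congr_of_eventuallyEq ?_
      filter_upwards [notMem_tsupport_iff_eventuallyEq.1 fun h => hz (hβU h)] with a ha
      simp [ha]
  have hψc : HasCompactSupport fun z => β z • G z := hβc.smul_right
  have heq : ∀ z ∈ V, (fun z => β z • G z) =ᶠ[𝓝 z] G := fun z hz => by
    filter_upwards [hV.mem_nhds hz] with a ha
    simp [hV1 a ha]
  have h := approx_ct hL hne hc hV hLV (contDiff_dbar hψ).continuous (χ := dbar _) ?_ ?_
  · intro ε hε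
    obtain ⟨p, hp⟩ := h ε hε
    refine ⟨p, fun z hz => ?_⟩
    have := hp z hz
    rwa [ct_dbar (hψ.of_le (by norm_num)) hψc, hV1 z (hLV hz), one_smul] at this
  · refine (hψc.fderiv ℝ).mono fun z hz h => hz ?_
    rw [dbar, h]
    simp
  · intro z hz
    exact dbar_of_differentiableAt
      ((hG.differentiableAt (hU.mem_nhds (hVU hz))).congr_of_eventuallyEq (heq z hz))

/-- The theorem of Hartogs and Rosenthal. -/
theorem hartogs {K : Set ℂ} (hK : IsCompact K) (h0 : volume K = 0) {u : ℂ → ℂ}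
    (hu : ContinuousOn u K) {ε : ℝ} (hε : 0 < ε) :
    ∃ (U : Set ℂ) (G : ℂ → ℂ), IsOpen U ∧ K ⊆ U ∧ DifferentiableOn ℂ G U ∧
      ∀ z ∈ K, ‖G z - u z‖ < ε := by
  obtain ⟨v, hv⟩ := ContinuousMap.exists_restrict_eq hK.isClosed
    (⟨K.domRestrict u, hu.domRestrict⟩ : C(K, ℂ))
  obtain ⟨φ, hφ, hφv, -⟩ := v.continuous.exists_contDiff_approx 2 (ε := fun _ => ε / 2)
    continuous_const fun _ => by positivity
  have hφ : ContDiff ℝ 2 φ := hφ
  have hχ := contDiff_dbar hφ
  obtain ⟨R, hR⟩ := hK.isBounded.subset_ball 0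
  obtain ⟨M, hM⟩ := (isCompact_closedBall (0 : ℂ) R).exists_bound_of_continuousOn
    hχ.continuous.continuousOn
  set r := ε / (8 * (|M| + 1)) with hr
  have hr0 : 0 < r := by positivity
  obtain ⟨W, hKW, hW, hWv⟩ := K.exists_isOpen_lt_of_lt (μ := volume) (ENNReal.ofReal (r * r))
    (by rw [h0]; exact ENNReal.ofReal_pos.2 (by positivity))
  obtain ⟨β, hβ, hβc, hβU, hI, V, hV, hKV, -, hV1⟩ :=
    exists_cutoff hK (hW.inter isOpen_ball) (subset_inter hKW hR)
  have hρ : ContDiff ℝ 1 fun z => β z • dbar φ z := (hβ.of_le (by norm_num)).smul hχ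
  have hρc : HasCompactSupport fun z => β z • dbar φ z := hβc.smul_right
  have hz0 : ∀ z ∉ W ∩ ball 0 R, β z = 0 := fun z hz =>
    image_eq_zero_of_notMem_tsupport fun h => hz (hβU h)
  have d1 : Differentiable ℝ φ := hφ.differentiable (by norm_num)
  have d2 := (ct_contDiff hρ hρc).1.differentiable one_ne_zero
  refine ⟨V, fun z => φ z - ct (fun z => β z • dbar φ z) z, hV, hKV, fun z hz => ?_,
    fun z hz => ?_⟩
  · refine (differentiableAt_of_dbar ((d1 z).sub (d2 z)) ?_).differentiableWithinAt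
    have h1 := dbar_ct hρ hρc z
    rw [hV1 z hz, one_smul] at h1
    rw [dbar, dbar] at h1
    rw [dbar, fderiv_sub (d1 z) (d2 z), sub_apply, sub_apply]
    linear_combination -h1
  · have h1 := norm_ct_le (ψ := fun z => β z • dbar φ z) (M := |M| + 1) hW.measurableSet
      (by positivity) (by positivity) hWv.le (fun ζ => ?_)
      (fun ζ hζ => by simp [hz0 ζ fun h => hζ h.1]) hr0 z
    · have h2 : (|M| + 1) * (2 * r + r * r / r) = 3 * ε / 8 := by
        rw [hr]; field_simp; ring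
      have h3 : v z = u z := by simpa using congrArg (fun g : C(K, ℂ) => g ⟨z, hz⟩) hv
      have h4 := hφv z
      rw [h3, dist_eq_norm] at h4
      have h5 : φ z - ct (fun z => β z • dbar φ z) z - u z =
          (φ z - u z) - ct (fun z => β z • dbar φ z) z := by ring
      rw [h5]
      linarith [norm_sub_le (φ z - u z) (ct (fun z => β z • dbar φ z) z)]
    · by_cases hζ : ζ ∈ W ∩ ball 0 R
      · have h6 := hM ζ (ball_subset_closedBall hζ.2)
        rw [norm_smul, Real.norm_of_nonneg (hI ζ).1]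
        nlinarith [(hI ζ).1, (hI ζ).2, norm_nonneg (dbar φ ζ), le_abs_self M]
      · simp only [hz0 ζ hζ, zero_smul, norm_zero]; positivity

end Pool.Agent.Lib.MP_1b82cc_an
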