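import Pool.Agent.Lib.MP_1b82cc_an.GD
import Pool.Agent.Lib.MP_1b82cc_an.Loc1

/-!
A cut-off function that is locally constant at the centres of large discs, and areas of heights.
-/

namespace Pool.Agent.Lib.MP_1b82cc_an

open Set Metric Filter Topology MeasureTheory

lemma GE_lip {lm : ℂ → ℝ} {Λ : ℝ} (h : ContDiff ℝ 2 lm) (hΛ : ∀ z, ‖fderiv ℝ lm z‖ ≤ Λ)
    (z w : ℂ) : |lm z - lm w| ≤ Λ * dist z w := by
  have := (convex_univ (𝕜 := ℝ) (E := ℂ)).norm_image_sub_le_of_norm_fderiv_le (𝕜 := ℝ)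
    (fun x _ => h.differentiable (by norm_num) x) (fun x _ => hΛ x) (mem_univ w) (mem_univ z)
  rwa [Real.norm_eq_abs, ← dist_eq_norm] at this

lemma GE_count {D a : ℝ} {Ω : Set ℂ} (hD : 0 < D) (ha : 0 ≤ a)
    (hΩ : volume Ω ≤ ENNReal.ofReal a) (B : Finset ℕ) (c : ℕ → ℂ)
    (hc : ∀ j ∈ B, ball (c j) D ⊆ Ω)
    (hd : ∀ i ∈ B, ∀ j ∈ B, i ≠ j → Disjoint (ball (c i) D) (ball (c j) D)) :
    (B.card : ℝ) * (3 * D ^ 2) ≤ a := by
  have h1 : volume (⋃ j ∈ B, ball (c j) D) = ∑ j ∈ B, volume (ball (c j) D) :=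
    measure_biUnion_finset (fun i hi j hj hij => hd i hi j hj hij) fun _ _ => measurableSet_ball
  have h2 : ∀ j, ENNReal.ofReal (3 * D ^ 2) ≤ volume (ball (c j) D) := fun j => by
    rw [Complex.volume_ball, ← ENNReal.ofReal_pow hD.le, ← ENNReal.ofReal_coe_nnreal,
      ← ENNReal.ofReal_mul (by positivity)]
    refine ENNReal.ofReal_le_ofReal ?_
    have := Real.pi_gt_three
    have h3 : 0 < D ^ 2 := by positivity
    simp only [NNReal.coe_real_pi]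
    nlinarith
  have h3 : ENNReal.ofReal ((B.card : ℝ) * (3 * D ^ 2)) ≤ ENNReal.ofReal a := by
    calc ENNReal.ofReal ((B.card : ℝ) * (3 * D ^ 2))
        = ∑ _j ∈ B, ENNReal.ofReal (3 * D ^ 2) := by
          rw [Finset.sum_const, nsmul_eq_mul, ENNReal.ofReal_mul (by positivity),
            ENNReal.ofReal_natCast]
      _ ≤ ∑ j ∈ B, volume (ball (c j) D) := Finset.sum_le_sum fun j _ => h2 j
      _ = _ := h1.symm
      _ ≤ volume Ω := measure_mono (iUnion₂_subset hc)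
      _ ≤ _ := hΩ
  exact (ENNReal.ofReal_le_ofReal_iff ha).1 h3

theorem exists_cut : ∃ C : ℝ, 0 < C ∧ ∀ (lm : ℂ → ℝ) (Λ D a : ℝ) (Ω Y : Set ℂ),
    ContDiff ℝ 2 lm → 1 ≤ Λ → (∀ z, ‖fderiv ℝ lm z‖ ≤ Λ) → 0 < D → Λ * D ≤ 1 / 8 → 0 ≤ a →
    volume Ω ≤ ENNReal.ofReal a → 10 * Λ * a ≤ D → (∀ ζ ∈ Y, ball ζ D ⊆ Ω) →
    ∃ φ : ℂ → ℝ, ContDiff ℝ 2 φ ∧ (∀ z, φ z ∈ Icc (0 : ℝ) 1) ∧
      (∀ z, lm z ≤ 1 / 4 → φ z = 1) ∧ (∀ z, 3 / 4 ≤ lm z → φ z = 0) ∧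
      (∀ z, ‖fderiv ℝ φ z‖ ≤ C * Λ) ∧ (∀ ζ ∈ Y, fderiv ℝ φ ζ = 0) ∧
      ∀ z, fderiv ℝ φ z ≠ 0 → lm z ∈ Icc (1 / 4 : ℝ) (3 / 4) := by
  classical
  obtain ⟨C, hC, H⟩ := exists_phi
  refine ⟨C, hC, fun lm Λ D a Ω Y hlm hΛ hb hD hΛD ha hΩ haD hY => ?_⟩
  have hx : 0 < Λ * D := by positivity
  set N : ℕ := ⌊1 / (7 * (Λ * D))⌋₊ with hN
  have hN1 : (N : ℝ) * (7 * (Λ * D)) ≤ 1 :=
    (le_div_iff₀ (by positivity)).1 (Nat.floor_le (by positivity))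
  have hN2 : 1 < ((N : ℝ) + 1) * (7 * (Λ * D)) :=
    (div_lt_iff₀ (by positivity)).1 (Nat.lt_floor_add_one _)
  have hN0 : 1 ≤ N := by
    refine Nat.le_floor ?_
    rw [le_div_iff₀ (by positivity)]
    push_cast
    linarith
  have hN0' : (1 : ℝ) ≤ N := by exact_mod_cast hN0
  let P : ℕ → Prop := fun j => ∃ ζ ∈ Y,
    (N : ℝ) * (2 * lm ζ - 1 / 2) ∈ Icc ((j : ℝ) + 1 / 3) (j + 2 / 3)
  have hch : ∀ j, ∃ ζ : ℂ, P j → ζ ∈ Y ∧
      (N : ℝ) * (2 * lm ζ - 1 / 2) ∈ Icc ((j : ℝ) + 1 / 3) (j + 2 / 3) := fun j => by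
    by_cases h : P j
    · obtain ⟨ζ, h1, h2⟩ := h
      exact ⟨ζ, fun _ => ⟨h1, h2⟩⟩
    · exact ⟨0, fun h' => absurd h' h⟩
  choose c hc using hch
  have hin : ∀ j, P j → ∀ z ∈ ball (c j) D,
      (j : ℝ) < (N : ℝ) * (2 * lm z - 1 / 2) ∧ (N : ℝ) * (2 * lm z - 1 / 2) < j + 1 := by
    intro j hj z hz
    obtain ⟨-, h1, h2⟩ := hc j hj
    have h3 : |lm z - lm (c j)| ≤ Λ * D :=
      (GE_lip hlm hb z (c j)).trans (by gcongr; exact (mem_ball.1 hz).le)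
    obtain ⟨h4, h5⟩ := abs_le.1 h3
    have h6 := mul_le_mul_of_nonneg_left h4 (Nat.cast_nonneg (α := ℝ) N)
    have h7 := mul_le_mul_of_nonneg_left h5 (Nat.cast_nonneg (α := ℝ) N)
    constructor <;> nlinarith
  have hcount := GE_count hD ha hΩ ((Finset.range N).filter P) c
    (fun j hj => hY _ (hc j (Finset.mem_filter.1 hj).2).1) fun i hi j hj hij => by
      refine disjoint_left.2 fun z hzi hzj => hij ?_
      obtain ⟨h1, h2⟩ := hin i (Finset.mem_filter.1 hi).2 z hzi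
      obtain ⟨h3, h4⟩ := hin j (Finset.mem_filter.1 hj).2 z hzj
      have h5 : i < j + 1 := by exact_mod_cast h1.trans h4
      have h6 : j < i + 1 := by exact_mod_cast h3.trans h2
      omega
  have hsum := Finset.card_filter_add_card_filter_not (s := Finset.range N) P
  rw [Finset.card_range] at hsum
  have hbad : 2 * ((Finset.range N).filter P).card ≤ N := by
    set k : ℝ := (((Finset.range N).filter P).card : ℝ) with hk
    have hk0 : 0 ≤ k := Nat.cast_nonneg _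
    have h1 : k * (30 * (Λ * D)) ≤ 1 := by
      have h2 : 10 * Λ * (k * (3 * D ^ 2)) ≤ D :=
        (mul_le_mul_of_nonneg_left hcount (by positivity)).trans haD
      refine le_of_mul_le_mul_right ?_ hD
      nlinarith
    have h2 : 2 * k ≤ N := by
      refine le_of_mul_le_mul_right ?_ hx
      nlinarith [mul_le_mul_of_nonneg_right hN0' hx.le, mul_nonneg hk0 hx.le]
    rw [hk] at h2
    exact_mod_cast h2
  obtain ⟨φ, h1, h2, h3, h4, h5, h6⟩ := H lm Λ N ((Finset.range N).filter fun j => ¬ P j) hlm hb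
    (Finset.card_pos.1 (by omega))
    (fun j hj => Finset.mem_range.1 (Finset.mem_filter.1 hj).1) (by omega)
  refine ⟨φ, h1, h2, h3, h4, h5, fun ζ hζ => by_contra fun h => ?_, fun z hz => ?_⟩
  · obtain ⟨j, hj, hj'⟩ := h6 ζ h
    exact (Finset.mem_filter.1 hj).2 ⟨ζ, hζ, hj'⟩
  · obtain ⟨j, hj, h7, h8⟩ := h6 z hz
    have h9 : (j : ℝ) + 1 ≤ N := by
      exact_mod_cast Finset.mem_range.1 (Finset.mem_filter.1 hj).1
    have h10 : (0 : ℝ) ≤ j := Nat.cast_nonneg _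
    constructor
    · by_contra h
      push Not at h
      nlinarith
    · by_contra h
      push Not at h
      nlinarith

lemma sum_area {K : Set ℂ} (hK : IsCompact K) {Ω : ℤ → Set ℂ} (ho : ∀ v, IsOpen (Ω v))
    (hs : ∀ v, Ω v ⊆ K) (hd : ∀ v v', v ≠ v' → Disjoint (Ω v) (Ω v')) :
    ∃ (a : ℤ → ℝ) (V : ℝ), (∀ v, 0 ≤ a v) ∧ (∀ v, volume (Ω v) ≤ ENNReal.ofReal (a v)) ∧
      ∀ s : Finset ℤ, ∑ v ∈ s, a v ≤ V := by
  have hf : ∀ v, volume (Ω v) ≠ ⊤ := fun v =>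
    ((measure_mono (hs v)).trans_lt hK.measure_lt_top).ne
  refine ⟨fun v => (volume (Ω v)).toReal, (volume K).toReal, fun v => ENNReal.toReal_nonneg,
    fun v => (ENNReal.ofReal_toReal (hf v)).ge, fun s => ?_⟩
  rw [← ENNReal.toReal_sum fun v _ => hf v, ← measure_biUnion_finset
    (fun i _ j _ hij => hd i j hij) fun v _ => (ho v).measurableSet]
  exact ENNReal.toReal_mono hK.measure_lt_top.ne (measure_mono (iUnion₂_subset fun v _ => hs v))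

lemma exists_level {K₀ K₁ : Set ℂ} (h₀ : IsCompact K₀) (h₁ : IsCompact K₁)
    (hd : Disjoint K₀ K₁) : ∃ (lm : ℂ → ℝ) (Λ : ℝ), ContDiff ℝ 2 lm ∧ 1 ≤ Λ ∧
      (∀ z, ‖fderiv ℝ lm z‖ ≤ Λ) ∧ (∀ z w, |lm z - lm w| ≤ Λ * dist z w) ∧
      (∀ z ∈ K₀, lm z = 0) ∧ ∀ z ∈ K₁, lm z = 1 := by
  obtain ⟨β, h1, h2, h3, -, V, -, h4, -, h5⟩ := exists_cutoff h₁ h₀.isClosed.isOpen_compl
    hd.symm.subset_compl_right
  obtain ⟨Λ, hΛ⟩ := (h1.continuous_fderiv (by norm_num)).bounded_above_of_compact_support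
    (h2.fderiv ℝ)
  have hb : ∀ z, ‖fderiv ℝ β z‖ ≤ max 1 Λ := fun z => (hΛ z).trans (le_max_right _ _)
  exact ⟨β, max 1 Λ, h1, le_max_left _ _, hb, GE_lip h1 hb,
    fun z hz => image_eq_zero_of_notMem_tsupport fun h => h3 h hz, fun z hz => h5 z (h4 hz)⟩

lemma exists_scale {δ x : ℝ} (hδ : 0 < δ) (S : ℕ) (hx : x ≤ δ * 2 ^ S) :
    ∃ s ≤ S, x ≤ δ * 2 ^ s ∧ δ * 2 ^ s ≤ δ + 2 * |x| := by
  induction S with
  | zero => exact ⟨0, le_rfl, hx, by simp⟩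
  | succ S ih =>
    by_cases h : x ≤ δ * 2 ^ S
    · obtain ⟨s, h1, h2⟩ := ih h
      exact ⟨s, h1.trans (Nat.le_succ S), h2⟩
    · refine ⟨S + 1, le_rfl, hx, ?_⟩
      rw [pow_succ]
      linarith [le_abs_self x, not_le.1 h]

end Pool.Agent.Lib.MP_1b82cc_an
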