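import Pool.Agent.Lib.MP_1b82cc_an.LC2

/-!
A function without zeros whose logarithms on the level sets are uniformly close to polynomials.
-/

namespace Pool.Agent.Lib.MP_1b82cc_an

open Set Metric Filter Topology MeasureTheory Polynomial OnePoint
open Pool.Agent.Lib.MP_8daebb_an.SV
open scoped Manifold ContDiff

variable {K : Set ℂ} {f : ℂ → OnePoint ℂ}

/-- The constant of `glue` serves for all compact subsets. -/
lemma glue_sub (hK : IsCompact K) {l : ℝ} (hl : 0 < l) : ∃ A : ℝ, 0 < A ∧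
    ∀ (K' : Set ℂ) (Q : ℂ → ℂ) (η : ℝ), IsCompact K' → K' ⊆ K → 0 < η →
    (∀ c ∈ K, ∃ p : ℂ[X], ∀ z ∈ K' ∩ closedBall c l, ‖p.eval z - Q z‖ ≤ η) →
    ∃ (U : Set ℂ) (G : ℂ → ℂ), IsOpen U ∧ K' ⊆ U ∧ DifferentiableOn ℂ G U ∧
      ∀ z ∈ K', ‖G z - Q z‖ ≤ A * η := by
  obtain ⟨t, htK, ht⟩ := hK.elim_nhds_subcover (fun c => ball c l) fun c _ => ball_mem_nhds c hl
  have ht' : K ⊆ ⋃ c : t, ball (c : ℂ) l := fun z hz => by simpa using ht hz
  obtain ⟨T, hT, hKT, hTU⟩ := exists_compact_between hK (isOpen_iUnion fun _ => isOpen_ball) ht'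
  obtain ⟨φ, hφ⟩ := SmoothPartitionOfUnity.exists_isSubordinate 𝓘(ℝ, ℂ) hT.isClosed
    (fun c : t => ball (c : ℂ) l) (fun _ => isOpen_ball) hTU
  have hφ2 : ∀ c, ContDiff ℝ 2 (φ c) := fun c => contDiff_infty.1 (φ c).contMDiff.contDiff 2
  have hφd : ∀ c z, HasFDerivAt (φ c) (fderiv ℝ (φ c) z) z := fun c z =>
    ((hφ2 c).differentiable (by norm_num) z).hasFDerivAt
  obtain ⟨B, hB⟩ := hK.exists_bound_of_continuousOn (f := fun z => ∑ c, ‖fderiv ℝ (φ c) z‖)
    (continuous_finsetSum _ fun c _ => ((hφ2 c).continuous_fderiv (by norm_num)).norm).continuousOn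
  obtain ⟨R, hR⟩ := hK.isBounded.subset_ball 0
  set V := (volume (ball (0 : ℂ) R)).toReal with hV
  have hV0 : 0 ≤ V := ENNReal.toReal_nonneg
  refine ⟨1 + (|B| + 1) * (2 + V), by positivity, fun K' Q η hK' hs hη h => ?_⟩
  choose p hp using fun c : t => h c (htK c c.2)
  have hsum : ∀ z ∈ T, ∑ c, φ c z = 1 := fun z hz => by
    rw [← finsum_eq_sum_of_fintype]; exact φ.sum_eq_one hz
  have hpc : ∀ c, ContDiff ℝ 2 fun z => (p c).eval z := fun c =>
    (p c).differentiable.contDiff.restrict_scalars ℝ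
  have hψ : ContDiff ℝ 2 fun z => ∑ c, φ c z • (p c).eval z :=
    ContDiff.sum fun c _ => (hφ2 c).smul (hpc c)
  have hd : ∀ z ∈ K', ‖dbar (fun z => ∑ c, φ c z • (p c).eval z) z‖ < (|B| + 1) * η := by
    intro z hz
    have h1 : HasFDerivAt (fun z => ∑ c, φ c z • (p c).eval z) (∑ c, (φ c z •
        fderiv ℝ (fun z => (p c).eval z) z + (fderiv ℝ (φ c) z).smulRight ((p c).eval z))) z :=
      HasFDerivAt.fun_sum fun c _ =>
        (hφd c z).fun_smul ((hpc c).differentiable (by norm_num) z).hasFDerivAt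
    have h2 : ∑ c, fderiv ℝ (φ c) z = 0 := by
      refine (HasFDerivAt.fun_sum fun c _ => hφd c z).unique
        ((hasFDerivAt_const (1 : ℝ) z).congr_of_eventuallyEq ?_)
      filter_upwards [mem_interior_iff_mem_nhds.1 (hKT (hs hz))] with a ha using hsum a ha
    have h3 : ∀ v, ∑ c, ((fderiv ℝ (φ c) z v : ℝ) : ℂ) = 0 := fun v => by
      have := congrArg (fun L : ℂ →L[ℝ] ℝ => ((L v : ℝ) : ℂ)) h2
      simpa [_root_.sum_apply] using this
    have h4 : dbar (fun z => ∑ c, φ c z • (p c).eval z) z = ∑ c,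
        ((fderiv ℝ (φ c) z 1 : ℝ) + Complex.I * (fderiv ℝ (φ c) z Complex.I : ℝ)) / 2 *
          ((p c).eval z - Q z) := by
      have h5 : ∀ c, fderiv ℝ (fun z => (p c).eval z) z 1 +
          Complex.I * fderiv ℝ (fun z => (p c).eval z) z Complex.I = 0 := fun c => by
        have := dbar_of_differentiableAt ((p c).differentiable z)
        rwa [dbar, div_eq_zero_iff, or_iff_left two_ne_zero] at this
      have h6 : ∑ c, ((fderiv ℝ (φ c) z 1 : ℝ) + Complex.I *
          (fderiv ℝ (φ c) z Complex.I : ℝ)) / 2 * Q z = 0 := by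
        rw [← Finset.sum_mul, ← Finset.sum_div, Finset.sum_add_distrib, ← Finset.mul_sum, h3, h3]
        simp
      simp only [mul_sub, Finset.sum_sub_distrib, h6, sub_zero]
      rw [dbar, h1.fderiv, _root_.sum_apply, _root_.sum_apply,
        Finset.mul_sum, ← Finset.sum_add_distrib, Finset.sum_div]
      refine Finset.sum_congr rfl fun c _ => ?_
      simp only [add_apply, smul_apply, ContinuousLinearMap.smulRight_apply, Complex.real_smul]
      linear_combination ((φ c z : ℝ) : ℂ) / 2 * h5 c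
    have h7 : ∀ c, ‖((fderiv ℝ (φ c) z 1 : ℝ) + Complex.I *
        (fderiv ℝ (φ c) z Complex.I : ℝ)) / 2 * ((p c).eval z - Q z)‖ ≤
        ‖fderiv ℝ (φ c) z‖ * η := fun c => by
      by_cases hc : z ∈ tsupport (φ c)
      · have a1 := (fderiv ℝ (φ c) z).le_opNorm 1
        have a2 := (fderiv ℝ (φ c) z).le_opNorm Complex.I
        have a3 := norm_add_le ((fderiv ℝ (φ c) z 1 : ℝ) : ℂ)
          (Complex.I * (fderiv ℝ (φ c) z Complex.I : ℝ))
        rw [norm_mul] at a3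
        simp only [norm_one, Complex.norm_I, mul_one, one_mul, Complex.norm_real] at a1 a2 a3
        rw [norm_mul, norm_div, Complex.norm_ofNat]
        exact mul_le_mul (by linarith) (hp c z ⟨hz, ball_subset_closedBall (hφ c hc)⟩)
          (norm_nonneg _) (norm_nonneg _)
      · simp [fderiv_of_notMem_tsupport ℝ hc]
    rw [h4]
    refine ((norm_sum_le _ _).trans (Finset.sum_le_sum fun c _ => h7 c)).trans_lt ?_
    rw [← Finset.sum_mul]
    have := (le_abs_self _).trans (hB z (hs hz))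
    exact mul_lt_mul_of_pos_right (by linarith [le_abs_self B]) hη
  obtain ⟨U, G, h1, h2, h3, h4⟩ := dbar_correct hK' (W := ball 0 R ∩
    {z | ‖dbar (fun z => ∑ c, φ c z • (p c).eval z) z‖ < (|B| + 1) * η})
    (isOpen_ball.inter (isOpen_lt (contDiff_dbar hψ).continuous.norm continuous_const))
    (subset_inter (hs.trans hR) hd) hψ (M := (|B| + 1) * η) (by positivity) hV0
    ((measure_mono inter_subset_left).trans (ENNReal.ofReal_toReal measure_ball_lt_top.ne).ge)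
    fun z hz => hz.2.le
  refine ⟨U, G, h1, h2, h3, fun z hz => ?_⟩
  have h5 : ‖∑ c, φ c z • (p c).eval z - Q z‖ ≤ η := by
    have h6 := hsum z (interior_subset (hKT (hs hz)))
    have h7 : ∑ c, φ c z • (p c).eval z - Q z = ∑ c, φ c z • ((p c).eval z - Q z) := by
      simp only [smul_sub, Finset.sum_sub_distrib]
      rw [← Finset.sum_smul, h6, one_smul]
    rw [h7, ← one_mul η, ← h6, Finset.sum_mul]
    refine (norm_sum_le _ _).trans (Finset.sum_le_sum fun c _ => ?_)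
    rw [norm_smul, Real.norm_of_nonneg (φ.nonneg c z)]
    by_cases hc : φ c z = 0
    · simp [hc]
    · exact mul_le_mul_of_nonneg_left (hp c z ⟨hz, ball_subset_closedBall
        (hφ c (subset_tsupport _ hc))⟩) (φ.nonneg c z)
  have h8 := norm_sub_le_norm_sub_add_norm_sub (G z) (∑ c, φ c z • (p c).eval z) (Q z)
  have h9 := h4 z
  nlinarith

/-- Approximation of a logarithm whose exponential is close to a holomorphic function. -/
lemma GF_piece {L : Set ℂ} (hL : IsCompact L) (hc : IsPreconnected Lᶜ) {g E : ℂ → ℂ} {η : ℝ}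
    (hη : 0 < η) (hη' : η ≤ 1 / 4) (hg : ContinuousOn g L) (hEc : ContinuousOn E L)
    (hE : ∀ z ∈ interior L, DifferentiableAt ℂ E z)
    (he : ∀ z ∈ L, E z ≠ 0 ∧ ‖Complex.exp (g z) / E z - 1‖ ≤ 2 * η) :
    ∃ p : ℂ[X], ∀ z ∈ L, ‖p.eval z - g z‖ ≤ 4 * η := by
  have h1 : ∀ z ∈ L, ‖Complex.log (Complex.exp (g z) / E z)‖ ≤ 3 * η := by
    intro z hz
    have := Complex.norm_log_one_add_half_le_self ((he z hz).2.trans (by linarith))
    rw [add_sub_cancel] at this
    linarith [(he z hz).2]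
  have h2 : ContinuousOn (fun z => g z - Complex.log (Complex.exp (g z) / E z)) L :=
    hg.sub ((hg.cexp.div hEc fun z hz => (he z hz).1).clog fun z hz => by
      have := Complex.mem_slitPlane_of_norm_lt_one ((he z hz).2.trans_lt (by linarith))
      rwa [add_sub_cancel] at this)
  have h3 : ∀ z ∈ L, Complex.exp (g z - Complex.log (Complex.exp (g z) / E z)) = E z := by
    intro z hz
    have h3 := (he z hz).1
    have h4 := Complex.exp_ne_zero (g z)
    rw [Complex.exp_sub, Complex.exp_log (div_ne_zero h4 h3)]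
    field_simp
  obtain ⟨p, hp⟩ := mergelyan hL hc h2 (fun z hz => by
    have hzL := mem_interior_iff_mem_nhds.1 hz
    exact (differentiableAt_of_exp (h2.continuousAt hzL) (hE z hz)
      (by filter_upwards [hzL] with w hw using h3 w hw)).differentiableWithinAt) η hη
  refine ⟨p, fun z hz => ?_⟩
  have h4 := norm_sub_le_norm_sub_add_norm_sub (p.eval z)
    (g z - Complex.log (Complex.exp (g z) / E z)) (g z)
  rw [sub_sub_cancel_left, norm_neg] at h4
  linarith [hp z hz, h1 z hz]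

theorem exists_gam (hK : IsCompact K) (hc : IsPreconnected Kᶜ) (hf : InClass K f) {κ : ℝ}
    (hκ : 0 < κ) : ∃ (p₁ : ℂ[X]) (Γ : ℂ → ℂ) (m₁ : ℝ), 0 < m₁ ∧
      (∀ θ > 0, HasLog (lev K f θ) Γ) ∧ (∀ z ∈ K, lam (f z) ≤ 1 / 2 → m₁ ≤ ‖p₁.eval z‖) ∧
      (∀ z ∈ K, lam (f z) ≠ 0 → ‖p₁.eval z * Γ z - fv (f z)‖ ≤ κ) ∧
      (∀ T : ℝ, ∃ θ > 0, ∀ z ∈ K, lam (f z) ≠ 0 → lam (f z) ≤ θ → Real.exp T ≤ ‖Γ z‖) ∧
      ∀ θ > 0, ∀ g : ℂ → ℂ, ContinuousOn g (lev K f θ) →
        (∀ z ∈ lev K f θ, Complex.exp (g z) = Γ z) →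
        ∃ Q : ℂ[X], ∀ z ∈ lev K f θ, ‖Q.eval z - g z‖ ≤ κ := by
  have hl : ContinuousOn (fun z => lam (f z)) K := continuous_lam.comp_continuousOn hf.1
  obtain ⟨δ, hδ, hu⟩ := Metric.uniformContinuousOn_iff.1
    (hK.uniformContinuousOn_of_continuous hl) (1 / 20) (by norm_num)
  obtain ⟨A, hA, hglue⟩ := glue_sub hK (half_pos hδ)
  set κ' := min κ (1 / 2) with hκ'
  have hκ0 : 0 < κ' := lt_min hκ (by norm_num)
  have hκ1 : κ' ≤ κ := min_le_left _ _
  have hκ2 : κ' ≤ 1 / 2 := min_le_right _ _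
  set η := κ' / (4 * (A + 1)) with hη
  have hη0 : 0 < η := by positivity
  have hη1 : (A + 1) * (4 * η) = κ' := by rw [hη]; field_simp
  have hη2 : 4 * η ≤ κ' := by nlinarith
  obtain ⟨p₁, p₂, Γ, g1, g2, g3, g4, g5⟩ := exists_gamma hK hc hf hη0 (by linarith)
  obtain ⟨M₁, hM₁0, hM₁⟩ : ∃ M > 0, ∀ z ∈ K, ‖p₁.eval z‖ ≤ M := by
    obtain ⟨M, hM⟩ := hK.exists_bound_of_continuousOn (f := fun z => p₁.eval z)
      p₁.continuous.continuousOn
    exact ⟨|M| + 1, by positivity, fun z hz => by linarith [hM z hz, le_abs_self M]⟩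
  obtain ⟨m₁, hm₁0, hm₁⟩ := exists_lower (hK.of_isClosed_subset
    (hl.preimage_isClosed_of_isClosed hK.isClosed (isClosed_Iic (a := 1 / 2))) inter_subset_left)
    p₁.continuous.continuousOn fun z hz => g3 z hz.1 hz.2
  have half : ∀ a b : ℂ, b ≠ 0 → ‖a / b - 1‖ ≤ 2 * η → ‖b‖ / 2 ≤ ‖a‖ := fun a b hb h => by
    have h1 := norm_sub_norm_le (1 : ℂ) (a / b)
    rw [norm_sub_rev, norm_one, norm_div] at h1
    have h2 : 1 / 2 ≤ ‖a‖ / ‖b‖ := by linarith
    rw [le_div_iff₀ (norm_pos_iff.2 hb)] at h2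
    linarith
  have hne : ∀ z ∈ K, lam (f z) ≠ 0 → lam (f z) ≤ 1 / 2 → fv (f z) / p₁.eval z ≠ 0 :=
    fun z hz h h' => div_ne_zero (norm_pos_iff.1 (one_pos.trans_le (g4 z hz h h').1)) (g3 z hz h')
  have lowB : ∀ z ∈ K, lam (f z) ≠ 0 → lam (f z) ≤ 1 / 2 → ‖fv (f z)‖ / (2 * M₁) ≤ ‖Γ z‖ := by
    intro z hz h h'
    refine le_trans ?_ (half _ _ (hne z hz h h') (g4 z hz h h').2)
    rw [norm_div, div_div, mul_comm]
    exact div_le_div_of_nonneg_left (norm_nonneg _)
      (mul_pos (norm_pos_iff.2 (g3 z hz h')) two_pos) (by linarith [hM₁ z hz])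
  have low : ∀ z ∈ K, lam (f z) ≠ 0 → Γ z ≠ 0 := fun z hz h => by
    by_cases h' : lam (f z) ≤ 1 / 2
    · exact norm_pos_iff.1 ((half_pos (norm_pos_iff.2 (hne z hz h h'))).trans_le
        (half _ _ (hne z hz h h') (g4 z hz h h').2))
    · have h1 := g2 z hz (by linarith)
      exact norm_pos_iff.1 ((half_pos (norm_pos_iff.2 h1.1)).trans_le (half _ _ h1.1 h1.2))
  have hbig : ∀ (R : ℝ) (a : OnePoint ℂ), lam a ≠ 0 → lam a ≤ 1 / (1 + R ^ 2) → R ≤ ‖fv a‖ := by
    intro R a h' h''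
    refine le_of_sq_le_sq ?_ (norm_nonneg _)
    rw [le_div_iff₀ (by positivity)] at h''
    linarith [le_of_mul_le_mul_left (h''.trans_eq (lam_mul h').symm)
      ((lam_nonneg a).lt_of_ne' h')]
  refine ⟨p₁, Γ, m₁, hm₁0, fun θ hθ => hasLog (isCompact_lev hK hf.1 θ)
    (compl_lev hK hc hf hθ) (g1.mono fun z hz => ⟨hz.1, (hθ.trans_le hz.2).ne'⟩)
    fun z hz => low z hz.1 (hθ.trans_le hz.2).ne', fun z hz h => hm₁ z ⟨hz, h⟩,
    fun z hz h => (g5 z hz h).trans (by linarith), fun T => ?_, fun θ hθ g hg he => ?_⟩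
  · exact ⟨min (1 / 2) (1 / (1 + (Real.exp T * (2 * M₁)) ^ 2)),
      lt_min (by norm_num) (by positivity), fun z hz h' h'' =>
        le_trans ((le_div_iff₀ (by positivity)).2 (hbig _ _ h' (h''.trans (min_le_right _ _))))
          (lowB z hz h' (h''.trans (min_le_left _ _)))⟩
  have hL := isCompact_lev hK hf.1 θ
  have hLc := compl_lev hK hc hf hθ
  have h0 : ∀ z ∈ lev K f θ, lam (f z) ≠ 0 := fun z hz => (hθ.trans_le hz.2).ne'
  rcases (lev K f θ).eq_empty_or_nonempty with h | hLne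
  · exact ⟨0, by simp [h]⟩
  obtain ⟨U, G, u1, u2, u3, u4⟩ := hglue (lev K f θ) g (4 * η) hL inter_subset_left
    (by positivity) fun c hcK => by
    have a1 : ∀ z ∈ lev K f θ ∩ closedBall c (δ / 2), |lam (f z) - lam (f c)| < 1 / 20 :=
      fun z hz => hu z hz.1.1 c hcK ((mem_closedBall.1 hz.2).trans_lt (half_lt_self hδ))
    have a3 := fun E => GF_piece (hL.inter_right isClosed_closedBall)
      (compl_inter_ball hL hLc c (half_pos hδ).le) hη0 (by linarith) (E := E)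
      (hg.mono inter_subset_left)
    by_cases hc' : 7 / 20 ≤ lam (f c)
    · refine a3 (fun z => p₂.eval z) (by fun_prop) (fun z _ => p₂.differentiable z)
        fun z hz => ?_
      rw [he z hz.1]
      exact g2 z hz.1.1 (by linarith [(abs_lt.1 (a1 z hz)).1])
    · have b0 : ∀ z ∈ lev K f θ ∩ closedBall c (δ / 2), lam (f z) ≤ 1 / 2 := fun z hz => by
        linarith [(abs_lt.1 (a1 z hz)).2]
      refine a3 (fun z => fv (f z) / p₁.eval z)
        ((continuousOn_fv (hf.1.mono fun z hz => hz.1.1) fun z hz => h0 z hz.1).div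
          p₁.continuous.continuousOn fun z hz => g3 z hz.1.1 (b0 z hz)) (fun z hz => ?_)
        fun z hz => ?_
      · have b1 := interior_subset hz
        exact ((hf.local (interior_mono (fun w hw => hw.1.1) hz)).elim
          (fun h => absurd h.self_of_nhds (h0 z b1.1)) fun h => h.2).div
          (p₁.differentiable z) (g3 z b1.1.1 (b0 z b1))
      · rw [he z hz.1]
        exact ⟨hne z hz.1.1 (h0 z hz.1) (b0 z hz), (g4 z hz.1.1 (h0 z hz.1) (b0 z hz)).2⟩
  obtain ⟨Q, hQ⟩ := runge hL hLne hLc u1 u2 u3 (4 * η) (by positivity)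
  refine ⟨Q, fun z hz => ?_⟩
  have v1 := norm_sub_le_norm_sub_add_norm_sub (Q.eval z) (G z) (g z)
  have v2 := hQ z hz
  have v3 := u4 z hz
  nlinarith

lemma InClass.ball (hf : InClass K f) {z : ℂ} {r : ℝ} (hr : ball z r ⊆ K) {x y : ℂ}
    (hx : x ∈ ball z r) (hy : y ∈ ball z r) (h : lam (f x) ≠ 0) : lam (f y) ≠ 0 := by
  have h1 : Metric.ball z r ⊆ interior K := interior_maximal hr isOpen_ball
  have h2 := (convex_ball z r).isPreconnected.subset_connectedComponentIn hx h1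
  rcases hf.2 x (h1 hx) with h3 | ⟨g, -, h3⟩
  · exact absurd (by rw [h3 x (h2 hx), lam_infty]) h
  · rw [h3 y (h2 hy)]; exact lam_coe_ne _

end Pool.Agent.Lib.MP_1b82cc_an
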