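import Pool.Agent.Lib.MP_1b82cc_an.GA
import Pool.Agent.Lib.MP_1b82cc_an.GD

/-!
The two cut-off steps: close to the set where the function is infinite, and in the middle zone.
-/

namespace Pool.Agent.Lib.MP_1b82cc_an

open Set Metric Filter Topology MeasureTheory Polynomial
open Pool.Agent.Lib.MP_8daebb_an.SV

lemma dbar_mul {φ : ℂ → ℝ} {H : ℂ → ℂ} {z : ℂ} (hφ : DifferentiableAt ℝ φ z)
    (hH : DifferentiableAt ℂ H z) : DifferentiableAt ℝ (fun ζ => (φ ζ : ℂ) * H ζ) z ∧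
      dbar (fun ζ => (φ ζ : ℂ) * H ζ) z = H z * dbar (fun ζ => (φ ζ : ℂ)) z ∧
      ‖dbar (fun ζ => (φ ζ : ℂ)) z‖ ≤ ‖fderiv ℝ φ z‖ := by
  have d0 : HasFDerivAt (fun ζ => (φ ζ : ℂ)) (Complex.ofRealCLM.comp (fderiv ℝ φ z)) z :=
    Complex.ofRealCLM.hasFDerivAt.comp z hφ.hasFDerivAt
  have d1 := d0.differentiableAt
  have d2 : DifferentiableAt ℝ H z := hH.restrictScalars ℝ
  refine ⟨d1.mul d2, ?_, (norm_dbar_le _ z).trans ?_⟩
  · have h0 := dbar_of_differentiableAt hH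
    rw [dbar] at h0
    rw [dbar, dbar, fderiv_fun_mul d1 d2]
    simp only [add_apply, smul_apply, smul_eq_mul]
    linear_combination (φ z : ℂ) * h0
  · rw [d0.fderiv]
    refine (ContinuousLinearMap.opNorm_comp_le _ _).trans ?_
    rw [Complex.ofRealCLM_norm, one_mul]

lemma gh_norm {φ : ℂ → ℝ} (hφ : ContDiff ℝ 2 φ) (z : ℂ) :
    ‖dbar (fun ζ => (φ ζ : ℂ)) z‖ ≤ ‖fderiv ℝ φ z‖ :=
  (dbar_mul (H := fun _ => 1) (hφ.differentiable (by norm_num) z)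
    (differentiableAt_const _)).2.2

lemma gh_zero {φ : ℂ → ℝ} (hφ : ContDiff ℝ 2 φ) {z : ℂ} (h : fderiv ℝ φ z = 0) :
    dbar (fun ζ => (φ ζ : ℂ)) z = 0 := by
  have h1 := gh_norm hφ z
  rw [h, norm_zero] at h1
  exact norm_le_zero_iff.1 h1

/-- The density of one cut-off step. -/
lemma gh_mu {Y O : Set ℂ} (hY : IsCompact Y) (hO : IsOpen O) (hYO : Y ⊆ O) {H : ℂ → ℂ} {c : ℝ}
    (hH : ∀ ζ ∈ O, AnalyticAt ℂ H ζ ∧ ‖H ζ‖ ≤ c) {φ : ℂ → ℝ} (hφ : ContDiff ℝ 2 φ) :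
    ∃ μ : ℂ → ℂ, ContDiff ℝ 1 μ ∧ HasCompactSupport μ ∧ (∀ ζ ∉ O, μ ζ = 0) ∧
      (∀ ζ ∈ O, ‖μ ζ‖ ≤ c * ‖fderiv ℝ φ ζ‖) ∧ (∀ ζ, fderiv ℝ φ ζ = 0 → μ ζ = 0) ∧
      ∀ z ∈ Y, ∀ᶠ ζ in 𝓝 z, ζ ∈ O ∧ μ ζ = H ζ * dbar (fun ζ => (φ ζ : ℂ)) ζ := by
  obtain ⟨β, hβ, hβc, hβU, hI, V, hV, hYV, hVO, hV1⟩ := exists_cutoff hY hO hYO
  have hφ' : ContDiff ℝ 2 fun ζ => (φ ζ : ℂ) := Complex.ofRealCLM.contDiff.comp hφ
  have hd := contDiff_dbar hφ'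
  have hz0 : ∀ z ∉ O, β z = 0 := fun z hz =>
    image_eq_zero_of_notMem_tsupport fun h => hz (hβU h)
  refine ⟨fun ζ => β ζ • (H ζ * dbar (fun ζ => (φ ζ : ℂ)) ζ), contDiff_iff_contDiffAt.2 fun z => ?_,
    hβc.smul_right, fun ζ hζ => by simp [hz0 ζ hζ], fun ζ hζ => ?_,
    fun ζ hζ => by simp [gh_zero hφ hζ], fun z hz => ?_⟩
  · by_cases hz : z ∈ O
    · exact (hβ.of_le (by norm_num)).contDiffAt.smul
        (((hH z hz).1.contDiffAt.restrict_scalars ℝ).mul hd.contDiffAt)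
    · have h1 : β =ᶠ[𝓝 z] 0 := notMem_tsupport_iff_eventuallyEq.1 fun h => hz (hβU h)
      refine (contDiffAt_const (c := (0 : ℂ))).congr_of_eventuallyEq ?_
      filter_upwards [h1] with ζ hζ
      simp [hζ]
  · have h1 := gh_norm hφ ζ
    have h2 := (hH ζ hζ).2
    have h3 : ‖H ζ‖ * ‖dbar (fun ζ => (φ ζ : ℂ)) ζ‖ ≤ c * ‖fderiv ℝ φ ζ‖ :=
      mul_le_mul h2 h1 (norm_nonneg _) ((norm_nonneg _).trans h2)
    rw [norm_smul, Real.norm_of_nonneg (hI ζ).1, norm_mul]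
    exact (mul_le_of_le_one_left (by positivity) (hI ζ).2).trans h3
  · filter_upwards [hV.mem_nhds (hYV hz)] with ζ hζ
    exact ⟨hVO hζ, by rw [hV1 ζ hζ, one_smul]⟩

theorem deep : ∃ A : ℝ, 0 < A ∧ ∀ (K S O : Set ℂ) (H : ℂ → ℂ) (δ τ : ℝ), IsCompact K →
    K.Nonempty → IsPreconnected Kᶜ → 0 < δ → 0 < τ → IsOpen O →
    (∀ ζ ∈ O, AnalyticAt ℂ H ζ ∧ ‖H ζ‖ ≤ τ) →
    (∀ z ∈ K, z ∈ thickening (3 * δ) S → z ∉ S → z ∈ O ∧ infDist z Kᶜ ≤ 4 * δ) →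
    ∃ (χ : ℂ → ℝ) (μ : ℂ → ℂ), Small K μ (A * τ) ∧ (∀ z, χ z ∈ Icc (0 : ℝ) 1) ∧
      (∀ z, χ z ≠ 0 → z ∈ thickening (3 * δ) S) ∧
      (∀ z ∈ S, ∀ᶠ ζ in 𝓝 z, χ ζ = 1 ∧ μ ζ = 0) ∧
      ∀ z ∈ K, (z ∈ thickening (3 * δ) S → AnalyticAt ℂ H z) → ∀ᶠ ζ in 𝓝 z,
        DifferentiableAt ℝ (fun ζ => (χ ζ : ℂ) * H ζ) ζ ∧
          dbar (fun ζ => (χ ζ : ℂ) * H ζ) ζ = μ ζ := by
  obtain ⟨C, hC, hχ⟩ := exists_chi
  obtain ⟨A, hA, hthin⟩ := small_thin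
  refine ⟨A * (4 * C), by positivity, ?_⟩
  intro K S O H δ τ hK hne hc hδ hτ hO hH hS
  obtain ⟨χ, c2, cI, c1, c0, cd⟩ := hχ S δ hδ
  have t23 : cthickening (2 * δ) S ⊆ thickening (3 * δ) S :=
    cthickening_subset_thickening' (by positivity) (by linarith) S
  have t22 : thickening (2 * δ) S ⊆ cthickening (2 * δ) S := thickening_subset_cthickening _ _
  have e1 : ∀ z ∈ thickening δ S, fderiv ℝ χ z = 0 := fun z hz => by
    have h : χ =ᶠ[𝓝 z] fun _ => 1 := by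
      filter_upwards [isOpen_thickening.mem_nhds hz] with ζ hζ using c1 ζ hζ
    rw [h.fderiv_eq, fderiv_fun_const]; rfl
  have e0' : ∀ z ∉ cthickening (2 * δ) S, χ =ᶠ[𝓝 z] fun _ => 0 := fun z hz => by
    filter_upwards [isClosed_cthickening.isOpen_compl.mem_nhds hz] with ζ hζ
      using c0 ζ fun h => hζ (t22 h)
  have e0 : ∀ z ∉ cthickening (2 * δ) S, fderiv ℝ χ z = 0 := fun z hz => by
    rw [(e0' z hz).fderiv_eq, fderiv_fun_const]; rfl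
  have hY : IsCompact ((K ∩ cthickening (2 * δ) S) \ thickening δ S) :=
    (hK.inter_right isClosed_cthickening).diff isOpen_thickening
  have hYS : ∀ z ∈ (K ∩ cthickening (2 * δ) S) \ thickening δ S,
      z ∈ O ∧ infDist z Kᶜ ≤ 4 * δ := fun z hz =>
    hS z hz.1.1 (t23 hz.1.2) fun h => hz.2 (self_subset_thickening hδ S h)
  obtain ⟨μ, m1, mc, m0, mb, mz, me⟩ := gh_mu hY hO (fun z hz => (hYS z hz).1) hH c2
  refine ⟨χ, μ, ?_, cI, fun z hz => t23 (t22 (by_contra fun h => hz (c0 z h))), fun z hz => ?_,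
    fun z hz hHz => ?_⟩
  · have h := hthin K μ (τ * (C / δ)) (4 * δ) hK hne hc m1 mc (by positivity) (by positivity)
      (fun ζ => ?_) fun ζ hζ => ?_
    · refine h.mono (le_of_eq ?_)
      field_simp
    · by_cases hζ : ζ ∈ O
      · exact (mb ζ hζ).trans (mul_le_mul_of_nonneg_left (cd ζ) hτ.le)
      · rw [m0 ζ hζ, norm_zero]; positivity
    · refine mz ζ (by_contra fun h => ?_)
      have hζK : ζ ∈ K := by_contra fun h' => by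
        rw [infDist_zero_of_mem (show ζ ∈ Kᶜ from h')] at hζ
        linarith
      exact absurd (hYS ζ ⟨⟨hζK, by_contra fun h' => h (e0 ζ h')⟩, fun h' => h (e1 ζ h')⟩).2
        (not_le.2 hζ)
  · filter_upwards [isOpen_thickening.mem_nhds (self_subset_thickening hδ S hz)] with ζ hζ
      using ⟨c1 ζ hζ, mz ζ (e1 ζ hζ)⟩
  · by_cases h2 : z ∈ cthickening (2 * δ) S
    · have ha := (hHz (t23 h2)).eventually_analyticAt
      have hb : ∀ᶠ ζ in 𝓝 z, μ ζ = H ζ * dbar (fun ζ => (χ ζ : ℂ)) ζ := by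
        by_cases h1 : z ∈ thickening δ S
        · filter_upwards [isOpen_thickening.mem_nhds h1] with ζ hζ
          rw [mz ζ (e1 ζ hζ), gh_zero c2 (e1 ζ hζ), mul_zero]
        · exact (me z ⟨⟨hz, h2⟩, h1⟩).mono fun ζ hζ => hζ.2
      filter_upwards [ha, hb] with ζ h3 h4
      have h5 := dbar_mul (c2.differentiable (by norm_num) ζ) h3.differentiableAt
      exact ⟨h5.1, h5.2.1.trans h4.symm⟩
    · filter_upwards [isClosed_cthickening.isOpen_compl.mem_nhds h2] with ζ hζ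
      have h3 : (fun ξ => (χ ξ : ℂ) * H ξ) =ᶠ[𝓝 ζ] fun _ => 0 := by
        filter_upwards [e0' ζ hζ] with ξ hξ
        simp [hξ]
      refine ⟨(differentiableAt_const _).congr_of_eventuallyEq h3, ?_⟩
      rw [mz ζ (e0 ζ hζ), dbar, h3.fderiv_eq, fderiv_fun_const]
      simp

theorem zone : ∃ A : ℝ, 0 < A ∧ ∀ (K : Set ℂ) (V : Finset ℤ) (O Y : ℤ → Set ℂ)
    (el : ℤ → ℂ → ℂ) (φ : ℤ → ℂ → ℝ) (c : ℤ → ℝ) (B : ℝ) (s : ℤ → ℕ) (S : ℕ) (δ τ : ℕ → ℝ),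
    IsCompact K → K.Nonempty → IsPreconnected Kᶜ → (∀ n, 0 < δ n) → (∀ n, 0 < τ n) →
    (∀ v, IsOpen (O v)) → (∀ v v', v ≠ v' → Disjoint (O v) (O v')) →
    (∀ v, IsCompact (Y v)) → (∀ v, Y v ⊆ O v) →
    (∀ v, ∀ ζ ∈ O v, AnalyticAt ℂ (el v) ζ ∧ ‖el v ζ‖ ≤ c v) →
    (∀ v, ContDiff ℝ 2 (φ v)) → (∀ v ζ, ‖fderiv ℝ (φ v) ζ‖ ≤ B) →
    (∀ v, s v < S) → (∀ v, c v * B * δ (s v) ≤ τ (s v)) →
    (∀ v, ∀ ζ ∈ O v, δ (s v) < infDist ζ Kᶜ → fderiv ℝ (φ v) ζ = 0) →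
    ∃ μ : ℂ → ℂ, Small K μ (A * ∑ n ∈ Finset.range S, τ n) ∧
      (∀ v ∈ V, ∀ z ∈ Y v, ∀ᶠ ζ in 𝓝 z,
        DifferentiableAt ℝ (fun ζ => (φ v ζ : ℂ) * el v ζ) ζ ∧
          dbar (fun ζ => (φ v ζ : ℂ) * el v ζ) ζ = μ ζ) ∧
      ∀ ζ, (∀ v, fderiv ℝ (φ v) ζ = 0) → μ ζ = 0 := by
  obtain ⟨A, hA, hthin⟩ := small_thin
  refine ⟨A, hA, ?_⟩
  intro K V O Y el φ c B s S δ τ hK hne hc hδ hτ hO hd hY hYO hel hφ hB hs hcB hdeep
  choose μ m1 mc m0 mb mz me using fun v => gh_mu (hY v) (hO v) (hYO v) (hel v) (hφ v)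
  have single : ∀ (W : Finset ℤ), ∀ v ∈ W, ∀ ζ ∈ O v, ∑ w ∈ W, μ w ζ = μ v ζ :=
    fun W v hv ζ hζ => Finset.sum_eq_single_of_mem v hv fun w _ hw =>
      m0 w ζ fun h => disjoint_left.1 (hd w v hw) h hζ
  have hn : ∀ n ∈ Finset.range S,
      Small K (fun ζ => ∑ v ∈ V.filter (fun v => s v = n), μ v ζ) (A * τ n) := fun n _ => by
    have hδn := hδ n
    have hτn := hτ n
    have h := hthin K (fun ζ => ∑ v ∈ V.filter (fun v => s v = n), μ v ζ) (τ n / δ n) (δ n) hK hne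
      hc (ContDiff.sum fun v _ => m1 v) ?_ (by positivity) hδn (fun ζ => ?_) fun ζ hζ => ?_
    · refine h.mono (le_of_eq ?_)
      field_simp
    · have h1 := HasCompactSupport.finset_sum (s := V.filter (fun v => s v = n)) fun v _ => mc v
      rwa [Finset.sum_fn] at h1
    · by_cases hζ : ∃ v ∈ V.filter (fun v => s v = n), ζ ∈ O v
      · obtain ⟨v, hv, hζ⟩ := hζ
        have h1 := hcB v
        rw [(Finset.mem_filter.1 hv).2] at h1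
        rw [single _ v hv ζ hζ]
        refine (mb v ζ hζ).trans ((mul_le_mul_of_nonneg_left (hB v ζ)
          ((norm_nonneg _).trans (hel v ζ hζ).2)).trans ?_)
        rwa [le_div_iff₀ hδn]
      · rw [Finset.sum_eq_zero fun v hv => m0 v ζ fun h => hζ ⟨v, hv, h⟩, norm_zero]
        positivity
    · refine Finset.sum_eq_zero fun v hv => ?_
      by_cases h1 : ζ ∈ O v
      · exact mz v ζ (hdeep v ζ h1 (by rwa [(Finset.mem_filter.1 hv).2]))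
      · exact m0 v ζ h1
  have hsum := Small.sum (Finset.range S) hn
  have he : (fun ζ => ∑ n ∈ Finset.range S, ∑ v ∈ V.filter (fun v => s v = n), μ v ζ) =
      fun ζ => ∑ v ∈ V, μ v ζ := funext fun ζ =>
    Finset.sum_fiberwise_of_maps_to (fun v _ => Finset.mem_range.2 (hs v)) _
  rw [he, ← Finset.mul_sum] at hsum
  refine ⟨_, hsum, fun v hv z hz => ?_, fun ζ hζ => Finset.sum_eq_zero fun v _ => mz v ζ (hζ v)⟩
  filter_upwards [me v z hz] with ζ hζ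
  have h5 := dbar_mul ((hφ v).differentiable (by norm_num) ζ) (hel v ζ hζ.1).1.differentiableAt
  exact ⟨h5.1, by rw [h5.2.1, single V v hv ζ hζ.1, hζ.2]⟩

end Pool.Agent.Lib.MP_1b82cc_an
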