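import Pool.Agent.Lib.MP_1b82cc_an.GB2
import Pool.Agent.Lib.MP_1b82cc_an.GC
import Pool.Agent.Lib.MP_1b82cc_an.GE
import Pool.Agent.Lib.MP_1b82cc_an.GH

/-!
Auxiliary facts for the assembly: depth, numerical constants, and the final patching step.
-/

namespace Pool.Agent.Lib.MP_1b82cc_an

open Set Metric Filter Topology MeasureTheory Polynomial Complex
open Pool.Agent.Lib.MP_8daebb_an.SV

variable {K : Set ℂ}

lemma dbar_add_hol {F G : ℂ → ℂ} {z : ℂ} (hF : DifferentiableAt ℂ F z)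
    (hG : DifferentiableAt ℝ G z) : DifferentiableAt ℝ (fun ζ => F ζ + G ζ) z ∧
      dbar (fun ζ => F ζ + G ζ) z = dbar G z := by
  have h1 := hF.restrictScalars ℝ
  refine ⟨h1.add hG, ?_⟩
  have h2 := dbar_of_differentiableAt hF
  rw [dbar] at h2
  rw [dbar, dbar, fderiv_fun_add h1 hG, ContinuousLinearMap.add_apply,
    ContinuousLinearMap.add_apply]
  linear_combination h2

lemma mem_of_depth {z : ℂ} (h : 0 < infDist z Kᶜ) : z ∈ K :=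
  by_contra fun hz => h.ne' (infDist_zero_of_mem hz)

lemma ball_depth {z : ℂ} {r : ℝ} (h : r ≤ infDist z Kᶜ) : ball z r ⊆ K :=
  (ball_subset_ball h).trans ball_infDist_compl_subset

lemma exists_depth_bound (hK : IsCompact K) : ∃ Δ : ℝ, 0 < Δ ∧ ∀ z, infDist z Kᶜ ≤ Δ := by
  obtain ⟨R, hR0, hR⟩ := hK.isBounded.subset_ball_lt 0 0
  refine ⟨2 * R, by positivity, fun z => ?_⟩
  by_cases hz : z ∈ K
  · have h1 : z + (2 * R : ℝ) ∈ Kᶜ := fun h => by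
      have h2 := mem_ball_zero_iff.1 (hR h)
      have h3 := mem_ball_zero_iff.1 (hR hz)
      have h4 := norm_sub_le (z + (2 * R : ℝ)) z
      rw [add_sub_cancel_left, Complex.norm_real, Real.norm_of_nonneg (by positivity)] at h4
      linarith
    refine (infDist_le_dist_of_mem h1).trans ?_
    rw [dist_self_add_right, Complex.norm_real, Real.norm_of_nonneg (by positivity)]
  · rw [infDist_zero_of_mem (show z ∈ Kᶜ from hz)]
    positivity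

lemma isCompact_deep {l : ℂ → ℝ} (hK : IsCompact K) {δ : ℝ} (hδ : 0 < δ)
    (hball : ∀ z r x y, ball z r ⊆ K → x ∈ ball z r → y ∈ ball z r → l x ≠ 0 → l y ≠ 0) :
    IsCompact {z ∈ K | δ ≤ infDist z Kᶜ ∧ l z ≠ 0} := by
  refine hK.of_isClosed_subset (isClosed_of_closure_subset fun z hz => ?_) fun z hz => hz.1
  have h1 : δ ≤ infDist z Kᶜ := closure_minimal (t := {z | δ ≤ infDist z Kᶜ})
    (fun y hy => hy.2.1) (isClosed_le continuous_const (continuous_infDist_pt _)) hz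
  obtain ⟨x, hx, hxz⟩ := Metric.mem_closure_iff.1 hz δ hδ
  exact ⟨mem_of_depth (hδ.trans_le h1), h1,
    hball z δ x z (ball_depth h1) (mem_ball'.2 hxz) (mem_ball_self hδ) hx.2.2⟩

lemma sum_budget {t Λ b : ℝ} (ht : 0 ≤ t) (hΛ : 0 < Λ) (hb : 0 ≤ b) (i : ℕ) :
    ∑ n ∈ Finset.range (5 * i + 1 + 2), (if n < 2 then b * t else
      b * (t / 2 ^ i + 20 * Λ * (t / (10 * Λ) / ((i : ℝ) + 1)))) ≤ 18 * (b * t) := by
  rw [Finset.sum_range_succ', Finset.sum_range_succ']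
  have h1 : ∀ n : ℕ, ¬ n + 1 + 1 < 2 := fun n => by omega
  simp only [h1, if_false, Finset.sum_const, Finset.card_range, nsmul_eq_mul]
  rw [if_pos (by norm_num), if_pos (by norm_num)]
  have h2 : (i : ℝ) < 2 ^ i := by exact_mod_cast Nat.lt_two_pow_self
  have h3 : (1 : ℝ) ≤ 2 ^ i := one_le_pow₀ (by norm_num)
  have h4 : ((5 * i + 1 : ℕ) : ℝ) * (t / 2 ^ i) ≤ 6 * t := by
    rw [← mul_div_assoc, div_le_iff₀ (by positivity)]
    push_cast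
    nlinarith [mul_nonneg ht (sub_nonneg.2 h2.le), mul_nonneg ht (sub_nonneg.2 h3)]
  have h5 : ((5 * i + 1 : ℕ) : ℝ) * (20 * Λ * (t / (10 * Λ) / ((i : ℝ) + 1))) ≤ 10 * t := by
    have : 20 * Λ * (t / (10 * Λ) / ((i : ℝ) + 1)) = 2 * t / ((i : ℝ) + 1) := by
      field_simp; ring
    rw [this, ← mul_div_assoc, div_le_iff₀ (by positivity)]
    push_cast
    nlinarith [mul_nonneg ht (Nat.cast_nonneg (α := ℝ) i)]
  nlinarith [mul_le_mul_of_nonneg_left (add_le_add h4 h5) hb]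

/-- The last step: the pieces are put together and corrected. -/
theorem assemble {lm χ : ℂ → ℝ} {H μ₁ μ₂ : ℂ → ℂ} {Q : ℂ[X]} {T κ₁ κ₂ : ℝ} {O : ℤ → Set ℂ}
    {φ : ℤ → ℂ → ℝ} {m : ℤ → ℤ} (hlm : Continuous lm) (h₁ : Small K μ₁ κ₁) (h₂ : Small K μ₂ κ₂)
    (hO : ∀ v, IsOpen (O v)) (hd : ∀ v v', v ≠ v' → Disjoint (O v) (O v'))
    (hφ1 : ∀ v z, lm z ≤ 1 / 4 → φ v z = 1) (hφ0 : ∀ v z, 3 / 4 ≤ lm z → φ v z = 0)
    (hμ₁ : ∀ ζ, lm ζ ∉ Icc (1 / 4 : ℝ) (3 / 4) → μ₁ ζ = 0)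
    (hA : ∀ z ∈ K, lm z ∈ Icc (1 / 4 : ℝ) (3 / 4) → ∃ v, z ∈ O v ∧ AnalyticAt ℂ H z ∧
      ∀ᶠ ζ in 𝓝 z, DifferentiableAt ℝ (fun ζ => (φ v ζ : ℂ) *
          (Q.eval ζ - T - 2 * Real.pi * I * m v - H ζ)) ζ ∧
        dbar (fun ζ => (φ v ζ : ℂ) * (Q.eval ζ - T - 2 * Real.pi * I * m v - H ζ)) ζ = μ₁ ζ)
    (hS : ∀ z ∈ K, lm z ≤ 3 / 4 → ∀ᶠ ζ in 𝓝 z, χ ζ = 1 ∧ μ₂ ζ = 0)
    (hC : ∀ z ∈ K, 3 / 4 < lm z → ∀ᶠ ζ in 𝓝 z,
      DifferentiableAt ℝ (fun ζ => (χ ζ : ℂ) * H ζ) ζ ∧ dbar (fun ζ => (χ ζ : ℂ) * H ζ) ζ = μ₂ ζ) :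
    ∃ (U : Set ℂ) (G : ℂ → ℂ), IsOpen U ∧ K ⊆ U ∧ DifferentiableOn ℂ G U ∧
      ∀ z ∈ K, ∃ (u : ℂ) (v : ℤ), ‖u‖ ≤ κ₁ + κ₂ ∧ G z = exp (T + χ z * H z +
        φ v z * (Q.eval z - T - 2 * Real.pi * I * m v - χ z * H z)) * exp u := by
  classical
  let vv : ℂ → ℤ := fun ζ => if h : ∃ v, ζ ∈ O v then h.choose else 0
  have hvv : ∀ v, ∀ ζ ∈ O v, vv ζ = v := fun v ζ hζ => by
    have h : ∃ v, ζ ∈ O v := ⟨v, hζ⟩
    simp only [vv, dif_pos h]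
    exact by_contra fun hne => disjoint_left.1 (hd _ _ hne) h.choose_spec hζ
  obtain ⟨U, G, u1, u2, u3, u4⟩ := patch (E := fun ζ => exp (T + χ ζ * H ζ +
    φ (vv ζ) ζ * (Q.eval ζ - T - 2 * Real.pi * I * m (vv ζ) - χ ζ * H ζ))) (h₁.add h₂)
    fun z hz => by
      by_cases c1 : lm z < 1 / 4
      · refine ⟨fun ζ => Q.eval ζ, ?_⟩
        filter_upwards [hS z hz (by linarith),
          hlm.continuousAt.eventually_lt continuousAt_const c1] with ζ a1 a2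
        refine ⟨(Q.differentiable ζ).restrictScalars ℝ, ?_, ?_⟩
        · rw [dbar_of_differentiableAt (Q.differentiable ζ), a1.2,
            hμ₁ ζ fun h => absurd h.1 (not_le.2 a2), add_zero]
        · rw [hφ1 _ ζ a2.le, exp_eq_exp_iff_exists_int]
          exact ⟨-m (vv ζ), by push_cast; ring⟩
      by_cases c2 : 3 / 4 < lm z
      · refine ⟨fun ζ => T + (χ ζ : ℂ) * H ζ, ?_⟩
        filter_upwards [hC z hz c2,
          continuousAt_const.eventually_lt hlm.continuousAt c2] with ζ a1 a2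
        have a3 := dbar_add_hol (differentiableAt_const (T : ℂ)) a1.1
        refine ⟨a3.1, ?_, ?_⟩
        · rw [a3.2, a1.2, hμ₁ ζ fun h => absurd h.2 (not_le.2 a2), zero_add]
        · rw [hφ0 _ ζ a2.le]; simp
      · obtain ⟨v, b1, b2, b3⟩ := hA z hz ⟨not_lt.1 c1, not_lt.1 c2⟩
        refine ⟨fun ζ => (T + H ζ) + (φ v ζ : ℂ) *
          (Q.eval ζ - T - 2 * Real.pi * I * m v - H ζ), ?_⟩
        filter_upwards [hS z hz (not_lt.1 c2), b3, b2.eventually_analyticAt,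
          (hO v).mem_nhds b1] with ζ a1 a2 a3 a4
        have a5 := dbar_add_hol (a3.differentiableAt.const_add (T : ℂ)) a2.1
        refine ⟨a5.1, ?_, ?_⟩
        · rw [a5.2, a2.2, a1.2, add_zero]
        · rw [hvv v ζ a4, a1.1]; simp
  refine ⟨U, G, u1, u2, u3, fun z hz => ?_⟩
  obtain ⟨u, a1, a2⟩ := u4 z hz
  exact ⟨u, vv z, a1, a2⟩

end Pool.Agent.Lib.MP_1b82cc_an
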