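import Pool.Agent.Lib.MP_1b82cc_an.GG1

/-!
A holomorphic function without zeros that is close to `Γ` on a level set and large elsewhere.
-/

namespace Pool.Agent.Lib.MP_1b82cc_an

open Set Metric Filter Topology MeasureTheory Polynomial Complex
open Pool.Agent.Lib.MP_8daebb_an.SV

theorem core {K : Set ℂ} {l : ℂ → ℝ} {Γ : ℂ → ℂ} {κ T θ₁ : ℝ} (hK : IsCompact K)
    (hne : K.Nonempty) (hc : IsPreconnected Kᶜ) (hl : ContinuousOn l K) (hl0 : ∀ z, 0 ≤ l z)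
    (hκ : 0 < κ) (hκ1 : κ ≤ 1 / 2) (hθ₁ : 0 < θ₁)
    (hball : ∀ z r x y, ball z r ⊆ K → x ∈ ball z r → y ∈ ball z r → l x ≠ 0 → l y ≠ 0)
    (hlog : ∀ θ > 0, HasLog (K ∩ l ⁻¹' Ici θ) Γ)
    (hgr : ∀ T : ℝ, ∃ θ > 0, ∀ z ∈ K, l z ≠ 0 → l z ≤ θ → Real.exp T ≤ ‖Γ z‖)
    (hT : ∀ z ∈ K, l z ≠ 0 → l z ≤ θ₁ → Real.exp (T + 2) ≤ ‖Γ z‖)
    (hQ : ∀ θ > 0, ∀ g : ℂ → ℂ, ContinuousOn g (K ∩ l ⁻¹' Ici θ) →
      (∀ z ∈ K ∩ l ⁻¹' Ici θ, exp (g z) = Γ z) →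
      ∃ Q : ℂ[X], ∀ z ∈ K ∩ l ⁻¹' Ici θ, ‖Q.eval z - g z‖ ≤ κ) :
    ∃ (U : Set ℂ) (G : ℂ → ℂ), IsOpen U ∧ K ⊆ U ∧ DifferentiableOn ℂ G U ∧
      (∀ z ∈ K, θ₁ ≤ l z → ∃ u : ℂ, ‖u‖ ≤ 3 * κ ∧ G z = Γ z * exp u) ∧
      ∀ z ∈ K, l z < θ₁ → Real.exp (T - 1) ≤ ‖G z‖ := by
  classical
  obtain ⟨g, g1, g2, g3⟩ := exists_canon hK hl hlog
  have hlev : ∀ θ, IsCompact (K ∩ l ⁻¹' Ici θ) := fun θ => hK.of_isClosed_subset
    (hl.preimage_isClosed_of_isClosed hK.isClosed isClosed_Ici) inter_subset_left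
  have gat : ∀ z, 0 < infDist z Kᶜ → l z ≠ 0 → ContinuousAt g z := fun z h0 hz => by
    have h1 := closedBall_subset_ball (x := z) (half_lt_self h0)
    exact (g2 _ (isCompact_closedBall z _) (convex_closedBall z _).isPreconnected fun y hy =>
      ⟨ball_depth le_rfl (h1 hy), (hl0 y).lt_of_ne' (hball z _ z y (ball_depth le_rfl)
        (mem_ball_self h0) (h1 hy) hz)⟩).continuousAt (closedBall_mem_nhds z (half_pos h0))
  obtain ⟨lm, Λ, m1, m2, m3, m4, m5, m6⟩ := exists_level (hlev θ₁) (hK.of_isClosed_subset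
    (hl.preimage_isClosed_of_isClosed hK.isClosed (isClosed_Iic (a := θ₁ / 2))) inter_subset_left)
    (disjoint_left.2 fun z h1 h2 => by
      have a1 : θ₁ ≤ l z := h1.2
      have a2 : l z ≤ θ₁ / 2 := h2.2
      linarith)
  have n0 : ∀ z ∈ K, 0 < lm z → l z < θ₁ := fun z hz h =>
    not_le.1 fun h' => h.ne' (m5 z ⟨hz, h'⟩)
  have n1 : ∀ z ∈ K, lm z < 1 → θ₁ / 2 < l z := fun z hz h =>
    not_le.1 fun h' => h.ne (m6 z ⟨hz, h'⟩)
  obtain ⟨h₀, h01, h02⟩ := hlog (θ₁ / 2) (half_pos hθ₁)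
  obtain ⟨h, hh⟩ := ContinuousMap.exists_restrict_eq (hlev (θ₁ / 2)).isClosed
    (⟨(K ∩ l ⁻¹' Ici (θ₁ / 2)).domRestrict h₀, h01.domRestrict⟩ : C(_, ℂ))
  have h2 : ∀ z ∈ K, lm z < 1 → exp (h z) = Γ z := fun z hz h' => by
    have a1 : z ∈ K ∩ l ⁻¹' Ici (θ₁ / 2) := ⟨hz, (n1 z hz h').le⟩
    rw [← h02 z a1]
    simpa using congrArg (fun g : C(_, ℂ) => exp (g ⟨z, a1⟩)) hh
  obtain ⟨M, hM⟩ := hK.exists_bound_of_continuousOn h.continuous.continuousOn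
  set M' := |M| + 2 + |T| with hM'
  have hM'1 : 1 ≤ M' := by linarith [abs_nonneg M, abs_nonneg T]
  obtain ⟨C₁, hC₁, hpsi⟩ := exists_psi hM'1
  obtain ⟨C₂, hC₂, hcut⟩ := exists_cut
  obtain ⟨A₁, hA₁, hzone⟩ := zone
  obtain ⟨A₂, hA₂, hdeep⟩ := deep
  obtain ⟨Δ, hΔ, hΔ'⟩ := exists_depth_bound hK
  have hΛ : 0 < Λ := by linarith
  have hC₁0 : 0 < C₁ := by linarith
  obtain ⟨δ₀, hδ₀, e1, e2⟩ : ∃ δ₀ > 0, Λ * δ₀ ≤ 1 / 8 ∧
      A₁ * (18 * (C₁ * (C₂ * Λ) * δ₀)) ≤ κ := by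
    refine ⟨min (1 / 8 / Λ) (κ / (A₁ * (18 * (C₁ * (C₂ * Λ))))), by positivity, ?_, ?_⟩
    · rw [mul_comm, ← le_div_iff₀ hΛ]; exact min_le_left _ _
    · have := (le_div_iff₀ (by positivity)).1
        (min_le_right (1 / 8 / Λ) (κ / (A₁ * (18 * (C₁ * (C₂ * Λ))))))
      linarith
  have hAc : IsCompact (K ∩ lm ⁻¹' Icc (1 / 4) (3 / 4)) :=
    hK.inter_right (isClosed_Icc.preimage m1.continuous)
  have hA0 : ∀ z ∈ K, lm z < 1 → l z ≠ 0 := fun z hz h' => ne_of_gt (by linarith [n1 z hz h'])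
  obtain ⟨V₀, hV₀⟩ := (hAc.inter_right (isClosed_le (continuous_const (y := δ₀))
    (continuous_infDist_pt Kᶜ))).exists_bound_of_continuousOn (f := fun z => g z - h z)
    fun z hz => ((gat z (hδ₀.trans_le hz.2) (hA0 z hz.1.1 (by linarith [hz.1.2.2]))).sub
      h.continuous.continuousAt).continuousWithinAt
  have hinj : ∀ v v' : ℤ, ‖(2 * Real.pi * I * v : ℂ) - 2 * Real.pi * I * v'‖ < 2 → v = v' := by
    intro v v' hv
    by_contra hne'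
    have a1 : (1 : ℝ) ≤ |((v - v' : ℤ) : ℝ)| := by
      exact_mod_cast Int.one_le_abs (sub_ne_zero.2 hne')
    rw [← mul_sub, ← Int.cast_sub, norm_mul, Complex.norm_intCast, norm_mul, norm_mul,
      Complex.norm_I, Complex.norm_real, Complex.norm_ofNat,
      Real.norm_of_nonneg Real.pi_pos.le] at hv
    nlinarith [Real.pi_gt_three]
  obtain ⟨a, Vv, a1, a2, a3⟩ := sum_area hK
    (Ω := fun v => interior {z ∈ K | g z - h z = 2 * Real.pi * I * v}) (fun _ => isOpen_interior)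
    (fun _ z hz => (interior_subset hz).1) fun v v' hv => disjoint_left.2 fun z b1 b2 =>
      hv (hinj v v' (by
        rw [← (interior_subset b1).2, ← (interior_subset b2).2, sub_self, norm_zero]; norm_num))
  set ρ := M' + |V₀| with hρ
  have hρ0 : 0 < ρ := by linarith [abs_nonneg V₀]
  obtain ⟨i, hi, hw⟩ := exists_window a a1 a3 (τ := δ₀ / (10 * Λ)) (by positivity)
    ⌈max ρ (ρ ^ 3 * Δ / (C₁ * δ₀))⌉₊
  have hR1 : (1 : ℝ) ≤ ((4 ^ i : ℕ) : ℝ) := by exact_mod_cast Nat.one_le_pow _ _ (by norm_num)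
  have hR : max ρ (ρ ^ 3 * Δ / (C₁ * δ₀)) ≤ ((4 ^ i : ℕ) : ℝ) :=
    (Nat.le_ceil _).trans (by exact_mod_cast hi.trans (Nat.lt_pow_self (by norm_num)).le)
  obtain ⟨Ψ, p1, p2, p3⟩ := hpsi (4 ^ i) _ a (Nat.one_le_pow _ _ (by norm_num)) (by positivity)
    a1 hw
  set R : ℝ := ((4 ^ i : ℕ) : ℝ) with hRdef
  set δ₁ := δ₀ / 2 ^ (5 * i) with hδ₁
  have hδ₁0 : 0 < δ₁ := by positivity
  have hδ₁1 : δ₁ * 2 ^ (5 * i) = δ₀ := div_mul_cancel₀ _ (by positivity)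
  have hδ₁2 : δ₁ ≤ δ₀ := div_le_self hδ₀.le (one_le_pow₀ (by norm_num))
  have hδ₁3 : R ^ 2 * δ₁ = δ₀ / 2 ^ i := by
    have b1 : (2 : ℝ) ^ (5 * i) = (4 ^ i) ^ 2 * 2 ^ i := by
      rw [show (4 : ℝ) = 2 ^ 2 by norm_num, ← pow_mul, ← pow_mul, ← pow_add]
      congr 1; ring
    rw [hδ₁, hRdef, b1]
    push_cast
    field_simp
  set x₃ := 400 * R ^ 2 / (κ / A₂) with hx₃
  have hx₃0 : 0 < x₃ := by positivity
  obtain ⟨θ', hθ', hθ''⟩ := hgr (T + x₃ + 1)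
  set θ₃ := min θ' (θ₁ / 2) with hθ₃
  have hθ₃0 : 0 < θ₃ := lt_min hθ' (half_pos hθ₁)
  obtain ⟨δu, hδu, hu⟩ := Metric.uniformContinuousOn_iff.1
    (hK.uniformContinuousOn_of_continuous hl) (θ₃ / 2) (half_pos hθ₃0)
  set δ₂ := min δ₁ (δu / 3) with hδ₂
  have hδ₂0 : 0 < δ₂ := lt_min hδ₁0 (by positivity)
  have hD := isCompact_deep hK hδ₂0 hball
  obtain ⟨θ₄, hθ₄, hθ₄'⟩ := hD.exists_forall_le' (hl.mono fun z hz => hz.1) (a := 0)
    fun z hz => (hl0 z).lt_of_ne' hz.2.2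
  set θ := min θ₄ (θ₃ / 2) with hθ
  have hθ0 : 0 < θ := lt_min hθ₄ (half_pos hθ₃0)
  have hθ1 : θ ≤ θ₃ / 2 := min_le_right _ _
  have hθ2 : θ₃ ≤ θ₁ / 2 := min_le_right _ _
  obtain ⟨g', q1, q2, q3⟩ := g3 θ hθ0 _ hD
    (fun z hz => ⟨hz.1, (min_le_left _ _).trans (hθ₄' z hz)⟩)
    fun z hz => (gat z (hδ₂0.trans_le hz.2.1) hz.2.2).continuousWithinAt
  obtain ⟨Q, hQ'⟩ := hQ θ hθ0 g' q1 q2
  have hX : ∀ z ∈ K, lm z < 1 → z ∈ K ∩ l ⁻¹' Ici θ := fun z hz h' =>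
    ⟨hz, show θ ≤ l z by linarith [n1 z hz h']⟩
  have hre : ∀ z ∈ K ∩ l ⁻¹' Ici θ, ∀ t, Real.exp t ≤ ‖Γ z‖ →
      t - T - 1 / 2 ≤ (Q.eval z - T).re := fun z hz t ht => by
    rw [← q2 z hz, Complex.norm_exp, Real.exp_le_exp] at ht
    have b1 := (abs_le.1 ((Complex.abs_re_le_norm _).trans (hQ' z hz))).1
    rw [Complex.sub_re] at b1
    rw [Complex.sub_re, Complex.ofReal_re]
    linarith
  have hre1 : ∀ z ∈ K ∩ l ⁻¹' Ici θ, l z < θ₁ → 1 ≤ (Q.eval z - T).re := fun z hz h' => by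
    linarith [hre z hz _ (hT z hz.1 (hθ0.trans_le hz.2).ne' h'.le)]
  have hwc : Continuous fun ζ : ℂ => Q.eval ζ - T := Q.continuous.sub continuous_const
  have hH : ∀ ζ : ℂ, 0 < (Q.eval ζ - T).re → AnalyticAt ℂ (fun ζ => Ψ (Q.eval ζ - T)) ζ :=
    fun ζ h' => (p1 _ h').1.fun_comp (f := fun ζ => Q.eval ζ - T)
      ((Q.differentiable.analyticAt ζ).sub analyticAt_const)
  have hthick : ∀ z ∈ K, z ∈ thickening (3 * δ₂)
      {z ∈ K | θ₃ ≤ l z ∨ (4 * δ₂ ≤ infDist z Kᶜ ∧ l z ≠ 0)} → z ∈ K ∩ l ⁻¹' Ici θ := by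
    intro z hz h'
    obtain ⟨y, ⟨hy, hy'⟩, hzy⟩ := mem_thickening_iff.1 h'
    refine ⟨hz, ?_⟩
    rcases hy' with hy' | hy'
    · have b1 := hu z hz y hy (by linarith [min_le_right δ₁ (δu / 3)])
      rw [Real.dist_eq] at b1
      show θ ≤ l z
      linarith [(abs_lt.1 b1).1]
    · have b1 := infDist_le_infDist_add_dist (x := y) (y := z) (s := Kᶜ)
      rw [dist_comm] at b1
      exact (min_le_left _ _).trans (hθ₄' z ⟨hz, by linarith [hy'.1], hball y _ y z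
        (ball_depth hy'.1) (mem_ball_self (by positivity)) (mem_ball.2 (by linarith)) hy'.2⟩)
  obtain ⟨χ, μ₂, d1, d2, d3, d4, d5⟩ := hdeep K _ {ζ | x₃ < (Q.eval ζ - T).re}
    (fun ζ => Ψ (Q.eval ζ - T)) δ₂ (κ / A₂) hK hne hc hδ₂0 (by positivity)
    (isOpen_lt continuous_const (continuous_re.comp hwc))
    (fun ζ hζ => ⟨hH ζ (hx₃0.trans hζ), (p1 _ (hx₃0.trans hζ)).2.2.trans (by
      have b1 : 400 * R ^ 2 / (κ / A₂) < (Q.eval ζ - T).re := hζ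
      rw [div_lt_iff₀ (by positivity)] at b1
      rw [div_le_iff₀ (hx₃0.trans hζ)]
      linarith)⟩)
    fun z hz b1 b2 => by
      have b3 := hthick z hz b1
      have b4 : l z ≠ 0 := (hθ0.trans_le b3.2).ne'
      have b5 : l z < θ₃ := not_le.1 fun h' => b2 ⟨hz, Or.inl h'⟩
      refine ⟨?_, (not_le.1 fun h' => b2 ⟨hz, Or.inr ⟨h', b4⟩⟩).le⟩
      show x₃ < _
      linarith [hre z b3 _ (hθ'' z hz b4 (b5.le.trans (min_le_left _ _)))]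
  let O : ℤ → Set ℂ := fun v => {ζ | ‖Q.eval ζ - h ζ - 2 * Real.pi * I * v‖ < 1} ∩
    ({ζ | ‖h ζ‖ < |M| + 1} ∩ {ζ | 1 / 2 < (Q.eval ζ - T).re})
  let Y : ℤ → Set ℂ := fun v => (K ∩ lm ⁻¹' Icc (1 / 4) (3 / 4)) ∩
    (fun z => g' z - h z) ⁻¹' {2 * Real.pi * I * v}
  have hOo : ∀ v, IsOpen (O v) := fun v =>
    (isOpen_lt ((Q.continuous.sub h.continuous).sub continuous_const).norm continuous_const).inter
      ((isOpen_lt h.continuous.norm continuous_const).inter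
        (isOpen_lt continuous_const (continuous_re.comp hwc)))
  have hOd : ∀ v v', v ≠ v' → Disjoint (O v) (O v') := fun v v' hv =>
    disjoint_left.2 fun z b1 b2 => hv (hinj v v' (by
      have b3 := norm_sub_le (Q.eval z - h z - 2 * Real.pi * I * v')
        (Q.eval z - h z - 2 * Real.pi * I * v)
      rw [sub_sub_sub_cancel_left] at b3
      have b4 : ‖_‖ < 1 := b1.1
      have b5 : ‖_‖ < 1 := b2.1
      linarith))
  have hAX : K ∩ lm ⁻¹' Icc (1 / 4) (3 / 4) ⊆ K ∩ l ⁻¹' Ici θ := fun z hz =>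
    hX z hz.1 (by linarith [hz.2.2])
  have hgA : ContinuousOn (fun z => g' z - h z) (K ∩ lm ⁻¹' Icc (1 / 4) (3 / 4)) :=
    (q1.mono hAX).sub h.continuous.continuousOn
  have hYc : ∀ v, IsCompact (Y v) := fun v => hAc.of_isClosed_subset
    (hgA.preimage_isClosed_of_isClosed hAc.isClosed isClosed_singleton) inter_subset_left
  have hYO : ∀ v, Y v ⊆ O v := fun v z hz => by
    have b1 : g' z - h z = 2 * Real.pi * I * v := hz.2
    refine ⟨?_, ?_, ?_⟩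
    · show ‖_‖ < 1
      rw [← b1, sub_sub_sub_cancel_right]
      linarith [hQ' z (hAX hz.1)]
    · show ‖_‖ < _
      linarith [hM z hz.1.1, le_abs_self M]
    · show (1 / 2 : ℝ) < _
      linarith [hre1 z (hAX hz.1) (n0 z hz.1.1 (by linarith [hz.1.2.1]))]
  obtain ⟨N, hN⟩ := hAc.exists_bound_of_continuousOn hgA
  have hAY : ∀ z ∈ K ∩ lm ⁻¹' Icc (1 / 4) (3 / 4),
      ∃ v ∈ Finset.Icc (-⌈N⌉) ⌈N⌉, z ∈ Y v := fun z hz => by
    obtain ⟨v, hv⟩ := exp_eq_exp_iff_exists_int.1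
      ((q2 z (hAX hz)).trans (h2 z hz.1 (by linarith [hz.2.2])).symm)
    have b1 : g' z - h z = 2 * Real.pi * I * v := by rw [hv]; ring
    refine ⟨v, Finset.mem_Icc.2 (abs_le.1 ?_), hz, b1⟩
    have b2 := hN z hz
    rw [b1, norm_mul, Complex.norm_intCast, norm_mul, norm_mul, Complex.norm_I, Complex.norm_real,
      Complex.norm_ofNat, Real.norm_of_nonneg Real.pi_pos.le] at b2
    have b3 : |(v : ℝ)| ≤ ⌈N⌉ := by
      nlinarith [Real.pi_gt_three, abs_nonneg (v : ℝ), Int.le_ceil N]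
    exact_mod_cast b3
  have hOY : ∀ v, ∀ ζ ∈ O v, ζ ∈ K ∩ lm ⁻¹' Icc (1 / 4) (3 / 4) → ζ ∈ Y v := fun v ζ b1 b2 => by
    obtain ⟨v', -, b3⟩ := hAY ζ b2
    by_cases hv : v = v'
    · exact hv ▸ b3
    · exact absurd (hYO v' b3) (disjoint_left.1 (hOd v v' hv) b1)
  have hYg : ∀ v, ∀ ζ ∈ Y v, δ₁ ≤ infDist ζ Kᶜ → g ζ - h ζ = 2 * Real.pi * I * v :=
    fun v ζ b1 b2 => by
      rw [← q3 ζ ⟨b1.1.1, (min_le_left _ _).trans b2, hA0 ζ b1.1.1 (by linarith [b1.1.2.2])⟩]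
      exact b1.2
  have hOw : ∀ v, ∀ ζ ∈ O v, ‖Q.eval ζ - T - 2 * Real.pi * I * v‖ ≤ M' := fun v ζ b => by
    have b1 : ‖_‖ < 1 := b.1
    have b2 : ‖_‖ < _ := b.2.1
    have b3 := norm_sub_le (Q.eval ζ - h ζ - 2 * Real.pi * I * v + h ζ) (T : ℂ)
    have b4 := norm_add_le (Q.eval ζ - h ζ - 2 * Real.pi * I * v) (h ζ)
    rw [Complex.norm_real, Real.norm_eq_abs, show Q.eval ζ - h ζ - 2 * Real.pi * I * v + h ζ - T =
      Q.eval ζ - T - 2 * Real.pi * I * v by ring] at b3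
    linarith
  let δ : ℕ → ℝ := fun n => if n = 0 then Δ else if n = 1 then δ₀ else δ₁ * 2 ^ (n - 2)
  let τ : ℕ → ℝ := fun n => if n < 2 then C₁ * (C₂ * Λ) * δ₀ else
    C₁ * (C₂ * Λ) * (δ₀ / 2 ^ i + 20 * Λ * (δ₀ / (10 * Λ) / ((i : ℝ) + 1)))
  have hB : 0 < C₂ * Λ := by positivity
  have hdata : ∀ v : ℤ, ∃ (m : ℤ) (c : ℝ) (s : ℕ) (φ : ℂ → ℝ),
      (∀ ζ ∈ O v, ‖Q.eval ζ - T - 2 * Real.pi * I * m - Ψ (Q.eval ζ - T)‖ ≤ c) ∧
      s < 5 * i + 1 + 2 ∧ c * (C₂ * Λ) * δ s ≤ τ s ∧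
      (∀ ζ ∈ O v, δ s < infDist ζ Kᶜ → fderiv ℝ φ ζ = 0) ∧ ContDiff ℝ 2 φ ∧
      (∀ z, φ z ∈ Icc (0 : ℝ) 1) ∧ (∀ z, lm z ≤ 1 / 4 → φ z = 1) ∧
      (∀ z, 3 / 4 ≤ lm z → φ z = 0) ∧ (∀ z, ‖fderiv ℝ φ z‖ ≤ C₂ * Λ) ∧
      ∀ z, fderiv ℝ φ z ≠ 0 → lm z ∈ Icc (1 / 4 : ℝ) (3 / 4) := fun v => by
    obtain ⟨φ, f1, f2, f3, f4, f5, -, f7⟩ := hcut lm Λ δ₀ 0 ∅ ∅ m1 m2 m3 hδ₀ e1 le_rfl (by simp)
      (by linarith) (by simp)
    obtain ⟨m, c, c0, c1, c2, c3, c4⟩ := p3 v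
    have c5 : ∀ ζ ∈ O v, ‖Q.eval ζ - T - 2 * Real.pi * I * m - Ψ (Q.eval ζ - T)‖ ≤ c :=
      fun ζ b => c1 _ (le_of_lt b.2.2) (hOw v ζ b)
    by_cases k1 : ‖(2 * Real.pi * I * v : ℂ)‖ ≤ V₀
    · refine ⟨0, ρ ^ 3 / R ^ 2, 0, φ, fun ζ b => ?_, by omega, ?_,
        fun ζ _ b => absurd (hΔ' ζ) (not_le.2 b), f1, f2, f3, f4, f5, f7⟩
      · have b1 := norm_add_le (Q.eval ζ - T - 2 * Real.pi * I * v) (2 * Real.pi * I * v)
        rw [sub_add_cancel] at b1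
        have b2 : ‖Q.eval ζ - T‖ ≤ ρ := by linarith [hOw v ζ b, le_abs_self V₀]
        rw [Int.cast_zero, mul_zero, sub_zero]
        refine (p2 _ (b2.trans ((le_max_left _ _).trans hR))).trans ?_
        gcongr
      · show ρ ^ 3 / R ^ 2 * (C₂ * Λ) * Δ ≤ C₁ * (C₂ * Λ) * δ₀
        have b1 := (div_le_iff₀ (by positivity)).1 ((le_max_right _ _).trans hR)
        have b2 : ρ ^ 3 / R ^ 2 * Δ ≤ C₁ * δ₀ := by
          rw [div_mul_eq_mul_div, div_le_iff₀ (by positivity)]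
          nlinarith [mul_pos hC₁0 hδ₀, mul_le_mul_of_nonneg_left hR1 (zero_le_one.trans hR1)]
        nlinarith
    by_cases k2 : v ∈ win (4 ^ i)
    · have b0 : a v ≤ δ₀ / (10 * Λ) / ((i : ℝ) + 1) :=
        (Finset.single_le_sum (fun v _ => a1 v) k2).trans hw
      have b1 : 10 * Λ * a v ≤ δ₁ * 2 ^ (5 * i) := by
        rw [hδ₁1, mul_comm, ← le_div_iff₀ (by positivity)]
        exact b0.trans (div_le_self (by positivity) (by linarith [Nat.cast_nonneg (α := ℝ) i]))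
      obtain ⟨s, s1, s2, s3⟩ := exists_scale hδ₁0 _ b1
      have s4 : δ₁ * 2 ^ s ≤ δ₀ := by
        rw [← hδ₁1]; gcongr; norm_num
      have s5 : δ₁ ≤ δ₁ * 2 ^ s := le_mul_of_one_le_right hδ₁0.le (one_le_pow₀ (by norm_num))
      have s6 : δ (s + 2) = δ₁ * 2 ^ s := by simp [δ]
      obtain ⟨φ, f1, f2, f3, f4, f5, f6, f7⟩ := hcut lm Λ (δ₁ * 2 ^ s) (a v) _
        {ζ ∈ Y v | δ₁ * 2 ^ s < infDist ζ Kᶜ} m1 m2 m3 (by positivity) (by nlinarith) (a1 v)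
        (a2 v) s2 fun ζ hζ => interior_maximal (fun y hy => by
          have t1 := ball_depth hζ.2.le
          have t2 : ∀ y ∈ ball ζ (δ₁ * 2 ^ s), lm y < 1 := fun y hy => by
            have := (abs_le.1 (m4 y ζ)).2
            nlinarith [hζ.1.1.2.2, mem_ball.1 hy]
          have t3 := log_const (convex_ball ζ (δ₁ * 2 ^ s)).isPreconnected (g := g) (h := h)
            (fun y hy => (gat y (by
              have := infDist_le_infDist_add_dist (x := ζ) (y := y) (s := Kᶜ)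
              linarith [hζ.2, mem_ball'.1 hy]) (hA0 y (t1 hy) (t2 y hy))).continuousWithinAt)
            h.continuous.continuousOn (fun y hy => (g1 y (t1 hy)
              ((hl0 y).lt_of_ne' (hA0 y (t1 hy) (t2 y hy)))).trans (h2 y (t1 hy) (t2 y hy)).symm)
            y hy ζ (mem_ball_self (by positivity))
          exact ⟨t1 hy, t3.trans (hYg v ζ hζ.1 (s5.trans hζ.2.le))⟩) isOpen_ball
      refine ⟨m, c, s + 2, φ, c5, by omega, ?_, fun ζ b b' => by_contra fun b'' => ?_,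
        f1, f2, f3, f4, f5, f7⟩
      · rw [s6]
        show _ ≤ if s + 2 < 2 then _ else _
        rw [if_neg (by omega), ← hδ₁3]
        rw [abs_of_nonneg (by have := a1 v; positivity)] at s3
        have t1 := mul_le_mul_of_nonneg_left s3 c0
        have t2 := mul_le_mul_of_nonneg_right c2 hδ₁0.le
        have t3 := mul_le_mul_of_nonneg_left (c4 k2) hΛ.le
        have t4 : c * (δ₁ * 2 ^ s) ≤
            C₁ * (R ^ 2 * δ₁ + 20 * Λ * (δ₀ / (10 * Λ) / ((i : ℝ) + 1))) := by nlinarith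
        nlinarith [mul_le_mul_of_nonneg_left t4 hB.le]
      · rw [s6] at b'
        exact b'' (f6 ζ ⟨hOY v ζ b ⟨mem_of_depth (lt_trans (by positivity) b'), f7 ζ b''⟩, b'⟩)
    · refine ⟨m, c, 1, φ, c5, by omega, ?_, fun ζ b b' => by_contra fun b'' => k1 ?_,
        f1, f2, f3, f4, f5, f7⟩
      · show c * (C₂ * Λ) * δ₀ ≤ C₁ * (C₂ * Λ) * δ₀
        gcongr
        exact c3 k2
      · have b1 : δ₀ < infDist ζ Kᶜ := b'
        have b2 := hOY v ζ b ⟨mem_of_depth (hδ₀.trans b1), f7 ζ b''⟩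
        rw [← hYg v ζ b2 (hδ₁2.trans b1.le)]
        exact hV₀ ζ ⟨b2.1, b1.le⟩
  choose m c s φ r1 r2 r3 r4 r5 r6 r7 r8 r9 r10 using hdata
  obtain ⟨μ₁, z1, z2, z3⟩ := hzone K (Finset.Icc (-⌈N⌉) ⌈N⌉) O Y
    (fun v ζ => Q.eval ζ - T - 2 * Real.pi * I * m v - Ψ (Q.eval ζ - T)) φ c (C₂ * Λ) s
    (5 * i + 1 + 2) δ τ hK hne hc (fun n => by simp only [δ]; split_ifs <;> positivity)
    (fun n => by simp only [τ]; split_ifs <;> positivity) hOo hOd hYc hYO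
    (fun v ζ b => ⟨(((Q.differentiable.analyticAt ζ).sub analyticAt_const).sub
      analyticAt_const).sub (hH ζ (lt_trans (by norm_num) b.2.2)), r1 v ζ b⟩) r5 r9 r2 r3 r4
  obtain ⟨U, G, u1, u2, u3, u4⟩ := assemble (Q := Q) (T := T) (m := m) m1.continuous
    (z1.mono ((mul_le_mul_of_nonneg_left (sum_budget hδ₀.le hΛ (by positivity) i) hA₁.le).trans
      e2)) (d1.mono (mul_div_cancel₀ κ hA₂.ne').le) hOo hOd r7 r8
    (fun ζ b => z3 ζ fun v => by_contra fun b' => b (r10 v ζ b'))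
    (fun z hz b => by
      obtain ⟨v, b1, b2⟩ := hAY z ⟨hz, b⟩
      exact ⟨v, hYO v b2, hH z (lt_trans (by norm_num) (hYO v b2).2.2), z2 v b1 z b2⟩)
    (fun z hz b => d4 z ⟨hz, Or.inl (by linarith [n1 z hz (by linarith)])⟩)
    fun z hz b => d5 z hz fun b' =>
      hH z (one_pos.trans_le (hre1 z (hthick z hz b') (n0 z hz (by linarith))))
  refine ⟨U, G, u1, u2, u3, fun z hz b => ?_, fun z hz b => ?_⟩
  · obtain ⟨u, v, b1, b2⟩ := u4 z hz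
    have b3 : lm z = 0 := m5 z ⟨hz, b⟩
    have b4 := hX z hz (by linarith)
    refine ⟨Q.eval z - g' z + u, (norm_add_le _ _).trans (by linarith [hQ' z b4]), ?_⟩
    rw [b2, r7 v z (by linarith), ← q2 z b4, ← exp_add, ← exp_add, exp_eq_exp_iff_exists_int]
    exact ⟨-m v, by push_cast; ring⟩
  · obtain ⟨u, v, b1, b2⟩ := u4 z hz
    have b3 : 0 ≤ χ z * (Ψ (Q.eval z - T)).re := by
      by_cases b' : χ z = 0
      · rw [b', zero_mul]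
      · exact mul_nonneg (d2 z).1
          (p1 _ (one_pos.trans_le (hre1 z (hthick z hz (d3 z b')) b))).2.1
    have b4 : 0 ≤ φ v z * (Q.eval z - T).re := by
      by_cases b' : 3 / 4 ≤ lm z
      · rw [r8 v z b', zero_mul]
      · exact mul_nonneg (r6 v z).1 (zero_le_one.trans (hre1 z (hX z hz (by linarith)) b))
    have b5 := (abs_le.1 ((Complex.abs_re_le_norm u).trans b1)).1
    have b6 : (2 * Real.pi * I * m v : ℂ).re = 0 := by simp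
    rw [b2, ← exp_add, Complex.norm_exp, Real.exp_le_exp, add_re, add_re, add_re, re_ofReal_mul,
      re_ofReal_mul, sub_re, sub_re, b6, re_ofReal_mul, ofReal_re]
    nlinarith [mul_nonneg (sub_nonneg.2 (r6 v z).2) b3]

end Pool.Agent.Lib.MP_1b82cc_an
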