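import Pool.Agent.Lib.MP_1b82cc_an.GG2
import Pool.Agent.Lib.MP_1b82cc_an.GF

/-!
Chordal approximation on every compact set with connected complement.
-/

namespace Pool.Agent.Lib.MP_1b82cc_an

open Set Metric Filter Topology Polynomial OnePoint

variable {K : Set ℂ} {f : ℂ → OnePoint ℂ} {ε : ℝ}

theorem near_all (hK : IsCompact K) (hc : IsPreconnected Kᶜ) (hf : InClass K f) (hε : 0 < ε) :
    Near K f ε := by
  rcases K.eq_empty_or_nonempty with rfl | hne
  · exact ⟨∅, 0, isOpen_empty, Subset.rfl, by simp, by simp⟩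
  have hl : ContinuousOn (fun z => lam (f z)) K := continuous_lam.comp_continuousOn hf.1
  set κ := min (ε / 8) (1 / 3) with hκ
  have hκ0 : 0 < κ := lt_min (by positivity) (by norm_num)
  have hκ1 : κ ≤ ε / 8 := min_le_left _ _
  have hκ2 : κ ≤ 1 / 3 := min_le_right _ _
  obtain ⟨p₁, Γ, m₁, hm₁, g1, g2, g3, g4, g5⟩ := exists_gam hK hc hf hκ0
  obtain ⟨θ₀, hθ₀, hθ₀'⟩ := g4 (Real.log (4 / ε / m₁) + 1 + 2)
  set θ := min θ₀ (min (1 / 2) (1 / (1 + (4 / ε) ^ 2))) with hθ
  have hθ0 : 0 < θ := lt_min hθ₀ (lt_min (by norm_num) (by positivity))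
  obtain ⟨U, G, u1, u2, u3, u4, u5⟩ := core (l := fun z => lam (f z)) (Γ := Γ)
    (T := Real.log (4 / ε / m₁) + 1) hK hne hc hl (fun z => lam_nonneg _) hκ0 (by linarith) hθ0
    (fun z r x y h1 h2 h3 => hf.ball h1 h2 h3) g1 g4
    (fun z hz h h' => hθ₀' z hz h (h'.trans (min_le_left _ _))) g5
  refine ⟨U, fun z => p₁.eval z * G z, u1, u2, p₁.differentiable.differentiableOn.mul u3,
    fun z hz => ?_⟩
  by_cases hz' : θ ≤ lam (f z)
  · obtain ⟨u, v1, v2⟩ := u4 z hz hz'
    have h' : lam (f z) ≠ 0 := (hθ0.trans_le hz').ne'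
    have v3 := dist_st_rel (p₁.eval z * Γ z) (Complex.exp u)
    have v4 := Complex.norm_exp_sub_one_le (x := u) (by linarith)
    have v5 := dist_st_le (p₁.eval z * Γ z) (fv (f z))
    rw [← eq_coe h'] at v5
    rw [mul_assoc, ← v2] at v3
    linarith [dist_triangle (st (p₁.eval z * G z : ℂ)) (st (p₁.eval z * Γ z : ℂ)) (st (f z)),
      g3 z hz h']
  · replace hz' := not_le.1 hz'
    have v5 := u5 z hz hz'
    rw [add_sub_cancel_right, Real.exp_log (by positivity), div_le_iff₀ hm₁] at v5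
    have v6 := g2 z hz (hz'.le.trans ((min_le_right _ _).trans (min_le_left _ _)))
    have v7 : 4 / ε ≤ ‖p₁.eval z * G z‖ := by
      rw [norm_mul]
      nlinarith [norm_nonneg (G z)]
    have v8 : dist (st (f z)) (st ∞) ≤ ε / 4 := by
      by_cases h' : lam (f z) = 0
      · rw [eq_infty h', dist_self]; positivity
      · have h'' := hz'.trans_le ((min_le_right _ _).trans (min_le_right _ _))
        rw [eq_coe h']
        refine dist_big hε (le_of_sq_le_sq ?_ (norm_nonneg _))
        rw [lt_div_iff₀ (by positivity)] at h''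
        linarith [lt_of_mul_lt_mul_left (h''.trans_eq (lam_mul h').symm) (lam_nonneg _)]
    linarith [dist_triangle_right (st (p₁.eval z * G z : ℂ)) (st (f z)) (st ∞), dist_big hε v7]

end Pool.Agent.Lib.MP_1b82cc_an
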