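import Pool.Agent.Lib.MP_1b82cc_an.Merg1

/-!
The theorem of Mergelyan.
-/

namespace Pool.Agent.Lib.MP_1b82cc_an

open Set Metric Filter Topology MeasureTheory Polynomial
open Pool.Agent.Lib.MP_8daebb_an.SV
open scoped Convolution

variable {K : Set ℂ}

lemma mem_closure_poly [CompactSpace K] (g : C(K, ℂ)) (G : ℂ → ℂ) (hg : ∀ z : K, g z = G z) :
    g ∈ (polynomialFunctions K).topologicalClosure ↔ Approx K G := by
  have : g ∈ (polynomialFunctions K).topologicalClosure ↔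
    g ∈ closure (polynomialFunctions K : Set C(K, ℂ)) := Iff.rfl
  rw [this, Metric.mem_closure_iff]
  constructor
  · intro h ε hε
    obtain ⟨_, ⟨p, -, rfl⟩, hp⟩ := h ε hε
    refine ⟨p, fun z hz => ?_⟩
    have := (ContinuousMap.dist_apply_le_dist (f := g)
      (g := Polynomial.toContinuousMapOnAlgHom K p) ⟨z, hz⟩).trans_lt hp
    rw [hg, dist_comm, dist_eq_norm] at this
    simpa using this
  · intro h ε hε
    obtain ⟨p, hp⟩ := h ε hε
    refine ⟨_, ⟨p, trivial, rfl⟩, (ContinuousMap.dist_lt_iff hε).2 fun z => ?_⟩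
    rw [hg, dist_comm, dist_eq_norm]
    simpa using hp z z.2

lemma approx_integral [CompactSpace K] {k : ℂ → C(K, ℂ)} (hk : Continuous k)
    (hs : HasCompactSupport k) (hkS : ∀ ζ, k ζ ∈ (polynomialFunctions K).topologicalClosure)
    {ε : ℝ} (hε : 0 < ε) : ∃ p : ℂ[X], ∀ z : K, ‖p.eval (z : ℂ) - ∫ ζ, k ζ z‖ < ε := by
  classical
  let S' : Submodule ℂ C(K, ℂ) := (polynomialFunctions K).topologicalClosure.toSubmodule
  have : CompleteSpace S' :=
    (Subalgebra.isClosed_topologicalClosure (polynomialFunctions K)).completeSpace_coe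
  let k' : ℂ → S' := fun ζ => ⟨k ζ, hkS ζ⟩
  have hk' : Integrable k' := by
    refine Continuous.integrable_of_hasCompactSupport (hk.subtype_mk _) ?_
    exact hs.mono fun ζ hζ h => hζ (Subtype.ext h)
  have hI : ∀ z : K, ((∫ ζ, k' ζ : S') : C(K, ℂ)) z = ∫ ζ, k ζ z := fun z =>
    (((ContinuousMap.evalCLM ℂ z).comp S'.subtypeL).integral_comp_comm hk').symm
  obtain ⟨p, hp⟩ := (mem_closure_poly ((∫ ζ, k' ζ : S') : C(K, ℂ))
    (fun z => if h : z ∈ K then ∫ ζ, k ζ ⟨z, h⟩ else 0) fun z => by simp [hI]).1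
    (∫ ζ, k' ζ : S').2 ε hε
  exact ⟨p, fun z => by simpa using hp z z.2⟩

lemma norm_dbar_le (Φ : ℂ → ℂ) (z : ℂ) : ‖dbar Φ z‖ ≤ ‖fderiv ℝ Φ z‖ := by
  have h1 := (fderiv ℝ Φ z).le_opNorm 1
  have h2 := (fderiv ℝ Φ z).le_opNorm Complex.I
  have h3 := norm_add_le (fderiv ℝ Φ z 1) (Complex.I * fderiv ℝ Φ z Complex.I)
  rw [norm_mul] at h3
  simp only [norm_one, Complex.norm_I, mul_one, one_mul] at h1 h2 h3
  rw [dbar, norm_div, Complex.norm_ofNat]
  linarith

lemma smoothing : ∃ B : ℝ, 0 ≤ B ∧ ∀ (u : ℂ → ℂ) (ω : ℝ), Continuous u → HasCompactSupport u →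
    (∀ z w, dist w z < 1 → dist (u w) (u z) ≤ ω) → ∃ Φ : ℂ → ℂ, ContDiff ℝ 2 Φ ∧
      HasCompactSupport Φ ∧ (∀ z, ‖Φ z - u z‖ ≤ ω) ∧ (∀ z, ‖dbar Φ z‖ ≤ B * ω) ∧
      ∀ z V, IsOpen V → closedBall z 1 ⊆ V → DifferentiableOn ℂ u V → dbar Φ z = 0 := by
  let φ : ContDiffBump (0 : ℂ) := ⟨1 / 4, 1 / 2, by norm_num, by norm_num⟩
  have hφc : HasCompactSupport (φ.normed volume) := φ.hasCompactSupport_normed
  have hφ1 : ContDiff ℝ 1 (φ.normed volume) := φ.contDiff_normed (n := 1)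
  have hφs : tsupport (φ.normed volume) = closedBall 0 (1 / 2) := φ.tsupport_normed_eq
  have hD : Integrable fun t => ‖fderiv ℝ (φ.normed volume) t‖ :=
    ((hφ1.continuous_fderiv one_ne_zero).integrable_of_hasCompactSupport (hφc.fderiv ℝ)).norm
  refine ⟨∫ t, ‖fderiv ℝ (φ.normed volume) t‖, integral_nonneg fun _ => norm_nonneg _,
    fun u ω hu huc hω => ?_⟩
  have hint : ∀ x, Integrable fun t => φ.normed volume t • u (x - t) := fun x =>
    Continuous.integrable_of_hasCompactSupport (hφ1.continuous.smul (by fun_prop)) hφc.smul_right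
  refine ⟨φ.normed volume ⋆[ContinuousLinearMap.lsmul ℝ ℝ, volume] u,
    hφc.contDiff_convolution_left _ (φ.contDiff_normed (n := 2)) hu.locallyIntegrable,
    hφc.convolution _ huc, fun z => ?_, fun z => ?_, fun z V hV hzV hd => ?_⟩
  · rw [← dist_eq_norm]
    exact φ.dist_normed_convolution_le hu.aestronglyMeasurable fun x hx =>
      hω z x (lt_trans hx (by norm_num [φ]))
  · refine (norm_dbar_le _ _).trans ?_
    have h1 := hφc.hasFDerivAt_convolution_left (ContinuousLinearMap.lsmul ℝ ℝ) hφ1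
      (g := fun x => u x - u z) (μ := volume) (hu.sub continuous_const).locallyIntegrable z
    have h2 : (φ.normed volume ⋆[ContinuousLinearMap.lsmul ℝ ℝ, volume] u) = fun x =>
        (φ.normed volume ⋆[ContinuousLinearMap.lsmul ℝ ℝ, volume] fun x => u x - u z) x + u z := by
      funext x
      simp only [convolution_def, ContinuousLinearMap.lsmul_apply, smul_sub]
      rw [integral_sub (hint x) (φ.integrable_normed.smul_const _), φ.integral_normed_smul]
      ring
    rw [h2, (h1.add_const (u z)).fderiv, convolution_def, ← integral_mul_const]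
    refine norm_integral_le_of_norm_le (hD.mul_const ω) (Eventually.of_forall fun t => ?_)
    by_cases ht : t ∈ closedBall (0 : ℂ) (1 / 2)
    · have h3 : ‖u (z - t) - u z‖ ≤ ω := by
        rw [← dist_eq_norm]
        refine hω _ _ ?_
        rw [mem_closedBall_zero_iff] at ht
        rw [dist_eq_norm, sub_sub_cancel_left, norm_neg]; linarith
      refine ContinuousLinearMap.opNorm_le_bound _
        (mul_nonneg (norm_nonneg _) ((norm_nonneg _).trans h3)) fun v => ?_
      simp only [ContinuousLinearMap.precompL_apply, ContinuousLinearMap.lsmul_apply, norm_smul]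
      calc _ ≤ ‖fderiv ℝ (φ.normed volume) t‖ * ‖v‖ * ω := by
            gcongr; exact ContinuousLinearMap.le_opNorm _ _
        _ = _ := by ring
    · rw [fderiv_of_notMem_tsupport ℝ (hφs ▸ ht)]
      simp
  · obtain ⟨M, hM⟩ := (isCompact_closedBall z 1).exists_bound_of_continuousOn
      ((hd.deriv hV).continuousOn.mono hzV)
    have hin : ∀ t, φ.normed volume t ≠ 0 → ∀ x ∈ ball z (1 / 2), x - t ∈ closedBall z 1 := by
      intro t ht x hx
      have h1 : t ∈ closedBall (0 : ℂ) (1 / 2) := hφs ▸ subset_tsupport _ ht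
      rw [mem_closedBall_zero_iff] at h1
      rw [mem_ball, dist_eq_norm] at hx
      rw [mem_closedBall, dist_eq_norm, sub_right_comm]
      linarith [norm_sub_le (x - z) t]
    refine dbar_of_differentiableAt (hasDerivAt_integral_of_dominated_loc_of_deriv_le
      (F := fun x t => φ.normed volume t • u (x - t)) (s := ball z (1 / 2))
      (F' := fun x t => φ.normed volume t • deriv u (x - t))
      (bound := fun t => φ.normed volume t * M) (ball_mem_nhds z (by norm_num))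
      (Eventually.of_forall fun x => (hint x).1) (hint z) ?_ (Eventually.of_forall fun t x hx => ?_)
      (φ.integrable_normed.mul_const M) (Eventually.of_forall fun t x hx => ?_)).2.differentiableAt
    · exact hφ1.continuous.aestronglyMeasurable.smul
        ((measurable_deriv u).comp (measurable_const.sub measurable_id)).aestronglyMeasurable
    · by_cases ht : φ.normed volume t = 0
      · simp [ht]
      · rw [norm_smul, Real.norm_of_nonneg (φ.nonneg_normed t)]
        exact mul_le_mul_of_nonneg_left (hM _ (hin t ht x hx)) (φ.nonneg_normed t)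
    · by_cases ht : φ.normed volume t = 0
      · simp only [ht, zero_smul]; exact hasDerivAt_const _ _
      · exact ((hd.differentiableAt (hV.mem_nhds (hzV (hin t ht x hx)))).hasDerivAt.comp_sub_const
          x t).const_smul (φ.normed volume t)

lemma integrable_kernel : Integrable fun w : ℂ => (‖w‖ * (1 + ‖w‖ ^ 2))⁻¹ := by
  have h1 : Integrable ((closedBall (0 : ℂ) 1).indicator fun w => ‖w⁻¹‖) :=
    (integrable_indicator_iff measurableSet_closedBall).2
      (CTAux.locInt.integrableOn_isCompact (isCompact_closedBall 0 1)).norm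
  have h2 := (integrable_one_add_norm (E := ℂ) (μ := volume) (r := 3) (by
    simp only [Complex.finrank_real_complex]; norm_num)).const_mul 8
  refine (h1.add h2).mono' (Measurable.aestronglyMeasurable (by fun_prop))
    (Eventually.of_forall fun w => ?_)
  have h3 : (1 + ‖w‖) ^ (-(3 : ℝ)) = ((1 + ‖w‖) ^ 3)⁻¹ := by
    rw [Real.rpow_neg (by positivity)]; norm_cast
  rw [Real.norm_of_nonneg (by positivity), Pi.add_apply, h3]
  by_cases hw : w ∈ closedBall (0 : ℂ) 1
  · rw [indicator_of_mem hw, norm_inv, mul_inv]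
    have : (1 + ‖w‖ ^ 2)⁻¹ ≤ 1 := inv_le_one_of_one_le₀ (by nlinarith [sq_nonneg ‖w‖])
    have h4 : 0 ≤ ‖w‖⁻¹ := by positivity
    have h5 : 0 ≤ ((1 + ‖w‖) ^ 3)⁻¹ := by positivity
    nlinarith
  · rw [indicator_of_notMem hw, zero_add, ← div_eq_mul_inv, inv_eq_one_div]
    rw [mem_closedBall_zero_iff, not_le] at hw
    rw [div_le_div_iff₀ (by positivity) (by positivity)]
    nlinarith [mul_pos (sub_pos.2 hw) (sub_pos.2 hw), pow_pos (sub_pos.2 hw) 3]

lemma exists_kernel [CompactSpace K] (hK : IsCompact K) (hne : K.Nonempty)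
    (hc : IsPreconnected Kᶜ) : ∃ R : C(ℂ, C(K, ℂ)), ∀ ζ,
      R ζ ∈ (polynomialFunctions K).topologicalClosure ∧ (infDist ζ Kᶜ ≤ 1 → ∀ z : K,
        (1 + ‖(z : ℂ) - ζ‖ ^ 2) * ‖((z : ℂ) - ζ) * R ζ z - 1‖ ≤ 10 ^ 10) := by
  refine exists_continuous_forall_mem_convex_of_local
    (t := fun ζ => {R : C(K, ℂ) | R ∈ (polynomialFunctions K).topologicalClosure ∧
      (infDist ζ Kᶜ ≤ 1 → ∀ z : K,
        (1 + ‖(z : ℂ) - ζ‖ ^ 2) * ‖((z : ℂ) - ζ) * R z - 1‖ ≤ 10 ^ 10)})
    (fun ζ R₁ h₁ R₂ h₂ a b ha hb hab => ⟨((polynomialFunctions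
      K).topologicalClosure.toSubmodule.restrictScalars ℝ).convex h₁.1 h₂.1 ha hb hab,
      fun h z => ?_⟩) fun ζ => ?_
  · have h1 : ((z : ℂ) - ζ) * (a • R₁ + b • R₂) z - 1 =
        a • (((z : ℂ) - ζ) * R₁ z - 1) + b • (((z : ℂ) - ζ) * R₂ z - 1) := by
      have : (a : ℂ) + b = 1 := by exact_mod_cast hab
      simp only [ContinuousMap.add_apply, ContinuousMap.smul_apply, Complex.real_smul]
      linear_combination this
    have h2 := norm_add_le (a • (((z : ℂ) - ζ) * R₁ z - 1)) (b • (((z : ℂ) - ζ) * R₂ z - 1))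
    rw [norm_smul, norm_smul, Real.norm_of_nonneg ha, Real.norm_of_nonneg hb, ← h1] at h2
    have h3 := mul_le_mul_of_nonneg_left (h₁.2 h z) ha
    have h4 := mul_le_mul_of_nonneg_left (h₂.2 h z) hb
    have h5 := mul_le_mul_of_nonneg_left h2 (show 0 ≤ 1 + ‖(z : ℂ) - ζ‖ ^ 2 by positivity)
    nlinarith
  · by_cases hζ : infDist ζ Kᶜ ≤ 1
    · obtain ⟨β, hβ, hβ'⟩ := (infDist_lt_iff (nonempty_compl.2 hK.ne_univ)).1
        (hζ.trans_lt one_lt_two)
      obtain ⟨U, g, m, c, h1, h2, h3, h4, h5, h6⟩ := exists_g hK hc hβ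
      let G : C(K, ℂ) := ⟨K.domRestrict g, (h3.continuousOn.mono h2).domRestrict⟩
      have hG := (mem_closure_poly G g fun _ => rfl).2 (runge hK hne hc h1 h2 h3)
      refine ⟨ball β 2, isOpen_ball.mem_nhds hβ', fun ξ => G + (ξ - m) • G ^ 2, by fun_prop,
        fun ξ hξ => ⟨add_mem hG (Subalgebra.smul_mem _ (pow_mem hG 2) _), fun _ z => ?_⟩⟩
      obtain ⟨h7, h8, h9⟩ := h6 z z.2
      exact kernel_bound h4 h5 h7 h8 h9 (by simpa [dist_eq_norm] using (mem_ball.1 hξ).le)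
    · refine ⟨{ξ | 1 < infDist ξ Kᶜ}, (isOpen_lt continuous_const
        (continuous_infDist_pt _)).mem_nhds (not_le.1 hζ), fun _ => 0, continuousOn_const,
        fun ξ hξ => ⟨zero_mem _, fun h => absurd hξ (not_lt.2 h)⟩⟩

/-- The estimate of Mergelyan at scale one. -/
lemma mergelyan_one : ∃ A : ℝ, ∀ (K : Set ℂ) (u : ℂ → ℂ) (ω : ℝ), IsCompact K → K.Nonempty →
    IsPreconnected Kᶜ → Continuous u → HasCompactSupport u → DifferentiableOn ℂ u (interior K) →
    0 < ω → (∀ z w, dist w z < 1 → dist (u w) (u z) ≤ ω) →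
    ∃ p : ℂ[X], ∀ z ∈ K, ‖p.eval z - u z‖ ≤ A * ω := by
  obtain ⟨B, hB, h⟩ := smoothing
  refine ⟨2 + B * 10 ^ 10 * ∫ w : ℂ, (‖w‖ * (1 + ‖w‖ ^ 2))⁻¹,
    fun K u ω hK hne hc hu huc hd hω0 hω => ?_⟩
  have : CompactSpace K := isCompact_iff_compactSpace.1 hK
  obtain ⟨Φ, h1, h2, h3, h4, h5⟩ := h u ω hu huc hω
  obtain ⟨R, hR⟩ := exists_kernel hK hne hc
  have hχ := (contDiff_dbar h1).continuous
  have hχc : HasCompactSupport (dbar Φ) := (h2.fderiv ℝ).mono fun z hz h => hz (by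
    rw [dbar, h]; simp)
  have hk : Continuous fun ζ => ((1 / Real.pi : ℂ) * dbar Φ ζ) • R ζ :=
    (continuous_const.mul hχ).smul R.continuous
  have hkc : HasCompactSupport fun ζ => ((1 / Real.pi : ℂ) * dbar Φ ζ) • R ζ :=
    hχc.mul_left.smul_right
  obtain ⟨p, hp⟩ := approx_integral hk hkc (fun ζ => Subalgebra.smul_mem _ (hR ζ).1 _) hω0
  refine ⟨p, fun z hz => ?_⟩
  have h6 := hp ⟨z, hz⟩
  have i1 : Integrable fun ζ => (((1 / Real.pi : ℂ) * dbar Φ ζ) • R ζ) ⟨z, hz⟩ :=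
    (ContinuousMap.evalCLM ℂ (⟨z, hz⟩ : K)).integrable_comp
      (hk.integrable_of_hasCompactSupport hkc)
  have h7 : ‖(∫ ζ, (((1 / Real.pi : ℂ) * dbar Φ ζ) • R ζ) ⟨z, hz⟩) - Φ z‖ ≤
      B * ω * 10 ^ 10 * ∫ w : ℂ, (‖w‖ * (1 + ‖w‖ ^ 2))⁻¹ := by
    rw [← ct_dbar (h1.of_le (by norm_num)) h2 z, ct, ← integral_const_mul,
      ← integral_sub i1 ((integrable_ct hχ hχc z).const_mul _),
      ← integral_sub_left_eq_self (fun w : ℂ => (‖w‖ * (1 + ‖w‖ ^ 2))⁻¹) volume z,
      ← integral_const_mul]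
    refine norm_integral_le_of_norm_le ((integrable_kernel.comp_sub_left z).const_mul _) ?_
    filter_upwards [compl_mem_ae_iff.2 (measure_singleton z)] with ζ hζ
    have hne : z - ζ ≠ 0 := sub_ne_zero.2 (Ne.symm hζ)
    have hne' : ζ - z ≠ 0 := sub_ne_zero.2 hζ
    have hn := norm_pos_iff.2 hne
    by_cases hX : infDist ζ Kᶜ ≤ 1
    · have h8 := (hR ζ).2 hX ⟨z, hz⟩
      have h9 : (((1 / Real.pi : ℂ) * dbar Φ ζ) • R ζ) ⟨z, hz⟩ -
          -(1 / Real.pi : ℂ) * (dbar Φ ζ / (ζ - z)) =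
          (1 / Real.pi : ℂ) * dbar Φ ζ * (((z - ζ) * R ζ ⟨z, hz⟩ - 1) / (z - ζ)) := by
        simp only [ContinuousMap.smul_apply, smul_eq_mul]
        field_simp
        ring
      have h10 : ‖(1 / Real.pi : ℂ)‖ ≤ 1 := by
        rw [norm_div, norm_one, Complex.norm_real, Real.norm_of_nonneg Real.pi_pos.le,
          div_le_one Real.pi_pos]
        linarith [Real.pi_gt_three]
      have h11 : ‖((z - ζ) * R ζ ⟨z, hz⟩ - 1) / (z - ζ)‖ ≤
          10 ^ 10 * (‖z - ζ‖ * (1 + ‖z - ζ‖ ^ 2))⁻¹ := by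
        rw [norm_div, ← div_eq_mul_inv, div_le_div_iff₀ hn (by positivity)]
        nlinarith [mul_le_mul_of_nonneg_right h8 hn.le]
      rw [h9, norm_mul, norm_mul]
      calc _ ≤ 1 * (B * ω) * (10 ^ 10 * (‖z - ζ‖ * (1 + ‖z - ζ‖ ^ 2))⁻¹) := by
            gcongr; exact h4 ζ
        _ = _ := by ring
    · have h8 : dbar Φ ζ = 0 := h5 ζ (ball ζ (infDist ζ Kᶜ)) isOpen_ball
        (closedBall_subset_ball (not_le.1 hX))
        (hd.mono (interior_maximal ball_infDist_compl_subset isOpen_ball))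
      simp only [h8, mul_zero, zero_smul, ContinuousMap.zero_apply, zero_div, sub_zero, norm_zero]
      positivity
  have h8 := norm_sub_le_norm_sub_add_norm_sub (p.eval z) (Φ z) (u z)
  have h9 := norm_sub_le_norm_sub_add_norm_sub (p.eval z)
    (∫ ζ, (((1 / Real.pi : ℂ) * dbar Φ ζ) • R ζ) ⟨z, hz⟩) (Φ z)
  have h10 := h3 z
  simp only at h6
  nlinarith

/-- The theorem of Mergelyan. -/
theorem mergelyan (hK : IsCompact K) (hc : IsPreconnected Kᶜ) {u : ℂ → ℂ}
    (hu : ContinuousOn u K) (hd : DifferentiableOn ℂ u (interior K)) : Approx K u := by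
  intro ε hε
  rcases K.eq_empty_or_nonempty with rfl | hne
  · exact ⟨0, by simp⟩
  obtain ⟨A, hA⟩ := mergelyan_one
  obtain ⟨v, hv⟩ := ContinuousMap.exists_restrict_eq hK.isClosed
    (⟨K.domRestrict u, hu.domRestrict⟩ : C(K, ℂ))
  obtain ⟨β, hβ, hβc, -, -, V, -, hKV, -, hV1⟩ := exists_cutoff hK isOpen_univ (subset_univ _)
  have hw : Continuous fun z => β z • v z := hβ.continuous.smul v.continuous
  have hwc : HasCompactSupport fun z => β z • v z := hβc.smul_right
  have hwu : ∀ z ∈ K, β z • v z = u z := fun z hz => by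
    rw [hV1 z (hKV hz), one_smul]
    simpa using congrArg (fun g : C(K, ℂ) => g ⟨z, hz⟩) hv
  obtain ⟨δ, hδ, hω⟩ := Metric.uniformContinuous_iff.1
    (hwc.uniformContinuous_of_continuous hw) (ε / (2 * (|A| + 1))) (by positivity)
  have hδ' : (δ : ℂ) ≠ 0 := Complex.ofReal_ne_zero.2 hδ.ne'
  let T := Homeomorph.mulLeft₀ (δ : ℂ) hδ'
  obtain ⟨p, hp⟩ := hA (T ⁻¹' K) (fun z => β (T z) • v (T z)) (ε / (2 * (|A| + 1)))
    (T.isCompact_preimage.2 hK) (hne.preimage T.surjective)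
    (by rw [← preimage_compl]; exact T.isPreconnected_preimage.2 hc) (hw.comp T.continuous)
    (hwc.comp_homeomorph T) (by
      rw [← T.preimage_interior]
      have hT : DifferentiableOn ℂ (fun z : ℂ => (δ : ℂ) * z) (T ⁻¹' interior K) := by fun_prop
      exact (hd.comp hT fun z hz => hz).congr fun z hz => hwu (T z) (interior_subset hz)) (by positivity) fun z w hzw => (hω (by
      show dist (δ * w : ℂ) (δ * z) < δ
      rw [dist_eq_norm, ← mul_sub, norm_mul, Complex.norm_real, Real.norm_of_nonneg hδ.le,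
        ← dist_eq_norm]
      nlinarith)).le
  refine ⟨p.comp (C (δ : ℂ)⁻¹ * X), fun z hz => ?_⟩
  have h1 : T ((δ : ℂ)⁻¹ * z) = z := by
    show (δ : ℂ) * ((δ : ℂ)⁻¹ * z) = z
    field_simp
  have h2 := hp ((δ : ℂ)⁻¹ * z) (by rw [mem_preimage, h1]; exact hz)
  rw [h1, hwu z hz] at h2
  rw [eval_comp, eval_mul, eval_C, eval_X]
  refine h2.trans_lt ?_
  have h3 : (|A| + 1) * (ε / (2 * (|A| + 1))) = ε / 2 := by field_simp
  have h4 : 0 < ε / (2 * (|A| + 1)) := by positivity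
  nlinarith [le_abs_self A]

end Pool.Agent.Lib.MP_1b82cc_an
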