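import Pool.Agent.Lib.MP_1b82cc_an.Loc2
import Pool.Agent.Lib.MP_1b82cc_an.Merg2

/-!
Gluing of local polynomial approximants, and compact sets with connected complement.
-/

namespace Pool.Agent.Lib.MP_1b82cc_an

open Set Metric Filter Topology MeasureTheory Polynomial
open Pool.Agent.Lib.MP_8daebb_an.SV
open scoped Manifold ContDiff

variable {K : Set ℂ}

/-- Correction of a smooth function with small derivative in the conjugate variable. -/
lemma dbar_correct (hK : IsCompact K) {W : Set ℂ} (hW : IsOpen W) (hKW : K ⊆ W) {φ : ℂ → ℂ}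
    (hφ : ContDiff ℝ 2 φ) {M V : ℝ} (hM0 : 0 ≤ M) (hV0 : 0 ≤ V)
    (hV : volume W ≤ ENNReal.ofReal V) (hM : ∀ z ∈ W, ‖dbar φ z‖ ≤ M) :
    ∃ (U : Set ℂ) (G : ℂ → ℂ), IsOpen U ∧ K ⊆ U ∧ DifferentiableOn ℂ G U ∧
      ∀ z, ‖G z - φ z‖ ≤ M * (2 + V) := by
  have hχ := contDiff_dbar hφ
  obtain ⟨β, hβ, hβc, hβU, hI, U, hU, hKU, -, hU1⟩ := exists_cutoff hK hW hKW
  have hρ : ContDiff ℝ 1 fun z => β z • dbar φ z := (hβ.of_le (by norm_num)).smul hχ
  have hρc : HasCompactSupport fun z => β z • dbar φ z := hβc.smul_right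
  have hz0 : ∀ z ∉ W, β z = 0 := fun z hz =>
    image_eq_zero_of_notMem_tsupport fun h => hz (hβU h)
  have d1 : Differentiable ℝ φ := hφ.differentiable (by norm_num)
  have d2 := (ct_contDiff hρ hρc).1.differentiable one_ne_zero
  refine ⟨U, fun z => φ z - ct (fun z => β z • dbar φ z) z, hU, hKU, fun z hz => ?_, fun z => ?_⟩
  · refine (differentiableAt_of_dbar ((d1 z).sub (d2 z)) ?_).differentiableWithinAt
    have h1 := dbar_ct hρ hρc z
    rw [hU1 z hz, one_smul] at h1
    rw [dbar, dbar] at h1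
    rw [dbar, fderiv_sub (d1 z) (d2 z), sub_apply, sub_apply]
    linear_combination -h1
  · have h1 := norm_ct_le (ψ := fun z => β z • dbar φ z) (M := M) hW.measurableSet
      hM0 hV0 hV (fun ζ => ?_) (fun ζ hζ => by simp [hz0 ζ hζ]) one_pos z
    · simpa using h1
    · by_cases hζ : ζ ∈ W
      · rw [norm_smul, Real.norm_of_nonneg (hI ζ).1]
        nlinarith [(hI ζ).1, (hI ζ).2, norm_nonneg (dbar φ ζ), hM ζ hζ]
      · simp only [hz0 ζ hζ, zero_smul, norm_zero, hM0]

/-- Local approximants at a fixed scale give a global approximant. -/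
lemma glue (hK : IsCompact K) {l : ℝ} (hl : 0 < l) : ∃ A : ℝ, 0 < A ∧ ∀ (Q : ℂ → ℂ) (η : ℝ),
    0 < η → (∀ c ∈ K, ∃ p : ℂ[X], ∀ z ∈ K ∩ closedBall c l, ‖p.eval z - Q z‖ ≤ η) →
    ∃ (U : Set ℂ) (G : ℂ → ℂ), IsOpen U ∧ K ⊆ U ∧ DifferentiableOn ℂ G U ∧
      ∀ z ∈ K, ‖G z - Q z‖ ≤ A * η := by
  obtain ⟨t, htK, ht⟩ := hK.elim_nhds_subcover (fun c => ball c l) fun c _ => ball_mem_nhds c hl
  have ht' : K ⊆ ⋃ c : t, ball (c : ℂ) l := fun z hz => by simpa using ht hz
  obtain ⟨T, hT, hKT, hTU⟩ := exists_compact_between hK (isOpen_iUnion fun _ => isOpen_ball) ht'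
  obtain ⟨φ, hφ⟩ := SmoothPartitionOfUnity.exists_isSubordinate 𝓘(ℝ, ℂ) hT.isClosed
    (fun c : t => ball (c : ℂ) l) (fun _ => isOpen_ball) hTU
  have hφ2 : ∀ c, ContDiff ℝ 2 (φ c) := fun c => contDiff_infty.1 (φ c).contMDiff.contDiff 2
  have hφd : ∀ c z, HasFDerivAt (φ c) (fderiv ℝ (φ c) z) z := fun c z =>
    ((hφ2 c).differentiable (by norm_num) z).hasFDerivAt
  obtain ⟨B, hB⟩ := hK.exists_bound_of_continuousOn (f := fun z => ∑ c, ‖fderiv ℝ (φ c) z‖)
    (continuous_finsetSum _ fun c _ => ((hφ2 c).continuous_fderiv (by norm_num)).norm).continuousOn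
  obtain ⟨R, hR⟩ := hK.isBounded.subset_ball 0
  set V := (volume (ball (0 : ℂ) R)).toReal with hV
  have hV0 : 0 ≤ V := ENNReal.toReal_nonneg
  refine ⟨1 + (|B| + 1) * (2 + V), by positivity, fun Q η hη h => ?_⟩
  choose p hp using fun c : t => h c (htK c c.2)
  have hsum : ∀ z ∈ T, ∑ c, φ c z = 1 := fun z hz => by
    rw [← finsum_eq_sum_of_fintype]; exact φ.sum_eq_one hz
  have hpc : ∀ c, ContDiff ℝ 2 fun z => (p c).eval z := fun c =>
    (p c).differentiable.contDiff.restrict_scalars ℝ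
  have hψ : ContDiff ℝ 2 fun z => ∑ c, φ c z • (p c).eval z :=
    ContDiff.sum fun c _ => (hφ2 c).smul (hpc c)
  have hd : ∀ z ∈ K, ‖dbar (fun z => ∑ c, φ c z • (p c).eval z) z‖ < (|B| + 1) * η := by
    intro z hz
    have h1 : HasFDerivAt (fun z => ∑ c, φ c z • (p c).eval z) (∑ c, (φ c z •
        fderiv ℝ (fun z => (p c).eval z) z + (fderiv ℝ (φ c) z).smulRight ((p c).eval z))) z :=
      HasFDerivAt.fun_sum fun c _ =>
        (hφd c z).fun_smul ((hpc c).differentiable (by norm_num) z).hasFDerivAt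
    have h2 : ∑ c, fderiv ℝ (φ c) z = 0 := by
      refine (HasFDerivAt.fun_sum fun c _ => hφd c z).unique
        ((hasFDerivAt_const (1 : ℝ) z).congr_of_eventuallyEq ?_)
      filter_upwards [mem_interior_iff_mem_nhds.1 (hKT hz)] with a ha using hsum a ha
    have h3 : ∀ v, ∑ c, ((fderiv ℝ (φ c) z v : ℝ) : ℂ) = 0 := fun v => by
      have := congrArg (fun L : ℂ →L[ℝ] ℝ => ((L v : ℝ) : ℂ)) h2
      simpa [_root_.sum_apply] using this
    have h4 : dbar (fun z => ∑ c, φ c z • (p c).eval z) z = ∑ c,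
        ((fderiv ℝ (φ c) z 1 : ℝ) + Complex.I * (fderiv ℝ (φ c) z Complex.I : ℝ)) / 2 *
          ((p c).eval z - Q z) := by
      have h5 : ∀ c, fderiv ℝ (fun z => (p c).eval z) z 1 +
          Complex.I * fderiv ℝ (fun z => (p c).eval z) z Complex.I = 0 := fun c => by
        have := dbar_of_differentiableAt ((p c).differentiable z)
        rwa [dbar, div_eq_zero_iff, or_iff_left two_ne_zero] at this
      have h6 : ∑ c, ((fderiv ℝ (φ c) z 1 : ℝ) + Complex.I *
          (fderiv ℝ (φ c) z Complex.I : ℝ)) / 2 * Q z = 0 := by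
        rw [← Finset.sum_mul, ← Finset.sum_div, Finset.sum_add_distrib, ← Finset.mul_sum, h3, h3]
        simp
      simp only [mul_sub, Finset.sum_sub_distrib, h6, sub_zero]
      rw [dbar, h1.fderiv, _root_.sum_apply, _root_.sum_apply,
        Finset.mul_sum, ← Finset.sum_add_distrib, Finset.sum_div]
      refine Finset.sum_congr rfl fun c _ => ?_
      simp only [add_apply, smul_apply, ContinuousLinearMap.smulRight_apply, Complex.real_smul]
      linear_combination ((φ c z : ℝ) : ℂ) / 2 * h5 c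
    have h7 : ∀ c, ‖((fderiv ℝ (φ c) z 1 : ℝ) + Complex.I *
        (fderiv ℝ (φ c) z Complex.I : ℝ)) / 2 * ((p c).eval z - Q z)‖ ≤
        ‖fderiv ℝ (φ c) z‖ * η := fun c => by
      by_cases hc : z ∈ tsupport (φ c)
      · have a1 := (fderiv ℝ (φ c) z).le_opNorm 1
        have a2 := (fderiv ℝ (φ c) z).le_opNorm Complex.I
        have a3 := norm_add_le ((fderiv ℝ (φ c) z 1 : ℝ) : ℂ)
          (Complex.I * (fderiv ℝ (φ c) z Complex.I : ℝ))
        rw [norm_mul] at a3
        simp only [norm_one, Complex.norm_I, mul_one, one_mul, Complex.norm_real] at a1 a2 a3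
        rw [norm_mul, norm_div, Complex.norm_ofNat]
        exact mul_le_mul (by linarith) (hp c z ⟨hz, ball_subset_closedBall (hφ c hc)⟩)
          (norm_nonneg _) (norm_nonneg _)
      · simp [fderiv_of_notMem_tsupport ℝ hc]
    rw [h4]
    refine ((norm_sum_le _ _).trans (Finset.sum_le_sum fun c _ => h7 c)).trans_lt ?_
    rw [← Finset.sum_mul]
    have := (le_abs_self _).trans (hB z hz)
    exact mul_lt_mul_of_pos_right (by linarith [le_abs_self B]) hη
  obtain ⟨U, G, h1, h2, h3, h4⟩ := dbar_correct hK (W := ball 0 R ∩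
    {z | ‖dbar (fun z => ∑ c, φ c z • (p c).eval z) z‖ < (|B| + 1) * η})
    (isOpen_ball.inter (isOpen_lt (contDiff_dbar hψ).continuous.norm continuous_const))
    (subset_inter hR hd) hψ (M := (|B| + 1) * η) (by positivity) hV0
    ((measure_mono inter_subset_left).trans (ENNReal.ofReal_toReal measure_ball_lt_top.ne).ge)
    fun z hz => hz.2.le
  refine ⟨U, G, h1, h2, h3, fun z hz => ?_⟩
  have h5 : ‖∑ c, φ c z • (p c).eval z - Q z‖ ≤ η := by
    have h6 := hsum z (interior_subset (hKT hz))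
    have h7 : ∑ c, φ c z • (p c).eval z - Q z = ∑ c, φ c z • ((p c).eval z - Q z) := by
      simp only [smul_sub, Finset.sum_sub_distrib]
      rw [← Finset.sum_smul, h6, one_smul]
    rw [h7, ← one_mul η, ← h6, Finset.sum_mul]
    refine (norm_sum_le _ _).trans (Finset.sum_le_sum fun c _ => ?_)
    rw [norm_smul, Real.norm_of_nonneg (φ.nonneg c z)]
    by_cases hc : φ c z = 0
    · simp [hc]
    · exact mul_le_mul_of_nonneg_left (hp c z ⟨hz, ball_subset_closedBall
        (hφ c (subset_tsupport _ hc))⟩) (φ.nonneg c z)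
  have h8 := norm_sub_le_norm_sub_add_norm_sub (G z) (∑ c, φ c z • (p c).eval z) (Q z)
  have h9 := h4 z
  nlinarith

/-- A compact part of `L` that leaves no hole inside `L` has connected complement. -/
lemma compl_of_holes {L : Set ℂ} (hL : IsCompact L) (hc : IsPreconnected Lᶜ) (hK : IsClosed K)
    (hKL : K ⊆ L) (h : ∀ W, IsOpen W → IsPreconnected W → W ⊆ L → frontier W ⊆ K →
      ∀ z ∈ W, (frontier W).Nonempty → z ∈ K) : IsPreconnected Kᶜ := by
  obtain ⟨a, ha⟩ := nonempty_compl.2 hL.ne_univ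
  have h1 : Lᶜ ⊆ connectedComponentIn Kᶜ a :=
    hc.subset_connectedComponentIn ha (compl_subset_compl.2 hKL)
  have h2 : Kᶜ = connectedComponentIn Kᶜ a := by
    refine Subset.antisymm (fun z hz => ?_) (connectedComponentIn_subset _ _)
    have hW : IsOpen (connectedComponentIn Kᶜ z) := hK.isOpen_compl.connectedComponentIn
    by_cases hWL : connectedComponentIn Kᶜ z ⊆ L
    · refine absurd (h _ hW isPreconnected_connectedComponentIn hWL (fun w hw => ?_) z
        (mem_connectedComponentIn hz) ?_) hz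
      · by_contra hwK
        obtain ⟨y, hy, hy'⟩ := mem_closure_iff.1 hw.1 _ hK.isOpen_compl.connectedComponentIn
          (mem_connectedComponentIn hwK)
        refine hw.2 ?_
        rw [hW.interior_eq, connectedComponentIn_eq hy', ← connectedComponentIn_eq hy]
        exact mem_connectedComponentIn hwK
      · refine nonempty_frontier_iff.2 ⟨⟨z, mem_connectedComponentIn hz⟩, fun e => ?_⟩
        exact ha (hWL (e ▸ mem_univ a))
    · obtain ⟨y, hy, hy'⟩ := not_subset.1 hWL
      rw [connectedComponentIn_eq (h1 hy'), ← connectedComponentIn_eq hy]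
      exact mem_connectedComponentIn hz
  rw [h2]
  exact isPreconnected_connectedComponentIn

lemma compl_component {L : Set ℂ} (hL : IsCompact L) (hc : IsPreconnected Lᶜ) {x : ℂ}
    (hx : x ∈ L) : IsPreconnected (connectedComponentIn L x)ᶜ := by
  refine compl_of_holes hL hc (isCompact_component hL hx).isClosed
    (connectedComponentIn_subset _ _) fun W _ hW hWL hf z hz ⟨w, hw⟩ => ?_
  rw [connectedComponentIn_eq (hf hw)]
  exact hW.closure.subset_connectedComponentIn hw.1 (closure_minimal hWL hL.isClosed)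
    (subset_closure hz)

lemma compl_inter_ball (hK : IsCompact K) (hc : IsPreconnected Kᶜ) (c : ℂ) {l : ℝ} (hl : 0 ≤ l) :
    IsPreconnected (K ∩ closedBall c l)ᶜ := by
  have h1 : IsPreconnected (closedBall c l)ᶜ := by
    have := isPreconnected_ring c (isPreconnected_Ioi (a := l)) (fun x hx => hl.trans hx.le)
    convert this using 1
    ext z; simp [dist_eq_norm]
  obtain ⟨a, ha⟩ := nonempty_compl.2 (hK.union (isCompact_closedBall c l)).ne_univ
  rw [compl_inter]
  exact hc.union a (fun h => ha (Or.inl h)) (fun h => ha (Or.inr h)) h1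

lemma InClass.mono {L : Set ℂ} {f : ℂ → OnePoint ℂ} (hf : InClass L f) (hKL : K ⊆ L) :
    InClass K f := by
  refine ⟨hf.1.mono hKL, fun z hz => ?_⟩
  have h1 := connectedComponentIn_mono z (interior_mono hKL)
  exact (hf.2 z (interior_mono hKL hz)).imp (fun h w hw => h w (h1 hw))
    fun ⟨g, h2, h3⟩ => ⟨g, h2.mono h1, fun w hw => h3 w (h1 hw)⟩

/-- A continuous logarithm of a holomorphic function is holomorphic. -/
lemma differentiableAt_of_exp {h E : ℂ → ℂ} {z : ℂ} (hh : ContinuousAt h z)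
    (hE : DifferentiableAt ℂ E z) (he : ∀ᶠ w in 𝓝 z, Complex.exp (h w) = E w) :
    DifferentiableAt ℂ h z := by
  have h0 : Complex.exp (h z) = E z := he.self_of_nhds
  have h1 : E z ≠ 0 := h0 ▸ Complex.exp_ne_zero _
  have h2 : DifferentiableAt ℂ (fun w => h z + Complex.log (E w / E z)) z :=
    (DifferentiableAt.clog (f := fun w => E w / E z) (hE.div_const _)
      (by rw [div_self h1]; exact Complex.one_mem_slitPlane)).const_add _
  refine h2.congr_of_eventuallyEq ?_
  filter_upwards [he, hh.eventually (ball_mem_nhds (h z) one_pos)] with w h3 h4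
  rw [dist_eq_norm] at h4
  have h5 := abs_lt.1 ((Complex.abs_im_le_norm _).trans_lt h4)
  rw [← h3, ← h0, ← Complex.exp_sub, Complex.log_exp (by linarith [h5.1, Real.pi_gt_three])
    (by linarith [h5.2, Real.pi_gt_three])]
  ring

end Pool.Agent.Lib.MP_1b82cc_an
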