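import Pool.Agent.Lib.MP_1b82cc_an.Loc1

/-!
Continuous logarithms: on compact sets with connected complement (Borsuk), and on increasing
unions of such sets in a locally connected space.
-/

namespace Pool.Agent.Lib.MP_1b82cc_an

open Set Metric Filter Topology Complex Polynomial
open Pool.Agent.Lib.MP_8daebb_an.SV

variable {K : Set ℂ}

/-- `G` has a continuous logarithm on `K`. -/
def HasLog (K : Set ℂ) (G : ℂ → ℂ) : Prop :=
  ∃ h : ℂ → ℂ, ContinuousOn h K ∧ ∀ z ∈ K, exp (h z) = G z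

lemma HasLog.mul {F G : ℂ → ℂ} (hF : HasLog K F) (hG : HasLog K G) :
    HasLog K fun z => F z * G z := by
  obtain ⟨a, h1, h2⟩ := hF
  obtain ⟨b, h3, h4⟩ := hG
  exact ⟨fun z => a z + b z, h1.add h3, fun z hz => by rw [exp_add, h2 z hz, h4 z hz]⟩

lemma HasLog.congr {F G : ℂ → ℂ} (hF : HasLog K F) (h : ∀ z ∈ K, F z = G z) : HasLog K G := by
  obtain ⟨a, h1, h2⟩ := hF
  exact ⟨a, h1, fun z hz => (h2 z hz).trans (h z hz)⟩

lemma hasLog_const {c : ℂ} (hc : c ≠ 0) : HasLog K fun _ => c :=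
  ⟨fun _ => log c, continuousOn_const, fun _ _ => exp_log hc⟩

/-- A function close to a function with a logarithm has a logarithm. -/
lemma HasLog.of_close {F G : ℂ → ℂ} (hF : HasLog K F) (hG : ContinuousOn G K)
    (h : ∀ z ∈ K, ‖F z - G z‖ < ‖G z‖) : HasLog K G := by
  obtain ⟨a, h1, h2⟩ := hF
  have hG0 : ∀ z ∈ K, G z ≠ 0 := fun z hz => norm_pos_iff.1 ((norm_nonneg _).trans_lt (h z hz))
  have h3 : ∀ z ∈ K, 1 + (exp (a z) - G z) / G z ∈ slitPlane := fun z hz =>
    mem_slitPlane_of_norm_lt_one (by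
      rw [norm_div, div_lt_one (norm_pos_iff.2 (hG0 z hz)), h2 z hz]; exact h z hz)
  refine ⟨fun z => a z - log (1 + (exp (a z) - G z) / G z), h1.sub (ContinuousOn.clog
    (continuousOn_const.add ((h1.cexp.sub hG).div hG hG0)) h3), fun z hz => ?_⟩
  have h4 := hG0 z hz
  have h5 := exp_ne_zero (a z)
  rw [exp_sub, exp_log (slitPlane_ne_zero (h3 z hz)), add_div' _ _ _ h4]
  simp only [one_mul, add_sub_cancel]
  field_simp

lemma hasLog_lin (hK : IsCompact K) (hc : IsPreconnected Kᶜ) {a : ℂ} (ha : a ∉ K) :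
    HasLog K fun z => z - a := by
  obtain ⟨R, hR0, hR⟩ := hK.isBounded.subset_ball_lt 0 0
  have hRK : (2 * R : ℂ) ∉ K := fun h => by
    have := mem_ball_zero_iff.1 (hR h)
    rw [norm_mul, Complex.norm_ofNat, Complex.norm_real, Real.norm_of_nonneg hR0.le] at this
    linarith
  refine hc.induction₂' (fun x y => HasLog K (fun z => z - x) → HasLog K fun z => z - y)
    (fun x hx => ?_) (fun _ _ _ _ _ _ h1 h2 h => h2 (h1 h)) hRK ha ?_
  · obtain ⟨r, hr, hb⟩ := Metric.isOpen_iff.1 hK.isClosed.isOpen_compl x hx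
    have hz : ∀ z ∈ K, r ≤ ‖z - x‖ := fun z hz => le_of_not_gt fun h =>
      hb (by simpa [dist_eq_norm] using h) hz
    filter_upwards [mem_nhdsWithin_of_mem_nhds (ball_mem_nhds x (half_pos hr))] with y hy
    rw [mem_ball, dist_eq_norm] at hy
    refine ⟨fun h => h.of_close (by fun_prop) fun z hzK => ?_,
      fun h => h.of_close (by fun_prop) fun z hzK => ?_⟩
    · rw [sub_sub_sub_cancel_left]
      linarith [hz z hzK, norm_sub_le_norm_sub_add_norm_sub z y x]
    · rw [sub_sub_sub_cancel_left, norm_sub_rev]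
      linarith [hz z hzK]
  · have h0 : -(2 * R : ℂ) ≠ 0 := by simp [hR0.ne']
    refine (hasLog_const h0).of_close (by fun_prop) fun z hz => ?_
    have h1 := mem_ball_zero_iff.1 (hR hz)
    have h2 := norm_sub_le_norm_sub_add_norm_sub (0 : ℂ) z (2 * R)
    rw [zero_sub, zero_sub, norm_neg, norm_neg, norm_mul, Complex.norm_ofNat, Complex.norm_real,
      Real.norm_of_nonneg hR0.le] at h2
    rw [show -(2 * R : ℂ) - (z - 2 * R) = -z by ring, norm_neg]
    linarith

lemma hasLog_poly (hK : IsCompact K) (hc : IsPreconnected Kᶜ) {q : ℂ[X]} (hq0 : q ≠ 0)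
    (hq : ∀ z ∈ K, q.eval z ≠ 0) : HasLog K fun z => q.eval z := by
  have key : ∀ s : Multiset ℂ, (∀ a ∈ s, a ∉ K) →
      HasLog K fun z => ((s.map fun a => X - C a).prod).eval z := by
    intro s
    induction s using Multiset.induction_on with
    | empty => exact fun _ => (hasLog_const one_ne_zero).congr (by simp)
    | cons a s ih =>
      exact fun h => ((hasLog_lin hK hc (h a (Multiset.mem_cons_self a s))).mul
        (ih fun b hb => h b (Multiset.mem_cons_of_mem hb))).congr (by simp)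
  refine ((hasLog_const (leadingCoeff_ne_zero.2 hq0)).mul (key q.roots fun a ha haK =>
    hq a haK (isRoot_of_mem_roots ha))).congr fun z _ => ?_
  conv_rhs => rw [← C_leadingCoeff_mul_prod_multiset_X_sub_C (p := q)
    IsAlgClosed.card_roots_eq_natDegree]
  rw [eval_mul, eval_C]

lemma exists_lower (hK : IsCompact K) {G : ℂ → ℂ} (hG : ContinuousOn G K)
    (h0 : ∀ z ∈ K, G z ≠ 0) : ∃ m > 0, ∀ z ∈ K, m ≤ ‖G z‖ :=
  hK.exists_forall_le' hG.norm fun z hz => norm_pos_iff.2 (h0 z hz)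

/-- The theorem of Borsuk. -/
theorem hasLog (hK : IsCompact K) (hc : IsPreconnected Kᶜ) {G : ℂ → ℂ} (hG : ContinuousOn G K)
    (h0 : ∀ z ∈ K, G z ≠ 0) : HasLog K G := by
  rcases K.eq_empty_or_nonempty with rfl | hne
  · exact ⟨0, by simp, by simp⟩
  obtain ⟨m, hm, hm'⟩ := exists_lower hK hG h0
  obtain ⟨v, hv⟩ := ContinuousMap.exists_restrict_eq hK.isClosed
    (⟨K.domRestrict G, hG.domRestrict⟩ : C(K, ℂ))
  obtain ⟨φ, hφ, hφv, -⟩ := v.continuous.exists_contDiff_approx 2 (ε := fun _ => m)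
    continuous_const fun _ => hm
  have hφ : ContDiff ℝ 2 φ := hφ
  have hφG : ∀ z ∈ K, ‖φ z - G z‖ < ‖G z‖ := fun z hz => by
    have h3 : v z = G z := by simpa using congrArg (fun g : C(K, ℂ) => g ⟨z, hz⟩) hv
    have := hφv z
    rw [h3, dist_eq_norm] at this
    exact this.trans_le (hm' z hz)
  have hφ0 : K ⊆ {z | φ z ≠ 0} := fun z hz h => by simpa [h] using hφG z hz
  obtain ⟨β, hβ, hβc, hβU, -, V, hV, hKV, hVU, hV1⟩ := exists_cutoff hK
    (isOpen_ne_fun hφ.continuous continuous_const) hφ0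
  have hρ : ContDiff ℝ 1 fun z => β z • (dbar φ z / φ z) := by
    rw [contDiff_iff_contDiffAt]
    intro z
    by_cases hz : φ z = 0
    · refine (contDiffAt_const (c := (0 : ℂ))).congr_of_eventuallyEq ?_
      filter_upwards [notMem_tsupport_iff_eventuallyEq.1 fun h => hβU h hz] with a ha
      simp [ha]
    · exact (hβ.of_le (by norm_num)).contDiffAt.smul
        (((contDiff_dbar hφ).contDiffAt.mul ((hφ.of_le (m := 1) (by norm_num)).contDiffAt.inv
          hz)).congr_of_eventuallyEq (Eventually.of_forall fun a => div_eq_mul_inv _ _))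
  have hρc : HasCompactSupport fun z => β z • (dbar φ z / φ z) := hβc.smul_right
  set w := ct fun z => β z • (dbar φ z / φ z) with hw
  have d1 : Differentiable ℝ φ := hφ.differentiable (by norm_num)
  have d2 : Differentiable ℝ w := (ct_contDiff hρ hρc).1.differentiable one_ne_zero
  have hE : DifferentiableOn ℂ (fun z => φ z * exp (-w z)) V := fun z hz => by
    have h1 := (d1 z).hasFDerivAt.mul (d2 z).hasFDerivAt.neg.cexp
    refine (differentiableAt_of_dbar h1.differentiableAt ?_).differentiableWithinAt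
    have h2 := dbar_ct hρ hρc z
    have h3 : φ z ≠ 0 := hVU hz
    rw [hV1 z hz, one_smul, ← hw, eq_div_iff h3, dbar, dbar] at h2
    rw [dbar, h1.fderiv]
    simp only [add_apply, smul_apply, neg_apply, smul_eq_mul, Pi.neg_apply]
    linear_combination -exp (-w z) * h2
  have hE0 : ∀ z ∈ K, φ z * exp (-w z) ≠ 0 := fun z hz => mul_ne_zero (hφ0 hz) (exp_ne_zero _)
  obtain ⟨m', hm1, hm2⟩ := exists_lower hK (hE.continuousOn.mono hKV) hE0
  obtain ⟨q, hq⟩ := runge hK hne hc hV hKV hE m' hm1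
  have hq' : ∀ z ∈ K, ‖q.eval z - φ z * exp (-w z)‖ < ‖φ z * exp (-w z)‖ := fun z hz =>
    (hq z hz).trans_le (hm2 z hz)
  have hq1 : ∀ z ∈ K, q.eval z ≠ 0 := fun z hz h => by simpa [h] using hq' z hz
  have hq0 : q ≠ 0 := by
    rintro rfl
    exact hq1 _ hne.some_mem (by simp)
  have h1 := ((hasLog_poly hK hc hq0 hq1).of_close (hE.continuousOn.mono hKV) hq').mul
    (⟨w, d2.continuous.continuousOn, fun _ _ => rfl⟩ : HasLog K fun z => exp (w z))
  refine (h1.congr (G := φ) fun z _ => ?_).of_close hG hφG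
  rw [mul_assoc, ← exp_add, neg_add_cancel, exp_zero, mul_one]

/-- Logarithms on an exhaustion of an open part of a locally connected compact space. -/
theorem global_log {Y : Type} [TopologicalSpace Y] [CompactSpace Y] [T2Space Y]
    [LocallyConnectedSpace Y] {l : Y → ℝ} (hl : Continuous l) {G : Y → ℂ}
    (h : ∀ θ > 0, ∃ h : Y → ℂ, ContinuousOn h {y | θ ≤ l y} ∧ ∀ y, θ ≤ l y → exp (h y) = G y) :
    ∃ h : Y → ℂ, ContinuousOn h {y | 0 < l y} ∧ ∀ y, 0 < l y → exp (h y) = G y := by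
  classical
  choose! h h1 h2 using h
  set O := {y | 0 < l y} with hO
  have hOo : IsOpen O := isOpen_lt continuous_const hl
  have hloc : ∀ x ∈ O, ∃ V, IsOpen V ∧ x ∈ V ∧ IsPreconnected V ∧ closure V ⊆ O := fun x hx => by
    obtain ⟨t, ht, htc, htO⟩ := exists_mem_nhds_isClosed_subset (hOo.mem_nhds hx)
    obtain ⟨V, h1, h2, h3, h4⟩ := locallyConnectedSpace_iff_subsets_isOpen_isConnected.1
      inferInstance x t ht
    exact ⟨V, h2, h3, h4.isPreconnected, (closure_minimal h1 htc).trans htO⟩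
  have hrel : ∀ x ∈ O, ∀ y ∈ connectedComponentIn O x,
      ∃ T, T ⊆ O ∧ IsClosed T ∧ IsPreconnected T ∧ x ∈ T ∧ y ∈ T := fun x hx y hy => by
    refine isPreconnected_connectedComponentIn.induction₂'
      (fun x y => ∃ T, T ⊆ O ∧ IsClosed T ∧ IsPreconnected T ∧ x ∈ T ∧ y ∈ T) (fun a ha => ?_) ?_
      (mem_connectedComponentIn hx) hy
    · obtain ⟨V, h1, h2, h3, h4⟩ := hloc a (connectedComponentIn_subset _ _ ha)
      filter_upwards [mem_nhdsWithin_of_mem_nhds (h1.mem_nhds h2)] with b hb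
      exact ⟨⟨_, h4, isClosed_closure, h3.closure, subset_closure h2, subset_closure hb⟩,
        ⟨_, h4, isClosed_closure, h3.closure, subset_closure hb, subset_closure h2⟩⟩
    · rintro a b c - - - ⟨T, h1, h2, h3, h4, h5⟩ ⟨T', h1', h2', h3', h4', h5'⟩
      exact ⟨T ∪ T', union_subset h1 h1', h2.union h2', h3.union b h5 h4' h3', Or.inl h4, Or.inr h5'⟩
  have hlow : ∀ T ⊆ O, IsClosed T → ∃ θ > 0, ∀ y ∈ T, θ ≤ l y := fun T hT hc =>
    hc.isCompact.exists_forall_le' hl.continuousOn hT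
  have hconst : ∀ T, IsPreconnected T → ∀ θ > 0, ∀ θ' > 0, (∀ y ∈ T, θ ≤ l y) →
      (∀ y ∈ T, θ' ≤ l y) → ∀ x ∈ T, ∀ y ∈ T, h θ x - h θ' x = h θ y - h θ' y := by
    intro T hT θ hθ θ' hθ' a1 a2 x hx y hy
    have key : ∀ a ∈ T, exp (h θ a - h θ' a) = 1 := fun a ha => by
      rw [exp_sub, h2 θ hθ a (a1 a ha), ← h2 θ' hθ' a (a2 a ha), div_self (exp_ne_zero _)]
    exact isCoveringMap_exp.constOn_of_comp hT (g := fun a => h θ a - h θ' a)
      (((h1 θ hθ).mono a1).sub ((h1 θ' hθ').mono a2))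
      (fun a ha b hb => Subtype.ext ((key a ha).trans (key b hb).symm)) hx hy
  let b : Y → Y := fun x => @Classical.epsilon Y ⟨x⟩ (· ∈ connectedComponentIn O x)
  have hb : ∀ x ∈ O, b x ∈ connectedComponentIn O x := fun x hx =>
    Classical.epsilon_spec (p := (· ∈ connectedComponentIn O x)) ⟨x, mem_connectedComponentIn hx⟩
  have hN : ∀ x ∈ O, ∃ T θ, T ⊆ O ∧ IsClosed T ∧ IsPreconnected T ∧ x ∈ T ∧ b x ∈ T ∧ 0 < θ ∧
      ∀ y ∈ T, θ ≤ l y := fun x hx => by
    obtain ⟨T, a1, a2, a3, a4, a5⟩ := hrel x hx _ (hb x hx)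
    obtain ⟨θ, a6, a7⟩ := hlow T a1 a2
    exact ⟨T, θ, a1, a2, a3, a4, a5, a6, a7⟩
  choose! T θ a1 a2 a3 a4 a5 a6 a7 using hN
  refine ⟨fun x => h (θ x) x - h (θ x) (b x) + log (G (b x)), fun x hx => ?_, fun x hx => ?_⟩
  · obtain ⟨V, v1, v2, v3, v4⟩ := hloc x hx
    have hT' : IsPreconnected (T x ∪ closure V) :=
      (a3 x hx).union x (a4 x hx) (subset_closure v2) v3.closure
    obtain ⟨θ', b1, b2⟩ := hlow _ (union_subset (a1 x hx) v4) ((a2 x hx).union isClosed_closure)
    have c1 : ContinuousAt (fun y => h θ' y - h θ' (b x) + log (G (b x))) x :=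
      ((((h1 θ' b1).mono fun y hy => b2 y (Or.inr (subset_closure hy))).continuousAt
        (v1.mem_nhds v2)).sub continuousAt_const).add continuousAt_const
    refine (c1.congr ?_).continuousWithinAt
    filter_upwards [v1.mem_nhds v2] with y hy
    have hyO : y ∈ O := v4 (subset_closure hy)
    have hbb : b y = b x := by
      have := connectedComponentIn_eq (v3.subset_connectedComponentIn v2
        (subset_closure.trans v4) hy)
      simp only [b, this]
    have m0 : 0 < min θ' (θ y) := lt_min b1 (a6 y hyO)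
    have e1 := hconst _ hT' θ' b1 _ m0 b2 (fun a ha => (min_le_left _ _).trans (b2 a ha)) y
      (Or.inr (subset_closure hy)) (b x) (Or.inl (a5 x hx))
    have e2 := hconst _ (a3 y hyO) _ (a6 y hyO) _ m0 (a7 y hyO)
      (fun a ha => (min_le_right _ _).trans (a7 y hyO a ha)) y (a4 y hyO) (b y) (a5 y hyO)
    rw [hbb] at e2 ⊢
    linear_combination e1 - e2
  · have e1 := h2 _ (a6 x hx) x (a7 x hx x (a4 x hx))
    have e2 := h2 _ (a6 x hx) (b x) (a7 x hx _ (a5 x hx))
    have e3 : G (b x) ≠ 0 := e2 ▸ exp_ne_zero _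
    rw [exp_add, exp_sub, e1, e2, exp_log e3, div_mul_cancel₀ _ e3]

end Pool.Agent.Lib.MP_1b82cc_an
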