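import Pool.Agent.Lib.MP_1b82cc_an.Glue
import Pool.Agent.Lib.MP_1b82cc_an.Log1

/-!
Level sets of a function of the class `F(K)` and a bounded substitute for its logarithm.
-/

namespace Pool.Agent.Lib.MP_1b82cc_an

open Set Metric Filter Topology Polynomial OnePoint

/-- The square of the chordal distance to infinity. -/
noncomputable def lam (a : OnePoint ℂ) : ℝ := (st a).2

/-- The finite value. -/
noncomputable def fv (a : OnePoint ℂ) : ℂ := (st a).1 / (lam a : ℂ)

/-- The part of `K` where `f` keeps away from infinity. -/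
def lev (K : Set ℂ) (f : ℂ → OnePoint ℂ) (θ : ℝ) : Set ℂ := K ∩ (fun z => lam (f z)) ⁻¹' Ici θ

/-- A bounded function of `t`. -/
noncomputable def mob (s : ℝ) (f : ℂ → OnePoint ℂ) (t : ℂ → ℂ) (z : ℂ) : ℂ :=
  (1 - if lam (f z) = 0 then 0 else (1 + s * t z)⁻¹) / s

variable {K : Set ℂ} {f : ℂ → OnePoint ℂ}

lemma lam_coe (a : ℂ) : lam a = 1 / (1 + ‖a‖ ^ 2) := rfl

lemma lam_infty : lam ∞ = 0 := rfl

lemma lam_coe_ne (a : ℂ) : lam a ≠ 0 := by rw [lam_coe]; positivity

lemma fv_coe (a : ℂ) : fv a = a := by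
  have : ((1 + ‖a‖ ^ 2 : ℝ) : ℂ) ≠ 0 := Complex.ofReal_ne_zero.2 (by positivity)
  rw [fv, st_coe, lam_coe, Complex.ofReal_div, Complex.ofReal_one]
  field_simp

lemma lam_nonneg (a : OnePoint ℂ) : 0 ≤ lam a := by
  induction a using OnePoint.rec with
  | infty => exact le_rfl
  | coe a => rw [lam_coe]; positivity

lemma eq_coe {a : OnePoint ℂ} (h : lam a ≠ 0) : a = (fv a : ℂ) := by
  induction a using OnePoint.rec with
  | infty => exact absurd rfl h
  | coe a => rw [fv_coe]

lemma eq_infty {a : OnePoint ℂ} (h : lam a = 0) : a = ∞ := by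
  induction a using OnePoint.rec with
  | infty => rfl
  | coe a => exact absurd h (lam_coe_ne a)

lemma lam_mul {a : OnePoint ℂ} (h : lam a ≠ 0) : lam a * (1 + ‖fv a‖ ^ 2) = 1 := by
  induction a using OnePoint.rec with
  | infty => exact absurd rfl h
  | coe a => rw [fv_coe, lam_coe]; field_simp

lemma continuous_lam : Continuous lam := continuous_st.snd

lemma continuousOn_fv (hf : ContinuousOn f K) (h : ∀ z ∈ K, lam (f z) ≠ 0) :
    ContinuousOn (fun z => fv (f z)) K :=
  (continuous_st.fst.comp_continuousOn hf).div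
    ((Complex.continuous_ofReal.comp continuous_lam).comp_continuousOn hf)
    fun z hz => Complex.ofReal_ne_zero.2 (h z hz)

lemma InClass.local (hf : InClass K f) {z : ℂ} (hz : z ∈ interior K) :
    (∀ᶠ w in 𝓝 z, lam (f w) = 0) ∨
      ((∀ᶠ w in 𝓝 z, lam (f w) ≠ 0) ∧ DifferentiableAt ℂ (fun w => fv (f w)) z) := by
  have h1 := isOpen_interior.connectedComponentIn.mem_nhds (mem_connectedComponentIn hz)
  refine (hf.2 z hz).imp (fun h => ?_) fun ⟨g, h2, h3⟩ => ⟨?_, ?_⟩
  · filter_upwards [h1] with w hw using by rw [h w hw, lam_infty]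
  · filter_upwards [h1] with w hw using by rw [h3 w hw]; exact lam_coe_ne _
  · refine (h2.differentiableAt h1).congr_of_eventuallyEq ?_
    filter_upwards [h1] with w hw using by rw [h3 w hw, fv_coe]

lemma isCompact_lev (hK : IsCompact K) (hf : ContinuousOn f K) (θ : ℝ) : IsCompact (lev K f θ) :=
  hK.of_isClosed_subset ((continuous_lam.comp_continuousOn hf).preimage_isClosed_of_isClosed
    hK.isClosed isClosed_Ici) inter_subset_left

lemma compl_lev (hK : IsCompact K) (hc : IsPreconnected Kᶜ) (hf : InClass K f) {θ : ℝ}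
    (hθ : 0 < θ) : IsPreconnected (lev K f θ)ᶜ := by
  refine compl_of_holes hK hc (isCompact_lev hK hf.1 θ).isClosed inter_subset_left
    fun W hWo hW hWK hfr z hz ⟨w, hw⟩ => ⟨hWK hz, ?_⟩
  have h1 : W ⊆ interior K := interior_maximal hWK hWo
  have h2 := hW.subset_connectedComponentIn hz h1
  have h3 : closure W ⊆ K := closure_minimal hWK hK.isClosed
  rcases hf.2 z (h1 hz) with h | ⟨g, h4, h5⟩
  · have : EqOn (fun z => lam (f z)) (fun _ => 0) (closure W) :=
      EqOn.of_subset_closure (s := W) (fun a ha => by simp only [h a (h2 ha), lam_infty])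
        (continuous_lam.comp_continuousOn (hf.1.mono h3)) continuousOn_const subset_closure
        Subset.rfl
    have h6 : lam (f w) = 0 := this hw.1
    have h7 : θ ≤ lam (f w) := (hfr hw).2
    exact absurd (h6 ▸ h7) (not_le.2 hθ)
  · have h6 : ∀ a ∈ closure W, lam (f a) ≠ 0 := fun a ha => by
      rw [closure_eq_self_union_frontier] at ha
      rcases ha with ha | ha
      · rw [h5 a (h2 ha)]; exact lam_coe_ne _
      · exact (hθ.trans_le (hfr ha).2).ne'
    have h7 := Complex.norm_le_of_forall_mem_frontier_norm_le (hK.isBounded.subset hWK)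
      (f := fun a => fv (f a)) ⟨(h4.mono h2).congr fun a ha => by rw [h5 a (h2 ha), fv_coe],
        continuousOn_fv (hf.1.mono h3) h6⟩ (C := √(1 / θ - 1)) (fun a ha => by
        apply Real.le_sqrt_of_sq_le
        have h8 := lam_mul (h6 a ha.1)
        have h9 : θ ≤ lam (f a) := (hfr ha).2
        rw [le_sub_iff_add_le, le_div_iff₀ hθ]
        nlinarith [sq_nonneg ‖fv (f a)‖]) (subset_closure hz)
    have h8 := lam_mul (h6 w hw.1)
    have h9 : θ ≤ lam (f w) := (hfr hw).2
    have h10 : 0 ≤ 1 / θ - 1 := by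
      rw [sub_nonneg, le_div_iff₀ hθ]
      nlinarith [sq_nonneg ‖fv (f w)‖]
    have h11 := (Real.le_sqrt (norm_nonneg _) h10).1 h7
    have h12 := lam_mul (h6 z (subset_closure hz))
    rw [le_sub_iff_add_le, le_div_iff₀ hθ] at h11
    show θ ≤ lam (f z)
    by_contra h13
    nlinarith [sq_nonneg ‖fv (f z)‖, not_le.1 h13]

lemma exists_factor {p : ℂ[X]} (hp : p ≠ 0) (S : Set ℂ) : ∃ p₁ p₂ : ℂ[X], p = p₁ * p₂ ∧
    (∀ z, p₁.eval z = 0 → z ∈ S) ∧ ∀ z ∈ S, p₂.eval z ≠ 0 := by
  classical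
  have key : ∀ (s : Multiset ℂ) z, ((s.map fun a => X - C a).prod).eval z = 0 → z ∈ s := by
    intro s z h
    rw [eval_multiset_prod, Multiset.prod_eq_zero_iff, Multiset.map_map, Multiset.mem_map] at h
    obtain ⟨a, ha, h⟩ := h
    simp only [Function.comp, eval_sub, eval_X, eval_C, sub_eq_zero] at h
    exact h ▸ ha
  refine ⟨((p.roots.filter (· ∈ S)).map fun a => X - C a).prod, C p.leadingCoeff *
    ((p.roots.filter fun a => ¬a ∈ S).map fun a => X - C a).prod, ?_,
    fun z hz => (Multiset.mem_filter.1 (key _ z hz)).2, fun z hz h => ?_⟩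
  · rw [mul_left_comm, ← Multiset.prod_add, ← Multiset.map_add, Multiset.filter_add_not,
      C_leadingCoeff_mul_prod_multiset_X_sub_C IsAlgClosed.card_roots_eq_natDegree]
  · rw [eval_mul, eval_C, mul_eq_zero, or_iff_right (leadingCoeff_ne_zero.2 hp)] at h
    exact (Multiset.mem_filter.1 (key _ z h)).2 hz

lemma le_norm_den {s T : ℝ} {t : ℂ} (hs : 0 < s) (h : T ≤ t.re) : 1 + s * T ≤ ‖1 + s * t‖ := by
  refine le_trans ?_ (Complex.re_le_norm _)
  simp only [Complex.add_re, Complex.one_re, Complex.re_ofReal_mul]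
  nlinarith

lemma one_le_den {s : ℝ} {t : ℂ} (hs : 0 < s) (h : 0 ≤ t.re) : 1 ≤ ‖1 + s * t‖ := by
  simpa using le_norm_den hs h

lemma mob_sub_mob {s : ℝ} (hs : 0 < s) {t t' : ℂ → ℂ} {z : ℂ}
    (h : lam (f z) ≠ 0 → 0 ≤ (t z).re ∧ 0 ≤ (t' z).re) {η : ℝ} (hη : 0 ≤ η)
    (h' : lam (f z) ≠ 0 → ‖t z - t' z‖ ≤ η) : ‖mob s f t z - mob s f t' z‖ ≤ η := by
  by_cases hz : lam (f z) = 0
  · simp [mob, hz, hη]
  have h1 := one_le_den hs (h hz).1
  have h2 := one_le_den hs (h hz).2
  have h3 : (1 + s * t z) ≠ 0 := norm_pos_iff.1 (by linarith)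
  have h4 : (1 + s * t' z) ≠ 0 := norm_pos_iff.1 (by linarith)
  have h5 : (s : ℂ) ≠ 0 := Complex.ofReal_ne_zero.2 hs.ne'
  have h6 : mob s f t z - mob s f t' z = (t z - t' z) / ((1 + s * t z) * (1 + s * t' z)) := by
    simp only [mob, if_neg hz]
    field_simp
    ring
  rw [h6, norm_div, norm_mul]
  exact (div_le_self (norm_nonneg _) (one_le_mul_of_one_le_of_one_le h1 h2)).trans (h' hz)

lemma mob_sub_self {s : ℝ} (hs : 0 < s) {t : ℂ → ℂ} {z : ℂ} (hz : lam (f z) ≠ 0)
    (h : 0 ≤ (t z).re) : ‖mob s f t z - t z‖ ≤ s * ‖t z‖ ^ 2 := by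
  have h1 := one_le_den hs h
  have h3 : (1 + s * t z) ≠ 0 := norm_pos_iff.1 (by linarith)
  have h5 : (s : ℂ) ≠ 0 := Complex.ofReal_ne_zero.2 hs.ne'
  have h6 : mob s f t z - t z = -(s * t z ^ 2) / (1 + s * t z) := by
    simp only [mob, if_neg hz]
    field_simp
    ring
  rw [h6, norm_div, norm_neg, norm_mul, norm_pow, Complex.norm_real, Real.norm_of_nonneg hs.le]
  exact div_le_self (by positivity) h1

lemma re_mob {s T : ℝ} (hs : 0 < s) (hT : 0 ≤ T) {t : ℂ → ℂ} {z : ℂ}
    (h : lam (f z) ≠ 0 → T ≤ (t z).re) : T - s * T ^ 2 ≤ (mob s f t z).re := by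
  have h0 : 0 < 1 + s * T := by positivity
  have h1 : (if lam (f z) = 0 then 0 else (1 + s * t z)⁻¹ : ℂ).re ≤ (1 + s * T)⁻¹ := by
    split_ifs with hz
    · rw [Complex.zero_re]; positivity
    · refine (Complex.re_le_norm _).trans ?_
      rw [norm_inv]
      exact inv_anti₀ h0 (le_norm_den hs (h hz))
  have h2 : (1 + s * T)⁻¹ = 1 - s * T + (s * T) ^ 2 - (s * T) ^ 3 / (1 + s * T) := by
    field_simp; ring
  have h3 : 0 ≤ (s * T) ^ 3 / (1 + s * T) := by positivity
  rw [mob, Complex.div_ofReal_re, le_div_iff₀ hs, Complex.sub_re, Complex.one_re]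
  nlinarith

lemma approx_mob (hK : IsCompact K) (hc : IsPreconnected Kᶜ) (hf : InClass K f) {s : ℝ}
    (hs : 0 < s) {t E : ℂ → ℂ} (ht : ContinuousOn t {z ∈ K | lam (f z) ≠ 0})
    (hre : ∀ z ∈ K, lam (f z) ≠ 0 → 0 ≤ (t z).re)
    (hgr : ∀ T, ∃ θ > 0, ∀ z ∈ K, lam (f z) ≠ 0 → lam (f z) < θ → T ≤ (t z).re)
    (hE : ∀ z ∈ K, DifferentiableAt ℂ (fun w => fv (f w)) z → DifferentiableAt ℂ E z)
    (he : ∀ z ∈ K, lam (f z) ≠ 0 → Complex.exp (t z) = E z) : Approx K (mob s f t) := by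
  have hl : ContinuousOn (fun z => lam (f z)) K := continuous_lam.comp_continuousOn hf.1
  have hden : ∀ z ∈ K, lam (f z) ≠ 0 → 1 + s * t z ≠ 0 := fun z hz h =>
    norm_pos_iff.1 (one_pos.trans_le (one_le_den hs (hre z hz h)))
  refine mergelyan hK hc ((continuousOn_const.sub fun z hz => ?_).div_const _) fun z hz => ?_
  · by_cases h : lam (f z) = 0
    · rw [ContinuousWithinAt, if_pos h, Metric.tendsto_nhds]
      intro ε hε
      obtain ⟨θ, hθ, h1⟩ := hgr (1 / (s * ε))
      filter_upwards [self_mem_nhdsWithin, (hl z hz).eventually (gt_mem_nhds (h ▸ hθ))]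
        with w hw h2
      split_ifs with h3
      · simpa using hε
      · have h4 := le_norm_den hs (h1 w hw h3 h2)
        have h5 : s * (1 / (s * ε)) = ε⁻¹ := by field_simp
        rw [dist_zero_right, norm_inv]
        exact inv_lt_of_inv_lt₀ hε (by linarith)
    · have h1 : ∀ᶠ w in 𝓝[K] z, lam (f w) ≠ 0 := (hl z hz).eventually_ne h
      have h2 : ContinuousWithinAt t K z := (ht z ⟨hz, h⟩).mono_of_mem_nhdsWithin
        (by filter_upwards [self_mem_nhdsWithin, h1] with w a b using ⟨a, b⟩)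
      refine ((continuousWithinAt_const.add (continuousWithinAt_const.mul h2)).inv₀
        (hden z hz h)).congr_of_eventuallyEq ?_ (if_neg h)
      filter_upwards [h1] with w hw using if_neg hw
  · have hzK := mem_interior_iff_mem_nhds.1 hz
    refine DifferentiableAt.differentiableWithinAt ?_
    rcases hf.local hz with h | ⟨h1, h2⟩
    · refine (differentiableAt_const ((1 - 0) / (s : ℂ))).congr_of_eventuallyEq ?_
      filter_upwards [h] with w hw using by rw [mob, if_pos hw]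
    · have h3 : DifferentiableAt ℂ t z := differentiableAt_of_exp (ht.continuousAt
        (by filter_upwards [hzK, h1] with w a b using ⟨a, b⟩)) (hE z (interior_subset hz) h2)
        (by filter_upwards [hzK, h1] with w a b using he w a b)
      refine ((((h3.const_mul (s : ℂ)).const_add 1).inv (hden z (interior_subset hz)
        h1.self_of_nhds)).const_sub 1).div_const (s : ℂ) |>.congr_of_eventuallyEq ?_
      filter_upwards [h1] with w hw using by rw [mob, if_neg hw]; rfl

/-- Approximation on a piece where `exp h` is close to a holomorphic function. -/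
lemma piece (hK : IsCompact K) (hc : IsPreconnected Kᶜ) (hf : InClass K f) {s η : ℝ}
    (hs : 0 < s) (hη : 0 < η) (hη' : η ≤ 1 / 4) {t E : ℂ → ℂ}
    (ht : ContinuousOn t {z ∈ K | lam (f z) ≠ 0})
    (hre : ∀ z ∈ K, lam (f z) ≠ 0 → 1 ≤ (t z).re)
    (hgr : ∀ T, ∃ θ > 0, ∀ z ∈ K, lam (f z) ≠ 0 → lam (f z) < θ → T ≤ (t z).re)
    (hEc : ContinuousOn E {z ∈ K | lam (f z) ≠ 0})
    (hE : ∀ z ∈ K, DifferentiableAt ℂ (fun w => fv (f w)) z → DifferentiableAt ℂ E z)
    (he : ∀ z ∈ K, lam (f z) ≠ 0 → E z ≠ 0 ∧ ‖Complex.exp (t z) / E z - 1‖ ≤ 2 * η) :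
    ∃ p : ℂ[X], ∀ z ∈ K, ‖p.eval z - mob s f t z‖ ≤ 4 * η := by
  have h1 : ∀ z ∈ K, lam (f z) ≠ 0 → ‖Complex.log (Complex.exp (t z) / E z)‖ ≤ 3 * η := by
    intro z hz h
    have := Complex.norm_log_one_add_half_le_self ((he z hz h).2.trans (by linarith))
    rw [add_sub_cancel] at this
    linarith [(he z hz h).2]
  have h2 : ∀ z ∈ K, lam (f z) ≠ 0 →
      (t z).re - 1 ≤ (t z - Complex.log (Complex.exp (t z) / E z)).re := fun z hz h => by
    rw [Complex.sub_re]
    linarith [Complex.re_le_norm (Complex.log (Complex.exp (t z) / E z)), h1 z hz h]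
  obtain ⟨p, hp⟩ := approx_mob hK hc hf hs
    (t := fun z => t z - Complex.log (Complex.exp (t z) / E z)) (E := E)
    (ht.sub ((ht.cexp.div hEc fun z hz => (he z hz.1 hz.2).1).clog fun z hz => by
      have := Complex.mem_slitPlane_of_norm_lt_one ((he z hz.1 hz.2).2.trans_lt (by linarith))
      rwa [add_sub_cancel] at this))
    (fun z hz h => by linarith [h2 z hz h, hre z hz h])
    (fun T => by
      obtain ⟨θ, hθ, h3⟩ := hgr (T + 1)
      exact ⟨θ, hθ, fun z hz h h' => by linarith [h2 z hz h, h3 z hz h h']⟩) hE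
    (fun z hz h => by
      have h3 := (he z hz h).1
      have h4 := Complex.exp_ne_zero (t z)
      rw [Complex.exp_sub, Complex.exp_log (div_ne_zero h4 h3)]
      field_simp) η hη
  refine ⟨p, fun z hz => ?_⟩
  have h3 := mob_sub_mob (f := f) hs (t := fun z => t z - Complex.log (Complex.exp (t z) / E z))
    (t' := t) (z := z) (fun h => ⟨by linarith [h2 z hz h, hre z hz h], by linarith [hre z hz h]⟩)
    (η := 3 * η) (by positivity) fun h => by simpa using h1 z hz h
  linarith [norm_sub_le_norm_sub_add_norm_sub (p.eval z)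
    (mob s f (fun z => t z - Complex.log (Complex.exp (t z) / E z)) z) (mob s f t z), hp z hz]

lemma dist_st_rel (a y : ℂ) : dist (st (a * y : ℂ)) (st a) ≤ ‖y - 1‖ := by
  refine (le_chordal _ _).trans ?_
  show ‖a * y - a‖ / (√(1 + ‖a * y‖ ^ 2) * √(1 + ‖a‖ ^ 2)) ≤ _
  have h1 : 1 ≤ √(1 + ‖a * y‖ ^ 2) := Real.le_sqrt_of_sq_le (by nlinarith [sq_nonneg ‖a * y‖])
  have h2 : ‖a‖ ≤ √(1 + ‖a‖ ^ 2) := Real.le_sqrt_of_sq_le (by linarith)
  rw [div_le_iff₀ (by positivity), ← mul_sub_one, norm_mul, mul_comm]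
  exact mul_le_mul_of_nonneg_left (h2.trans (le_mul_of_one_le_left (by positivity) h1))
    (norm_nonneg _)

end Pool.Agent.Lib.MP_1b82cc_an
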