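import Pool.Agent.Lib.MP_1b82cc_an.LC1

/-!
Chordal approximation on locally connected sets and on sets without interior.
-/

namespace Pool.Agent.Lib.MP_1b82cc_an

open Set Metric Filter Topology Polynomial OnePoint

variable {K : Set ℂ} {f : ℂ → OnePoint ℂ} {ε : ℝ}

/-- A function without zeros that is close to `f / p₁` and to `p₂`. -/
lemma exists_gamma (hK : IsCompact K) (hc : IsPreconnected Kᶜ) (hf : InClass K f) {η : ℝ}
    (hη : 0 < η) (hη' : η ≤ 1 / 4) : ∃ (p₁ p₂ : ℂ[X]) (Γ : ℂ → ℂ),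
      ContinuousOn Γ {z ∈ K | lam (f z) ≠ 0} ∧
      (∀ z ∈ K, 1 / 5 ≤ lam (f z) → p₂.eval z ≠ 0 ∧ ‖Γ z / p₂.eval z - 1‖ ≤ 2 * η) ∧
      (∀ z ∈ K, lam (f z) ≤ 1 / 2 → p₁.eval z ≠ 0) ∧
      (∀ z ∈ K, lam (f z) ≠ 0 → lam (f z) ≤ 1 / 2 →
        1 ≤ ‖fv (f z)‖ ∧ ‖Γ z / (fv (f z) / p₁.eval z) - 1‖ ≤ 2 * η) ∧
      ∀ z ∈ K, lam (f z) ≠ 0 → ‖p₁.eval z * Γ z - fv (f z)‖ ≤ η := by
  have hl : ContinuousOn (fun z => lam (f z)) K := continuous_lam.comp_continuousOn hf.1
  have h5 : ∀ z, 1 / 5 ≤ lam (f z) → lam (f z) ≠ 0 := fun z h => ne_of_gt (by linarith)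
  obtain ⟨q, hq⟩ := mergelyan (isCompact_lev hK hf.1 (1 / 5)) (compl_lev hK hc hf (by norm_num))
    (continuousOn_fv (hf.1.mono inter_subset_left) fun z hz => h5 z hz.2) (fun z hz =>
      ((hf.local (interior_mono inter_subset_left hz)).elim (fun h => absurd h.self_of_nhds
        (h5 z (interior_subset hz).2)) fun h => h.2).differentiableWithinAt) (η / 2) (half_pos hη)
  obtain ⟨p, hp0, hp⟩ : ∃ p : ℂ[X], p ≠ 0 ∧
      ∀ z ∈ K, 1 / 5 ≤ lam (f z) → ‖p.eval z - fv (f z)‖ ≤ η := by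
    by_cases h : q = 0
    · refine ⟨C ((η / 2 : ℝ) : ℂ), C_ne_zero.2 (Complex.ofReal_ne_zero.2 (half_pos hη).ne'),
        fun z hz h' => ?_⟩
      have h1 := hq z ⟨hz, h'⟩
      rw [h, eval_zero, zero_sub, norm_neg] at h1
      have h2 := norm_sub_le ((η / 2 : ℝ) : ℂ) (fv (f z))
      rw [Complex.norm_real, Real.norm_of_nonneg (half_pos hη).le] at h2
      rw [eval_C]; linarith
    · exact ⟨q, h, fun z hz h' => by linarith [hq z ⟨hz, h'⟩]⟩
  obtain ⟨p₁, p₂, hpp, h1, h2⟩ := exists_factor hp0 (lev K f (1 / 5))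
  have hev : ∀ z, p.eval z = p₁.eval z * p₂.eval z := fun z => by rw [hpp, eval_mul]
  have hp₁ : ∀ z, lam (f z) ≤ 3 / 5 → p₁.eval z ≠ 0 := fun z h h' => by
    have a1 := h1 z h'
    have a2 := hp z a1.1 a1.2
    have a3 := lam_mul (h5 z a1.2)
    rw [hev, h', zero_mul, zero_sub, norm_neg] at a2
    nlinarith [norm_nonneg (fv (f z)), lam_nonneg (f z)]
  have hF : ∀ z, lam (f z) ≠ 0 → lam (f z) ≤ 1 / 2 → 1 ≤ ‖fv (f z)‖ := fun z h h' => by
    refine le_of_sq_le_sq ?_ (norm_nonneg _)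
    nlinarith [lam_mul h, sq_nonneg ‖fv (f z)‖]
  let β : ℂ → ℝ := fun z => max 0 (min 1 (5 / 3 - 10 / 3 * lam (f z)))
  have hβ0 : ∀ z, 0 ≤ β z := fun z => le_max_left _ _
  have hβ1 : ∀ z, β z ≤ 1 := fun z => max_le zero_le_one (min_le_left _ _)
  have hβa : ∀ z, 1 / 2 ≤ lam (f z) → β z = 0 := fun z h =>
    max_eq_left ((min_le_right _ _).trans (by linarith))
  have hβb : ∀ z, lam (f z) ≤ 1 / 5 → β z = 1 := fun z h => by
    simp only [β]
    rw [min_eq_left (by linarith), max_eq_right zero_le_one]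
  have hβc : ContinuousOn β K := continuousOn_const.sup (continuousOn_const.inf
    (continuousOn_const.sub (continuousOn_const.mul hl)))
  let Γ : ℂ → ℂ := fun z => p₂.eval z + β z * (fv (f z) - p.eval z) / p₁.eval z
  have hC : ∀ z, p₁.eval z * Γ z - fv (f z) = ((1 - β z : ℝ) : ℂ) * (p.eval z - fv (f z)) := by
    intro z
    by_cases h : 1 / 2 ≤ lam (f z)
    · simp only [Γ, hβa z h, hev]; push_cast; ring
    · have := hp₁ z (by linarith)
      simp only [Γ, hev]; push_cast; field_simp; ring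
  have hC' : ∀ z ∈ K, ‖p₁.eval z * Γ z - fv (f z)‖ ≤ η := fun z hz => by
    rw [hC, norm_mul, Complex.norm_real, Real.norm_of_nonneg (by linarith [hβ1 z])]
    by_cases h : lam (f z) ≤ 1 / 5
    · rw [hβb z h, sub_self, zero_mul]; exact hη.le
    · nlinarith [hp z hz (by linarith), hβ0 z, hβ1 z, norm_nonneg (p.eval z - fv (f z))]
  refine ⟨p₁, p₂, Γ, fun z hz => ?_, fun z hz h => ⟨h2 z ⟨hz, h⟩, ?_⟩,
    fun z _ h => hp₁ z (by linarith), fun z hz h h' => ⟨hF z h h', ?_⟩, fun z hz _ => hC' z hz⟩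
  · by_cases h : p₁.eval z = 0
    · have a1 : 1 / 2 < lam (f z) := by
        by_contra a2
        exact hp₁ z (by linarith) h
      refine (p₂.continuous.continuousWithinAt (x := z)).congr_of_eventuallyEq ?_
        (by simp [Γ, hβa z a1.le])
      filter_upwards [((hl z hz.1).mono (sep_subset _ _)).eventually (lt_mem_nhds a1)] with w hw
      simp [Γ, hβa w hw.le]
    · exact p₂.continuous.continuousWithinAt.add ((((Complex.continuous_ofReal.comp_continuousOn
        (hβc.mono (sep_subset _ _))) z hz).mul ((continuousOn_fv (hf.1.mono (sep_subset _ _))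
        (fun _ h => h.2) z hz).sub p.continuous.continuousWithinAt)).div
        p₁.continuous.continuousWithinAt h)
  · have a1 := h2 z ⟨hz, h⟩
    by_cases h' : 1 / 2 ≤ lam (f z)
    · simp only [Γ, hβa z h', Complex.ofReal_zero, zero_mul, zero_div, add_zero, div_self a1,
        sub_self, norm_zero]
      positivity
    · have a2 := hp₁ z (by linarith)
      have a3 : Γ z / p₂.eval z - 1 = β z * (fv (f z) - p.eval z) / p.eval z := by
        simp only [Γ, hev]; field_simp; ring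
      have a4 := hp z hz h
      have a5 := norm_sub_norm_le (fv (f z)) (p.eval z)
      have a6 := hF z (h5 z h) (by linarith)
      rw [norm_sub_rev] at a4
      rw [a3, norm_div, norm_mul, Complex.norm_real, Real.norm_of_nonneg (hβ0 z),
        div_le_iff₀ (by linarith)]
      nlinarith [hβ0 z, hβ1 z, norm_nonneg (fv (f z) - p.eval z)]
  · have a1 := hF z h h'
    have a2 := hp₁ z (by linarith)
    have a3 : fv (f z) ≠ 0 := norm_pos_iff.1 (by linarith)
    have a4 : Γ z / (fv (f z) / p₁.eval z) - 1 = (p₁.eval z * Γ z - fv (f z)) / fv (f z) := by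
      field_simp
    rw [a4, norm_div, div_le_iff₀ (by linarith)]
    nlinarith [hC' z hz]

lemma dist_big (hε : 0 < ε) {a : ℂ} (ha : 4 / ε ≤ ‖a‖) : dist (st a) (st ∞) ≤ ε / 4 := by
  have h4 : 0 < 4 / ε := by positivity
  refine (dist_st_infty a (norm_pos_iff.1 (h4.trans_le ha))).trans ?_
  rw [← inv_div 4 ε]
  exact inv_anti₀ h4 ha

/-- Approximation when logarithms on the level sets can be patched together. -/
theorem near_of_log (hK : IsCompact K) (hc : IsPreconnected Kᶜ) (hf : InClass K f)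
    (hlog : ∀ Γ : ℂ → ℂ, (∀ θ > 0, HasLog (lev K f θ) Γ) → HasLog {z ∈ K | lam (f z) ≠ 0} Γ)
    (hε : 0 < ε) : Near K f ε := by
  have hl : ContinuousOn (fun z => lam (f z)) K := continuous_lam.comp_continuousOn hf.1
  obtain ⟨δ, hδ, hu⟩ := Metric.uniformContinuousOn_iff.1
    (hK.uniformContinuousOn_of_continuous hl) (1 / 20) (by norm_num)
  obtain ⟨A, hA, hglue⟩ := glue hK (half_pos hδ)
  set κ := min (ε / 16) (1 / 2) with hκ
  have hκ0 : 0 < κ := lt_min (by positivity) (by norm_num)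
  have hκ1 : κ ≤ ε / 16 := min_le_left _ _
  have hκ2 : κ ≤ 1 / 2 := min_le_right _ _
  set η := κ / (4 * (A + 1)) with hη
  have hη0 : 0 < η := by positivity
  have hη1 : (A + 1) * (4 * η) = κ := by rw [hη]; field_simp
  have hη2 : 4 * η ≤ κ := by nlinarith
  obtain ⟨p₁, p₂, Γ, g1, g2, g3, g4, g5⟩ := exists_gamma hK hc hf hη0 (by linarith)
  obtain ⟨M₁, hM₁0, hM₁⟩ : ∃ M > 0, ∀ z ∈ K, ‖p₁.eval z‖ ≤ M := by
    obtain ⟨M, hM⟩ := hK.exists_bound_of_continuousOn (f := fun z => p₁.eval z)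
      p₁.continuous.continuousOn
    exact ⟨|M| + 1, by positivity, fun z hz => by linarith [hM z hz, le_abs_self M]⟩
  obtain ⟨m₂, hm₂0, hm₂⟩ := exists_lower (isCompact_lev hK hf.1 (1 / 5))
    p₂.continuous.continuousOn fun z hz => (g2 z hz.1 hz.2).1
  obtain ⟨m₁, hm₁0, hm₁⟩ := exists_lower (hK.of_isClosed_subset
    (hl.preimage_isClosed_of_isClosed hK.isClosed (isClosed_Iic (a := 1 / 2))) inter_subset_left)
    p₁.continuous.continuousOn fun z hz => g3 z hz.1 hz.2
  have half : ∀ a b : ℂ, b ≠ 0 → ‖a / b - 1‖ ≤ 2 * η → ‖b‖ / 2 ≤ ‖a‖ := fun a b hb h => by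
    have h1 := norm_sub_norm_le (1 : ℂ) (a / b)
    rw [norm_sub_rev, norm_one, norm_div] at h1
    have h2 : 1 / 2 ≤ ‖a‖ / ‖b‖ := by linarith
    rw [le_div_iff₀ (norm_pos_iff.2 hb)] at h2
    linarith
  have hne : ∀ z ∈ K, lam (f z) ≠ 0 → lam (f z) ≤ 1 / 2 → fv (f z) / p₁.eval z ≠ 0 :=
    fun z hz h h' => div_ne_zero (norm_pos_iff.1 (one_pos.trans_le (g4 z hz h h').1)) (g3 z hz h')
  have lowB : ∀ z ∈ K, lam (f z) ≠ 0 → lam (f z) ≤ 1 / 2 → ‖fv (f z)‖ / (2 * M₁) ≤ ‖Γ z‖ := by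
    intro z hz h h'
    refine le_trans ?_ (half _ _ (hne z hz h h') (g4 z hz h h').2)
    rw [norm_div, div_div, mul_comm]
    exact div_le_div_of_nonneg_left (norm_nonneg _)
      (mul_pos (norm_pos_iff.2 (g3 z hz h')) two_pos) (by linarith [hM₁ z hz])
  set c₀ := min (m₂ / 2) (1 / (2 * M₁)) with hc₀
  have hc₀0 : 0 < c₀ := lt_min (by positivity) (by positivity)
  have low : ∀ z ∈ K, lam (f z) ≠ 0 → c₀ ≤ ‖Γ z‖ := fun z hz h => by
    by_cases h' : lam (f z) ≤ 1 / 2
    · exact (min_le_right _ _).trans ((div_le_div_of_nonneg_right (g4 z hz h h').1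
        (by positivity)).trans (lowB z hz h h'))
    · have h1 := g2 z hz (by linarith)
      have h2 := hm₂ z ⟨hz, show 1 / 5 ≤ lam (f z) by linarith⟩
      linarith [half _ _ h1.1 h1.2, min_le_left (m₂ / 2) (1 / (2 * M₁))]
  obtain ⟨h, h1, h2⟩ := hlog Γ fun θ hθ => hasLog (isCompact_lev hK hf.1 θ)
    (compl_lev hK hc hf hθ) (g1.mono fun z hz => ⟨hz.1, (hθ.trans_le hz.2).ne'⟩)
    fun z hz => norm_pos_iff.1 (hc₀0.trans_le (low z hz.1 (hθ.trans_le hz.2).ne'))
  set A₀ := 1 - Real.log c₀ with hA₀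
  let t : ℂ → ℂ := fun z => h z + A₀
  have ht : ContinuousOn t {z ∈ K | lam (f z) ≠ 0} := h1.add continuousOn_const
  have hre0 : ∀ z ∈ K, lam (f z) ≠ 0 → ∀ T, Real.exp T ≤ ‖Γ z‖ → T + A₀ ≤ (t z).re := by
    intro z hz h' T hT
    rw [← h2 z ⟨hz, h'⟩, Complex.norm_exp, Real.exp_le_exp] at hT
    simp only [t, Complex.add_re, Complex.ofReal_re]
    linarith
  have hre : ∀ z ∈ K, lam (f z) ≠ 0 → 1 ≤ (t z).re := fun z hz h' => by
    have := hre0 z hz h' (Real.log c₀) (by rw [Real.exp_log hc₀0]; exact low z hz h')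
    linarith
  have hbig : ∀ (R : ℝ) (a : OnePoint ℂ), lam a ≠ 0 → lam a < 1 / (1 + R ^ 2) → R ≤ ‖fv a‖ := by
    intro R a h' h''
    refine le_of_sq_le_sq ?_ (norm_nonneg _)
    rw [lt_div_iff₀ (by positivity)] at h''
    linarith [lt_of_mul_lt_mul_left (h''.trans_eq (lam_mul h').symm) (lam_nonneg a)]
  have hgr : ∀ T, ∃ θ > 0, ∀ z ∈ K, lam (f z) ≠ 0 → lam (f z) < θ → T ≤ (t z).re := fun T => by
    refine ⟨min (1 / 2) (1 / (1 + (Real.exp (T - A₀) * (2 * M₁)) ^ 2)),
      lt_min (by norm_num) (by positivity), fun z hz h' h'' => ?_⟩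
    have := hre0 z hz h' (T - A₀) (le_trans ((le_div_iff₀ (by positivity)).2
      (hbig _ _ h' (h''.trans_le (min_le_right _ _))))
      (lowB z hz h' (h''.le.trans (min_le_left _ _))))
    linarith
  set T₀ := max 0 (Real.log (4 / ε / m₁) + 2 + A₀) with hT₀
  have hT₀0 : 0 ≤ T₀ := le_max_left _ _
  obtain ⟨θ₀, hθ₀, hθ₀'⟩ := hgr T₀
  set θ := min θ₀ (min (1 / 2) (1 / (1 + (4 / ε) ^ 2))) with hθ
  have hθ0 : 0 < θ := lt_min hθ₀ (lt_min (by norm_num) (by positivity))
  obtain ⟨M, hM⟩ := (isCompact_lev hK hf.1 θ).exists_bound_of_continuousOn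
    (ht.mono fun z hz => ⟨hz.1, (hθ0.trans_le hz.2).ne'⟩)
  set s := κ / (|M| + T₀ + 1) ^ 2 with hs
  have hs0 : 0 < s := by positivity
  have hs1 : s * (|M| + T₀ + 1) ^ 2 = κ := by rw [hs]; field_simp
  have hexp : ∀ z ∈ K, lam (f z) ≠ 0 → ∀ b : ℂ,
      Complex.exp (t z) / (Complex.exp A₀ * b) = Γ z / b := fun z hz h' b => by
    simp only [t]
    rw [Complex.exp_add, h2 z ⟨hz, h'⟩, mul_comm, mul_div_mul_left _ _ (Complex.exp_ne_zero _)]
  obtain ⟨U, G, u1, u2, u3, u4⟩ := hglue (mob s f t) (4 * η) (by positivity) fun c hcK => by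
    have a1 : ∀ z ∈ K ∩ closedBall c (δ / 2), |lam (f z) - lam (f c)| < 1 / 20 := fun z hz =>
      hu z hz.1 c hcK ((mem_closedBall.1 hz.2).trans_lt (half_lt_self hδ))
    have a2 : {z ∈ K ∩ closedBall c (δ / 2) | lam (f z) ≠ 0} ⊆ {z ∈ K | lam (f z) ≠ 0} :=
      fun z hz => ⟨hz.1.1, hz.2⟩
    have a3 := fun E => piece (hK.inter_right isClosed_closedBall)
      (compl_inter_ball hK hc c (half_pos hδ).le) (hf.mono inter_subset_left) hs0 hη0
      (by linarith) (E := E) (ht.mono a2) (fun z hz => hre z hz.1) fun T => by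
        obtain ⟨θ', b1, b2⟩ := hgr T
        exact ⟨θ', b1, fun z hz => b2 z hz.1⟩
    by_cases hc' : 7 / 20 ≤ lam (f c)
    · refine a3 (fun z => Complex.exp A₀ * p₂.eval z) (by fun_prop)
        (fun z _ _ => (p₂.differentiable z).const_mul _) fun z hz h' => ?_
      have b1 := g2 z hz.1 (by linarith [(abs_lt.1 (a1 z hz)).1])
      rw [hexp z hz.1 h']
      exact ⟨mul_ne_zero (Complex.exp_ne_zero _) b1.1, b1.2⟩
    · have b0 : ∀ z ∈ K ∩ closedBall c (δ / 2), lam (f z) ≤ 1 / 2 := fun z hz => by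
        linarith [(abs_lt.1 (a1 z hz)).2]
      refine a3 (fun z => Complex.exp A₀ * (fv (f z) / p₁.eval z)) (continuousOn_const.mul
        ((continuousOn_fv (hf.1.mono fun z hz => hz.1.1) fun z hz => hz.2).div
          p₁.continuous.continuousOn fun z hz => g3 z hz.1.1 (b0 z hz.1)))
        (fun z hz hd => (hd.div (p₁.differentiable z) (g3 z hz.1 (b0 z hz))).const_mul _)
        fun z hz h' => ?_
      rw [hexp z hz.1 h']
      exact ⟨mul_ne_zero (Complex.exp_ne_zero _) (hne z hz.1 h' (b0 z hz)),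
        (g4 z hz.1 h' (b0 z hz)).2⟩
  refine ⟨U, fun z => p₁.eval z * Complex.exp (G z - A₀), u1, u2,
    p₁.differentiable.differentiableOn.mul (u3.sub_const _).cexp, fun z hz => ?_⟩
  have v1 : ‖G z - mob s f t z‖ ≤ κ := (u4 z hz).trans (by nlinarith)
  by_cases hz' : θ ≤ lam (f z)
  · have h' : lam (f z) ≠ 0 := (hθ0.trans_le hz').ne'
    have v2 : ‖mob s f t z - t z‖ ≤ κ := by
      refine (mob_sub_self hs0 h' (by linarith [hre z hz h'])).trans ?_
      rw [← hs1]
      have := (hM z ⟨hz, hz'⟩).trans (le_abs_self M)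
      gcongr
      linarith
    have v3 := norm_sub_le_norm_sub_add_norm_sub (G z) (mob s f t z) (t z)
    have v4 := Complex.norm_exp_sub_one_le (x := G z - t z) (by linarith)
    have v5 : p₁.eval z * Complex.exp (G z - A₀) = p₁.eval z * Γ z * Complex.exp (G z - t z) := by
      rw [← h2 z ⟨hz, h'⟩, mul_assoc, ← Complex.exp_add]
      simp only [t]
      congr 2; ring
    have v6 := dist_st_rel (p₁.eval z * Γ z) (Complex.exp (G z - t z))
    have v7 := (dist_st_le _ _).trans (g5 z hz h')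
    rw [← eq_coe h'] at v7
    simp only [v5]
    linarith [dist_triangle (st (p₁.eval z * Γ z * Complex.exp (G z - t z) : ℂ))
      (st (p₁.eval z * Γ z : ℂ)) (st (f z))]
  · rw [not_le] at hz'
    have v2 := re_mob (f := f) (t := t) (z := z) hs0 hT₀0 fun h' =>
      hθ₀' z hz h' (hz'.trans_le (min_le_left _ _))
    have v3 : s * T₀ ^ 2 ≤ κ := by
      rw [← hs1]
      gcongr
      linarith [abs_nonneg M]
    have v4 := (abs_le.1 ((Complex.abs_re_le_norm _).trans v1)).1
    rw [Complex.sub_re] at v4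
    have v5 : 4 / ε / m₁ ≤ ‖Complex.exp (G z - A₀)‖ := by
      rw [Complex.norm_exp, Complex.sub_re, Complex.ofReal_re,
        ← Real.log_le_iff_le_exp (by positivity)]
      linarith [le_max_right 0 (Real.log (4 / ε / m₁) + 2 + A₀)]
    have v6 := hm₁ z ⟨hz, hz'.le.trans ((min_le_right _ _).trans (min_le_left _ _))⟩
    have v7 : 4 / ε ≤ ‖p₁.eval z * Complex.exp (G z - A₀)‖ := by
      rw [div_le_iff₀ hm₁0] at v5
      rw [norm_mul]
      nlinarith [norm_nonneg (Complex.exp (G z - A₀))]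
    have v8 : dist (st (f z)) (st ∞) ≤ ε / 4 := by
      by_cases h' : lam (f z) = 0
      · rw [eq_infty h', dist_self]; positivity
      · rw [eq_coe h']
        exact dist_big hε (hbig _ _ h' (hz'.trans_le ((min_le_right _ _).trans (min_le_right _ _))))
    linarith [dist_triangle_right (st (p₁.eval z * Complex.exp (G z - A₀) : ℂ)) (st (f z)) (st ∞),
      dist_big hε v7]

/-- Locally connected compact sets. -/
theorem near_locConn (hK : IsCompact K) (hc : IsPreconnected Kᶜ) (hf : InClass K f)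
    [LocallyConnectedSpace K] (hε : 0 < ε) : Near K f ε := by
  have : CompactSpace K := isCompact_iff_compactSpace.1 hK
  refine near_of_log hK hc hf (fun Γ hΓ => ?_) hε
  obtain ⟨h, h1, h2⟩ := global_log (Y := K) (l := fun y => lam (f y)) (G := fun y => Γ y)
    (continuous_lam.comp hf.1.domRestrict) fun θ hθ => by
      obtain ⟨h, h1, h2⟩ := hΓ θ hθ
      exact ⟨fun y => h y, h1.comp continuous_subtype_val.continuousOn fun y hy => ⟨y.2, hy⟩,
        fun y hy => h2 y ⟨y.2, hy⟩⟩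
  have hext : Function.extend Subtype.val h 0 ∘ Subtype.val = h :=
    Function.extend_comp Subtype.val_injective h 0
  refine ⟨Function.extend Subtype.val h 0, (IsInducing.subtypeVal.continuousOn_image_iff.2
    (hext ▸ h1)).mono fun z hz => ⟨⟨z, hz.1⟩, (lam_nonneg _).lt_of_ne' hz.2, rfl⟩,
    fun z hz => ?_⟩
  have := h2 ⟨z, hz.1⟩ ((lam_nonneg _).lt_of_ne' hz.2)
  rwa [← hext] at this

/-- Compact sets without interior. -/
theorem near_thin (hK : IsCompact K) (hc : IsPreconnected Kᶜ) (h0 : interior K = ∅)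
    (hf : ContinuousOn f K) (hε : 0 < ε) : Near K f ε := by
  have hst : ContinuousOn (fun z => st (f z)) K := continuous_st.comp_continuousOn hf
  have hM := fun (u : ℂ → ℂ) (hu : ContinuousOn u K) => mergelyan hK hc hu (by
    rw [h0]; exact differentiableOn_empty)
  have key : ∀ q : ℂ[X], ∀ η > 0, ∃ w : ℂ → ℂ, ContinuousOn w K ∧
      ∀ z ∈ K, w z ≠ 0 ∧ ‖w z - q.eval z‖ < η := by
    intro q
    induction h : q.natDegree generalizing q with
    | zero =>
      intro η hη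
      obtain ⟨a, ha, ha'⟩ := Metric.mem_closure_iff.1 (dense_compl_singleton (0 : ℂ) (q.coeff 0))
        η hη
      refine ⟨fun _ => a, continuousOn_const, fun z _ => ⟨ha, ?_⟩⟩
      rw [eq_C_of_natDegree_eq_zero h, eval_C, ← dist_eq_norm, dist_comm]
      exact ha'
    | succ n ih =>
      intro η hη
      obtain ⟨a, ha⟩ := IsAlgClosed.exists_root q (degree_ne_of_natDegree_ne (n := 0) (by omega))
      obtain ⟨r, rfl⟩ := dvd_iff_isRoot.2 ha
      have hr : r ≠ 0 := by
        rintro rfl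
        simp at h
      rw [natDegree_mul (X_sub_C_ne_zero a) hr, natDegree_X_sub_C] at h
      obtain ⟨B, hB⟩ := hK.exists_bound_of_continuousOn (f := fun z => ‖z - a‖ + ‖r.eval z‖)
        (by fun_prop)
      have hη' : 0 < min 1 (η / (|B| + 1)) := lt_min one_pos (by positivity)
      obtain ⟨w, h1, h2⟩ := ih r (by omega) _ hη'
      obtain ⟨b, hb, hb'⟩ := Metric.mem_closure_iff.1
        (interior_eq_empty_iff_dense_compl.1 h0 a) _ hη'
      refine ⟨fun z => (z - b) * w z, (continuousOn_id.sub continuousOn_const).mul h1,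
        fun z hz => ⟨mul_ne_zero (sub_ne_zero.2 fun e => hb (e ▸ hz)) (h2 z hz).1, ?_⟩⟩
      have a1 : (z - b) * w z - ((X - C a) * r).eval z =
          (z - a) * (w z - r.eval z) + (a - b) * r.eval z + (a - b) * (w z - r.eval z) := by
        simp only [eval_mul, eval_sub, eval_X, eval_C]; ring
      have a2 := (le_abs_self _).trans ((hB z hz).trans (le_abs_self B))
      have a3 := (h2 z hz).2
      have a4 : min 1 (η / (|B| + 1)) * (|B| + 1) ≤ η :=
        (le_div_iff₀ (by positivity)).1 (min_le_right _ _)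
      have a5 := min_le_left 1 (η / (|B| + 1))
      rw [dist_eq_norm] at hb'
      rw [a1]
      refine (norm_add₃_le).trans_lt ?_
      rw [norm_mul, norm_mul, norm_mul]
      nlinarith [norm_nonneg (z - a), norm_nonneg (r.eval z), norm_nonneg (a - b),
        norm_nonneg (w z - r.eval z)]
  obtain ⟨F, hF, hF'⟩ := exists_finite hf (half_pos hε) fun η hη => by
    obtain ⟨q, hq⟩ := hM _ hst.fst _ (half_pos hη)
    obtain ⟨w, h1, h2⟩ := key q _ (half_pos hη)
    exact ⟨w, h1, fun z hz => ⟨(h2 z hz).1, by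
      linarith [norm_sub_le_norm_sub_add_norm_sub (w z) (q.eval z) (st (f z)).1, (h2 z hz).2,
        hq z hz]⟩⟩
  obtain ⟨p, hp⟩ := hM F hF _ (half_pos hε)
  refine ⟨univ, fun z => p.eval z, isOpen_univ, subset_univ _, p.differentiable.differentiableOn,
    fun z hz => ?_⟩
  linarith [dist_triangle (st (p.eval z : ℂ)) (st (F z : ℂ)) (st (f z)), hF' z hz, hp z hz,
    dist_st_le (p.eval z) (F z)]

end Pool.Agent.Lib.MP_1b82cc_an
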