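import Pool.Agent.Lib.MP_1b82cc_an.Main
import Pool.Agent.Lib.MP_1b82cc_an.Loc1

/-!
Chordal approximation on a compact set by functions holomorphic near the set.
-/

namespace Pool.Agent.Lib.MP_1b82cc_an

open Set Metric Filter Topology MeasureTheory Polynomial OnePoint

/-- Up to `ε`, the function `f` is on `K` a function holomorphic near `K`. -/
def Near (K : Set ℂ) (f : ℂ → OnePoint ℂ) (ε : ℝ) : Prop :=
  ∃ (U : Set ℂ) (G : ℂ → ℂ), IsOpen U ∧ K ⊆ U ∧ DifferentiableOn ℂ G U ∧
    ∀ z ∈ K, dist (st (G z : ℂ)) (st (f z)) < ε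

variable {K : Set ℂ} {f : ℂ → OnePoint ℂ} {ε : ℝ}

lemma Near.mono {K' : Set ℂ} (h : Near K f ε) (hK : K' ⊆ K) : Near K' f ε := by
  obtain ⟨U, G, h1, h2, h3, h4⟩ := h
  exact ⟨U, G, h1, hK.trans h2, h3, fun z hz => h4 z (hK hz)⟩

lemma Near.union {K' : Set ℂ} (h : Near K f ε) (h' : Near K' f ε) (hK : IsCompact K)
    (hK' : IsCompact K') (hd : Disjoint K K') : Near (K ∪ K') f ε := by
  classical
  obtain ⟨U, G, h1, h2, h3, h4⟩ := h
  obtain ⟨U', G', h1', h2', h3', h4'⟩ := h'
  obtain ⟨A, B, hA, hB, hKA, hKB, hAB⟩ := SeparatedNhds.of_isCompact_isCompact hK hK' hd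
  refine ⟨A ∩ U ∪ B ∩ U', fun z => if z ∈ A then G z else G' z, (hA.inter h1).union (hB.inter h1'),
    union_subset_union (subset_inter hKA h2) (subset_inter hKB h2'), ?_, ?_⟩
  · rintro z (hz | hz)
    · refine ((h3.differentiableAt (h1.mem_nhds hz.2)).congr_of_eventuallyEq
        ?_).differentiableWithinAt
      filter_upwards [hA.mem_nhds hz.1] with a ha using if_pos ha
    · refine ((h3'.differentiableAt (h1'.mem_nhds hz.2)).congr_of_eventuallyEq
        ?_).differentiableWithinAt
      filter_upwards [hB.mem_nhds hz.1] with a ha using if_neg fun h => disjoint_left.1 hAB h ha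
  · rintro z (hz | hz)
    · simpa only [if_pos (hKA hz)] using h4 z hz
    · simpa only [if_neg fun h => disjoint_left.1 hAB h (hKB hz)] using h4' z hz

/-- On a compact set whose image under every approximant has no interior a continuous function
to the sphere is a limit of finite continuous functions. -/
lemma exists_finite (hf : ContinuousOn f K) (hε : 0 < ε)
    (hnz : ∀ η > 0, ∃ w : ℂ → ℂ, ContinuousOn w K ∧
      ∀ z ∈ K, w z ≠ 0 ∧ ‖w z - (st (f z)).1‖ < η) :
    ∃ F : ℂ → ℂ, ContinuousOn F K ∧ ∀ z ∈ K, dist (st (F z : ℂ)) (st (f z)) < ε := by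
  have hst : ContinuousOn (fun z => st (f z)) K := continuous_st.comp_continuousOn hf
  set θ := 1 / (1 + (4 / ε) ^ 2) with hθ
  have hθ0 : 0 < θ := by positivity
  obtain ⟨w, hw, hw'⟩ := hnz (ε * θ / 4) (by positivity)
  let ρ : ℂ → ℝ := fun z => √((1 - (st (f z)).2) / max (st (f z)).2 θ)
  have hρ : ContinuousOn ρ K := by
    refine Real.continuous_sqrt.comp_continuousOn ((continuousOn_const.sub hst.snd).div
      (hst.snd.sup continuousOn_const) fun z _ => ?_)
    exact (lt_max_of_lt_right hθ0).ne'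
  refine ⟨fun z => ((ρ z / ‖w z‖ : ℝ) : ℂ) * w z, (Complex.continuous_ofReal.comp_continuousOn
    (hρ.div hw.norm fun z hz => norm_ne_zero_iff.2 (hw' z hz).1)).mul hw, fun z hz => ?_⟩
  have hn : 0 < ‖w z‖ := norm_pos_iff.2 (hw' z hz).1
  have hF : ‖((ρ z / ‖w z‖ : ℝ) : ℂ) * w z‖ = ρ z := by
    rw [norm_mul, Complex.norm_real, Real.norm_of_nonneg (by positivity)]
    field_simp
  have big : ∀ a : ℂ, 4 / ε ≤ ‖a‖ → dist (st a) (st ∞) ≤ ε / 4 := fun a ha => by
    have h4 : 0 < 4 / ε := by positivity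
    refine (dist_st_infty a (norm_pos_iff.1 (h4.trans_le ha))).trans ?_
    rw [← inv_div 4 ε]
    exact inv_anti₀ h4 ha
  by_cases hl : (st (f z)).2 ≤ θ
  · have h1 : 4 / ε ≤ ρ z := by
      apply Real.le_sqrt_of_sq_le
      rw [max_eq_right hl, le_div_iff₀ hθ0]
      have : (4 / ε) ^ 2 * θ = 1 - θ := by rw [hθ]; field_simp; ring
      linarith
    have h2 := big _ (hF.symm ▸ h1)
    have h3 : dist (st (f z)) (st ∞) ≤ ε / 4 := by
      induction h : f z using OnePoint.rec with
      | infty => rw [dist_self]; positivity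
      | coe a =>
        rw [h, st_coe, hθ] at hl
        refine big a (le_of_sq_le_sq ?_ (norm_nonneg a))
        have := (one_div_le_one_div (by positivity) (by positivity)).1 hl
        linarith
    linarith [dist_triangle_right (st (((ρ z / ‖w z‖ : ℝ) : ℂ) * w z : ℂ)) (st (f z)) (st ∞)]
  · have h5 := (hw' z hz).2
    have h6 : ρ z = √((1 - (st (f z)).2) / (st (f z)).2) := by
      simp only [ρ, max_eq_left (not_le.1 hl).le]
    induction h : f z using OnePoint.rec with
    | infty => rw [h, st_infty] at hl; exact absurd hθ0.le hl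
    | coe a =>
      rw [h, st_coe] at hl h5 h6
      simp only at hl h5 h6
      set N : ℝ := 1 + ‖a‖ ^ 2 with hN
      have hN0 : 0 < N := by positivity
      have h7 : ρ z = ‖a‖ := by
        rw [h6, show (1 - 1 / N) / (1 / N) = ‖a‖ ^ 2 by rw [hN]; field_simp; ring,
          Real.sqrt_sq (norm_nonneg a)]
      have h8 : θ * N < 1 := (lt_div_iff₀ hN0).1 (not_le.1 hl)
      have h9 : ‖(N : ℂ) * w z - a‖ < ε / 4 := by
        have : (N : ℂ) * w z - a = N * (w z - a / N) := by
          have : (N : ℂ) ≠ 0 := Complex.ofReal_ne_zero.2 hN0.ne'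
          field_simp
        rw [this, norm_mul, Complex.norm_real, Real.norm_of_nonneg hN0.le]
        nlinarith
      have h10 : ‖((‖a‖ / ‖w z‖ : ℝ) : ℂ) * w z - N * w z‖ ≤ ‖(N : ℂ) * w z - a‖ := by
        rw [← sub_mul, norm_mul, ← Complex.ofReal_sub, Complex.norm_real, Real.norm_eq_abs,
          ← abs_of_pos hn, ← abs_mul, abs_of_pos hn, sub_mul, div_mul_cancel₀ _ hn.ne',
          abs_sub_comm]
        have := abs_norm_sub_norm_le ((N : ℂ) * w z) a
        rwa [norm_mul, Complex.norm_real, Real.norm_of_nonneg hN0.le] at this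
      refine (dist_st_le _ _).trans_lt ?_
      simp only [h7]
      linarith [norm_sub_le_norm_sub_add_norm_sub (((‖a‖ / ‖w z‖ : ℝ) : ℂ) * w z) (N * w z) a]

/-- Compact sets of area zero. -/
lemma near_null (hK : IsCompact K) (h0 : volume K = 0) (hf : ContinuousOn f K) (hε : 0 < ε) :
    Near K f ε := by
  have hst : ContinuousOn (fun z => st (f z)) K := continuous_st.comp_continuousOn hf
  obtain ⟨F, hF, hF'⟩ := exists_finite hf (half_pos hε) fun η hη => by
    obtain ⟨U, w, -, hKU, hw, hw'⟩ := hartogs hK h0 hst.fst (half_pos hη)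
    have h1 : volume (w '' K) = 0 :=
      addHaar_image_eq_zero_of_differentiableOn_of_addHaar_eq_zero volume
        ((hw.mono hKU).restrictScalars ℝ) h0
    obtain ⟨c, hc, hc'⟩ : ∃ c ∈ ball (0 : ℂ) (η / 2), c ∉ w '' K := not_subset.1 fun h =>
      (measure_ball_pos volume (0 : ℂ) (half_pos hη)).ne' (measure_mono_null h h1)
    refine ⟨fun z => w z - c, (hw.mono hKU).continuousOn.sub continuousOn_const, fun z hz =>
      ⟨sub_ne_zero.2 fun h => hc' ⟨z, hz, h⟩, ?_⟩⟩
    rw [sub_right_comm]
    linarith [norm_sub_le (w z - (st (f z)).1) c, hw' z hz, mem_ball_zero_iff.1 hc]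
  obtain ⟨U, G, h1, h2, h3, h4⟩ := hartogs hK h0 hF (half_pos hε)
  refine ⟨U, G, h1, h2, h3, fun z hz => ?_⟩
  linarith [dist_triangle (st (G z : ℂ)) (st (F z : ℂ)) (st (f z)), hF' z hz, h4 z hz,
    dist_st_le (G z) (F z)]

/-- Compact convex sets. -/
lemma near_convex {L : Set ℂ} (hf : InClass L f) (hK : IsCompact K) (hKL : K ⊆ L)
    (hc : Convex ℝ K) (hε : 0 < ε) : Near K f ε := by
  rcases (interior K).eq_empty_or_nonempty with h | ⟨c, hcK⟩
  · refine near_null hK ?_ (hf.1.mono hKL) hε
    have := hc.addHaar_frontier (μ := volume)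
    rwa [frontier, h, hK.isClosed.closure_eq, sdiff_empty] at this
  have hb : interior K ⊆ interior L := interior_mono hKL
  have hcomp : interior K ⊆ connectedComponentIn (interior L) c :=
    hc.interior.isPreconnected.subset_connectedComponentIn hcK hb
  have hcont : ContinuousOn (st ∘ f) K := continuous_st.comp_continuousOn (hf.1.mono hKL)
  rcases hf.2 c (hb hcK) with h | ⟨g, hg, h⟩
  · obtain ⟨M, hM⟩ := exists_const ∞ hε
    refine ⟨univ, fun _ => M, isOpen_univ, subset_univ _, differentiableOn_const _,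
      fun z hz => ?_⟩
    have : EqOn (st ∘ f) (fun _ => st ∞) K := by
      refine EqOn.of_subset_closure (s := interior K) (fun w hw => ?_) hcont continuousOn_const
        interior_subset ?_
      · simp [h w (hcomp hw)]
      · rw [hc.closure_interior_eq_closure_of_nonempty_interior ⟨c, hcK⟩]
        exact subset_closure
    have h1 : st (f z) = st ∞ := this hz
    rw [h1]; exact hM
  · obtain ⟨δ, hδ, hu⟩ := Metric.uniformContinuousOn_iff.1
      (hK.uniformContinuousOn_of_continuous hcont) ε hε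
    obtain ⟨R, hR0, hR⟩ := hK.isBounded.subset_ball_lt 0 c
    set τ := min 1 (δ / R) with hτ
    have hτ0 : 0 < τ := lt_min one_pos (by positivity)
    have hτ2 : τ * R ≤ δ := (le_div_iff₀ hR0).1 (min_le_right _ _)
    have hT : Differentiable ℂ fun z : ℂ => z + τ • (c - z) := by
      simp only [Complex.real_smul]
      fun_prop
    have hin : ∀ z ∈ K, z + τ • (c - z) ∈ interior K := fun z hz =>
      hc.add_smul_sub_mem_interior hz hcK ⟨hτ0, min_le_left _ _⟩
    refine ⟨(fun z => z + τ • (c - z)) ⁻¹' interior K, fun z => g (z + τ • (c - z)),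
      isOpen_interior.preimage hT.continuous, hin,
      (hg.mono hcomp).comp hT.differentiableOn fun z hz => hz, fun z hz => ?_⟩
    have h2 : dist (z + τ • (c - z)) z < δ := by
      have h3 : ‖c - z‖ < R := by simpa [dist_eq_norm, norm_sub_rev] using hR hz
      rw [dist_eq_norm, add_sub_cancel_left, norm_smul, Real.norm_of_nonneg hτ0.le]
      nlinarith
    have h3 := hu _ (interior_subset (hin z hz)) _ hz h2
    simpa only [Function.comp, h _ (hcomp (hin z hz))] using h3

/-- Passage from the components to the whole set. -/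
theorem near_of_components {L : Set ℂ} (hL : IsCompact L) (hf : ContinuousOn f L)
    (h : ∀ x ∈ L, Near (connectedComponentIn L x) f ε) : Near L f ε := by
  have : CompactSpace L := isCompact_iff_compactSpace.1 hL
  have hcl : ∀ W : Set L, IsClosed W → IsCompact ((↑) '' W : Set ℂ) := fun W hW =>
    hW.isCompact.image continuous_subtype_val
  have key : ∃ W : Set L, IsClopen W ∧ univ ⊆ W ∧ Near ((↑) '' W) f ε := by
    refine isCompact_univ.induction_on
      (p := fun t : Set L => ∃ W : Set L, IsClopen W ∧ t ⊆ W ∧ Near ((↑) '' W) f ε)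
      ⟨∅, isClopen_empty, Subset.rfl, ∅, 0, isOpen_empty, by simp, by simp, by simp⟩ ?_ ?_ ?_
    · rintro s t hst ⟨W, h1, h2, h3⟩
      exact ⟨W, h1, hst.trans h2, h3⟩
    · rintro s t ⟨W, h1, h2, h3⟩ ⟨W', h1', h2', h3'⟩
      refine ⟨W ∪ W', h1.union h1', union_subset_union h2 h2', ?_⟩
      rw [← union_sdiff_self, image_union]
      exact h3.union (h3'.mono (image_mono sdiff_subset)) (hcl _ h1.1) (hcl _ (h1'.diff h1).1)
        ((disjoint_image_iff Subtype.val_injective).2 disjoint_sdiff_right)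
    · intro x _
      obtain ⟨U, G, h1, h2, h3, h4⟩ := h x x.2
      rw [connectedComponentIn_eq_image x.2] at h2 h4
      have : Nonempty { s : Set L // IsClopen s ∧ x ∈ s } := ⟨⟨univ, isClopen_univ, trivial⟩⟩
      obtain ⟨W, hW⟩ := exists_subset_nhds_of_compactSpace
        (V := fun s : { s : Set L // IsClopen s ∧ x ∈ s } => (s : Set L))
        (U := {z : L | (z : ℂ) ∈ U ∧ dist (st (G z : ℂ)) (st (f z)) < ε})
        (fun s t => ⟨⟨s.1 ∩ t.1, s.2.1.inter t.2.1, s.2.2, t.2.2⟩, inter_subset_left,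
          inter_subset_right⟩) (fun s => s.2.1.1) fun y hy => by
          rw [← connectedComponent_eq_iInter_isClopen] at hy
          have hyU : U ∈ 𝓝 (y : ℂ) := h1.mem_nhds (h2 ⟨y, hy, rfl⟩)
          have c1 : ContinuousAt (fun z : L => st (G z : ℂ)) y :=
            (continuous_st.comp continuous_coe).continuousAt.comp
              ((h3.differentiableAt hyU).continuousAt.comp continuous_subtype_val.continuousAt)
          have c2 : Continuous fun z : L => st (f z) := continuous_st.comp hf.domRestrict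
          exact inter_mem (continuous_subtype_val.continuousAt.preimage_mem_nhds hyU)
            ((c1.dist c2.continuousAt).eventually_lt continuousAt_const (h4 y ⟨y, hy, rfl⟩))
      refine ⟨W, mem_nhdsWithin_of_mem_nhds (W.2.1.2.mem_nhds W.2.2), W, W.2.1, Subset.rfl,
        U, G, h1, ?_, h3, ?_⟩
      · rintro _ ⟨z, hz, rfl⟩; exact (hW hz).1
      · rintro _ ⟨z, hz, rfl⟩; exact (hW hz).2
  obtain ⟨W, -, h2, h3⟩ := key
  exact h3.mono fun z hz => ⟨⟨z, hz⟩, h2 trivial, rfl⟩

lemma isCompact_component {L : Set ℂ} (hL : IsCompact L) {x : ℂ} (hx : x ∈ L) :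
    IsCompact (connectedComponentIn L x) := by
  have : CompactSpace L := isCompact_iff_compactSpace.1 hL
  rw [connectedComponentIn_eq_image hx]
  exact isClosed_connectedComponent.isCompact.image continuous_subtype_val

/-- From functions holomorphic near the set to polynomials. -/
lemma Near.poly (hK : IsCompact K) (hc : IsPreconnected Kᶜ) (hε : 0 < ε) (h : Near K f (ε / 4)) :
    ∃ p : ℂ[X], ∀ z ∈ K, chordal (p.eval z : ℂ) (f z) < ε := by
  rcases K.eq_empty_or_nonempty with rfl | hne
  · exact ⟨0, by simp⟩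
  obtain ⟨U, G, h1, h2, h3, h4⟩ := h
  obtain ⟨p, hp⟩ := runge hK hne hc h1 h2 h3 (ε / 4) (by positivity)
  refine ⟨p, fun z hz => (chordal_le _ _).trans_lt ?_⟩
  linarith [dist_triangle (st (p.eval z : ℂ)) (st (G z : ℂ)) (st (f z)), hp z hz, h4 z hz,
    dist_st_le (p.eval z) (G z)]

end Pool.Agent.Lib.MP_1b82cc_an
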