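import Mathlib

/-!
Polynomial approximation on a compact set with connected complement: reciprocals of polynomials
without zeros, indicator functions of isolated discs, and Taylor approximation on a disc.
-/

namespace Pool.Agent.Lib.MP_1b82cc_an

open Set Metric Polynomial Filter Topology

/-- Uniform approximability by polynomials. -/
def Approx (L : Set ℂ) (g : ℂ → ℂ) : Prop :=
  ∀ ε > 0, ∃ p : ℂ[X], ∀ z ∈ L, ‖p.eval z - g z‖ < ε

variable {L : Set ℂ}

lemma Approx.poly (p : ℂ[X]) : Approx L fun z => p.eval z := fun ε hε => ⟨p, by simpa using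
  fun _ _ => hε⟩

lemma Approx.add {f g : ℂ → ℂ} (hf : Approx L f) (hg : Approx L g) :
    Approx L fun z => f z + g z := by
  intro ε hε
  obtain ⟨p, hp⟩ := hf (ε / 2) (by positivity)
  obtain ⟨q, hq⟩ := hg (ε / 2) (by positivity)
  refine ⟨p + q, fun z hz => ?_⟩
  have : (p + q).eval z - (f z + g z) = (p.eval z - f z) + (q.eval z - g z) := by simp; ring
  rw [this]
  linarith [norm_add_le (p.eval z - f z) (q.eval z - g z), hp z hz, hq z hz]

lemma Approx.sum {ι : Type*} (s : Finset ι) {f : ι → ℂ → ℂ} (hf : ∀ i ∈ s, Approx L (f i)) :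
    Approx L fun z => ∑ i ∈ s, f i z := by
  classical
  induction s using Finset.induction_on with
  | empty => simpa using Approx.poly (L := L) 0
  | insert a s ha ih =>
    simp only [Finset.sum_insert ha]
    exact (hf a (Finset.mem_insert_self _ _)).add
      (ih fun i hi => hf i (Finset.mem_insert_of_mem hi))

lemma Approx.mul_poly (hL : IsCompact L) {f : ℂ → ℂ} (hf : Approx L f) (q : ℂ[X]) :
    Approx L fun z => f z * q.eval z := by
  intro ε hε
  obtain ⟨B, hB⟩ := hL.exists_bound_of_continuousOn (f := fun z => q.eval z)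
    q.continuous.continuousOn
  obtain ⟨p, hp⟩ := hf (ε / (|B| + 1)) (by positivity)
  refine ⟨p * q, fun z hz => ?_⟩
  have : (p * q).eval z - f z * q.eval z = (p.eval z - f z) * q.eval z := by simp; ring
  rw [this, norm_mul]
  have h1 := hp z hz
  have h2 : ‖q.eval z‖ ≤ |B| + 1 := by linarith [hB z hz, le_abs_self B]
  rw [lt_div_iff₀ (by positivity)] at h1
  exact lt_of_le_of_lt (mul_le_mul_of_nonneg_left h2 (norm_nonneg _)) h1

lemma Approx.limit {g : ℂ → ℂ} (h : ∀ ε > 0, ∃ f, Approx L f ∧ ∀ z ∈ L, ‖f z - g z‖ < ε) :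
    Approx L g := by
  intro ε hε
  obtain ⟨f, hf, hfg⟩ := h (ε / 2) (by positivity)
  obtain ⟨p, hp⟩ := hf (ε / 2) (by positivity)
  refine ⟨p, fun z hz => ?_⟩
  linarith [norm_sub_le_norm_sub_add_norm_sub (p.eval z) (f z) (g z), hp z hz, hfg z hz]

/-- Reciprocals of polynomials without zeros on `L`. -/
lemma approx_inv (hL : IsCompact L) (hne : L.Nonempty) (hc : IsPreconnected Lᶜ) (q : ℂ[X])
    (hq : ∀ z ∈ L, q.eval z ≠ 0) : Approx L fun z => (q.eval z)⁻¹ := by
  have : CompactSpace L := isCompact_iff_compactSpace.1 hL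
  let S : Subalgebra ℂ C(L, ℂ) := (polynomialFunctions L).topologicalClosure
  have hS : IsClosed (S : Set C(L, ℂ)) := Subalgebra.isClosed_topologicalClosure _
  have hmem : ∀ p : ℂ[X], Polynomial.toContinuousMapOnAlgHom L p ∈ S := fun p =>
    Subalgebra.le_topologicalClosure _ ⟨p, trivial, rfl⟩
  let x : S := ⟨Polynomial.toContinuousMapOnAlgHom L X, hmem X⟩
  have hx : spectrum ℂ (x : C(L, ℂ)) = L := by
    rw [ContinuousMap.spectrum_eq_range]
    ext z
    simp [x]
  have hx' : spectrum ℂ x = L := by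
    rw [Subalgebra.spectrum_eq_of_isPreconnected_compl S x (hx.symm ▸ hc), hx]
  have h0 : IsUnit (aeval x q) := by
    rw [← spectrum.zero_notMem_iff ℂ, spectrum.map_polynomial_aeval_of_nonempty x q
      (hx'.symm ▸ hne), hx']
    rintro ⟨z, hz, h⟩
    exact hq z hz h
  obtain ⟨u, hu⟩ := h0.exists_left_inv
  have hval : ∀ z : L, ((aeval x q : S) : C(L, ℂ)) z = q.eval (z : ℂ) := by
    intro z
    have : ((aeval x q : S) : C(L, ℂ)) = aeval (x : C(L, ℂ)) q :=
      (Polynomial.aeval_algHom_apply S.val x q).symm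
    rw [this]
    have h2 : aeval (Polynomial.toContinuousMapOnAlgHom L X) q
        = Polynomial.toContinuousMapOnAlgHom L q := by
      rw [Polynomial.aeval_algHom_apply, aeval_X_left_apply]
    simp only [x, h2]
    simp
  have hu' : ∀ z : L, (u : C(L, ℂ)) z = (q.eval (z : ℂ))⁻¹ := by
    intro z
    have := congrArg (fun s : S => (s : C(L, ℂ)) z) hu
    simp only [MulMemClass.coe_mul, ContinuousMap.mul_apply, hval, OneMemClass.coe_one,
      ContinuousMap.one_apply] at this
    exact eq_inv_of_mul_eq_one_left this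
  intro ε hε
  obtain ⟨_, ⟨p, -, rfl⟩, hp⟩ := Metric.mem_closure_iff.1
    (show (u : C(L, ℂ)) ∈ closure (polynomialFunctions L : Set C(L, ℂ)) from u.2) ε hε
  refine ⟨p, fun z hz => ?_⟩
  have := (ContinuousMap.dist_apply_le_dist (f := (u : C(L, ℂ)))
    (g := Polynomial.toContinuousMapOnAlgHom L p) ⟨z, hz⟩).trans_lt hp
  rw [hu', dist_comm, dist_eq_norm] at this
  simpa using this

/-- The indicator function of a disc that is isolated in `L`. -/
lemma approx_indicator (hL : IsCompact L) (hne : L.Nonempty) (hc : IsPreconnected Lᶜ)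
    {c : ℂ} {r R : ℝ} (hr : 0 < r) (hrR : r < R) (hiso : L ∩ ball c R ⊆ closedBall c r) :
    Approx L ((closedBall c r).indicator 1) := by
  apply Approx.limit
  intro ε hε
  set ρ := (r + R) / 2 with hρ
  have hρ0 : 0 < ρ := by linarith
  set θ := max (r / ρ) (ρ / R) with hθ
  have hθ0 : 0 ≤ θ := le_max_of_le_left (by positivity)
  have hθ1 : θ < 1 := max_lt ((div_lt_one hρ0).2 (by linarith))
    ((div_lt_one (by linarith)).2 (by linarith))
  obtain ⟨m, hm⟩ := exists_pow_lt_of_lt_one (show 0 < min (1 / 2) (ε / 2) by positivity) hθ1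
  have hm1 : θ ^ m < 1 / 2 := hm.trans_le (min_le_left _ _)
  have hm2 : θ ^ m < ε / 2 := hm.trans_le (min_le_right _ _)
  set q : ℂ[X] := 1 + (C ((ρ : ℂ)⁻¹) * (X - C c)) ^ m with hq
  have hqe : ∀ z, q.eval z = 1 + ((ρ : ℂ)⁻¹ * (z - c)) ^ m := by intro z; simp [hq]
  have hw : ∀ z : ℂ, ‖((ρ : ℂ)⁻¹ * (z - c)) ^ m‖ = (‖z - c‖ / ρ) ^ m := by
    intro z
    rw [norm_pow, norm_mul, norm_inv, Complex.norm_real, Real.norm_of_nonneg hρ0.le]
    congr 1; ring
  have key : ∀ z ∈ L, q.eval z ≠ 0 ∧ ‖(q.eval z)⁻¹ - (closedBall c r).indicator 1 z‖ < ε := by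
    intro z hz
    rw [hqe]
    set w := ((ρ : ℂ)⁻¹ * (z - c)) ^ m with hwdef
    have hwz : ‖w‖ = (‖z - c‖ / ρ) ^ m := hw z
    by_cases h : z ∈ closedBall c r
    · have h1 : ‖w‖ ≤ θ ^ m := by
        rw [hwz]
        apply pow_le_pow_left₀ (by positivity)
        refine le_trans ?_ (le_max_left _ _)
        exact div_le_div_of_nonneg_right (by simpa [dist_eq_norm] using h) hρ0.le
      have h2 : 1 / 2 ≤ ‖1 + w‖ := by
        have := norm_sub_le (1 + w) w
        simp only [add_sub_cancel_right, norm_one] at this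
        linarith
      have h3 : 1 + w ≠ 0 := by
        intro h0; rw [h0, norm_zero] at h2; linarith
      refine ⟨h3, ?_⟩
      rw [indicator_of_mem h]
      have : (1 + w)⁻¹ - (1 : ℂ → ℂ) z = -w / (1 + w) := by
        simp only [Pi.one_apply]; field_simp; ring
      rw [this, norm_div, norm_neg, div_lt_iff₀ (by linarith)]
      nlinarith
    · have h0 : R ≤ ‖z - c‖ := by
        by_contra hc'
        exact h (hiso ⟨hz, by simpa [dist_eq_norm] using hc'⟩)
      have hR : 0 < R := by linarith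
      have h1 : 1 ≤ θ ^ m * ‖w‖ := by
        rw [hwz, ← mul_pow]
        apply one_le_pow₀
        calc (1 : ℝ) = ρ / R * (R / ρ) := by field_simp
          _ ≤ θ * (‖z - c‖ / ρ) := mul_le_mul (le_max_right _ _)
              (div_le_div_of_nonneg_right h0 hρ0.le) (by positivity) hθ0
      have h2 : ‖w‖ - 1 ≤ ‖1 + w‖ := by
        have := norm_sub_le (1 + w) 1
        simp only [add_sub_cancel_left, norm_one] at this
        linarith
      have h4 : 2 < ‖w‖ := by
        by_contra hcon
        have := mul_le_mul_of_nonneg_left (not_lt.1 hcon) (pow_nonneg hθ0 m)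
        linarith
      have h3 : 1 + w ≠ 0 := by
        intro h0; rw [h0, norm_zero] at h2; linarith
      refine ⟨h3, ?_⟩
      rw [indicator_of_notMem h, sub_zero, norm_inv, inv_lt_comm₀ (by linarith) hε,
        inv_lt_iff_one_lt_mul₀ hε]
      nlinarith
  exact ⟨fun z => (q.eval z)⁻¹, approx_inv hL hne hc q fun z hz => (key z hz).1,
    fun z hz => (key z hz).2⟩

/-- Taylor approximation of a dilate of a function holomorphic in a disc. -/
lemma approx_dilate {g : ℂ → ℂ} {c : ℂ} {r τ : ℝ} (hr : 0 < r) (hτ0 : 0 < τ) (hτ : τ < 1)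
    (hg : DifferentiableOn ℂ g (ball c r)) :
    Approx (closedBall c r) fun z => g (c + τ * (z - c)) := by
  intro ε hε
  have h1 : τ * r < r := by nlinarith
  obtain ⟨ρ, hρ1, hρ2⟩ := exists_between h1
  obtain ⟨ρ', hρ3, hρ4⟩ := exists_between hρ2
  have hρ0 : 0 < ρ := lt_trans (by positivity) hρ1
  lift ρ to NNReal using hρ0.le
  lift ρ' to NNReal using (hρ0.trans hρ3).le
  have h2 := (hg.mono (closedBall_subset_ball hρ4)).hasFPowerSeriesOnBall
    (show 0 < ρ' by exact_mod_cast hρ0.trans hρ3)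
  have h3 := h2.tendstoUniformlyOn' (r' := ρ) (by exact_mod_cast hρ3)
  obtain ⟨n, hn⟩ := (Metric.tendstoUniformlyOn_iff.1 h3 ε hε).exists
  refine ⟨∑ k ∈ Finset.range n, C ((cauchyPowerSeries g c ρ').coeff k) *
    (C (τ : ℂ) * (X - C c)) ^ k, fun z hz => ?_⟩
  have h4 : c + τ * (z - c) ∈ ball c ρ := by
    simp only [mem_ball, dist_eq_norm, add_sub_cancel_left, norm_mul, Complex.norm_real,
      Real.norm_of_nonneg hτ0.le]
    have : ‖z - c‖ ≤ r := by simpa [dist_eq_norm] using hz
    nlinarith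
  have h5 := hn _ h4
  rw [dist_comm, dist_eq_norm] at h5
  refine lt_of_eq_of_lt ?_ h5
  congr 2
  simp only [eval_finsetSum, eval_mul, eval_C, eval_pow, eval_sub, eval_X, add_sub_cancel_left,
    FormalMultilinearSeries.partialSum, FormalMultilinearSeries.apply_eq_pow_smul_coeff,
    smul_eq_mul]
  exact Finset.sum_congr rfl fun k _ => mul_comm _ _

end Pool.Agent.Lib.MP_1b82cc_an
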