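import Pool.Agent.Lib.MP_1b82cc_an.Defs
import Pool.Agent.Lib.MP_1b82cc_an.Discs
import Pool.Agent.Lib.MP_1b82cc_an.Runge

/-!
Chordal polynomial approximation on discs accumulating at a point.
-/

namespace Pool.Agent.Lib.MP_1b82cc_an

open Set Metric Filter Topology OnePoint Polynomial

/-- Stereographic embedding. -/
noncomputable def st : OnePoint ℂ → ℂ × ℝ
  | (a : ℂ) => (a / ((1 + ‖a‖ ^ 2 : ℝ) : ℂ), 1 / (1 + ‖a‖ ^ 2))
  | ∞ => (0, 0)

lemma st_coe (a : ℂ) : st a = (a / ((1 + ‖a‖ ^ 2 : ℝ) : ℂ), 1 / (1 + ‖a‖ ^ 2)) := rfl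

lemma st_infty : st ∞ = (0, 0) := rfl

lemma chordal_nonneg (a b : OnePoint ℂ) : 0 ≤ chordal a b := by
  induction a using OnePoint.rec <;> induction b using OnePoint.rec
  · exact le_rfl
  · show 0 ≤ 1 / √(1 + _); positivity
  · show 0 ≤ 1 / √(1 + _); positivity
  · show 0 ≤ ‖_‖ / (√(1 + _) * √(1 + _)); positivity

lemma sq_aux (a : ℂ) : (1 / √(1 + ‖a‖ ^ 2)) ^ 2
    = ‖a / ((1 + ‖a‖ ^ 2 : ℝ) : ℂ)‖ ^ 2 + (1 / (1 + ‖a‖ ^ 2)) ^ 2 := by
  have h : 0 < 1 + ‖a‖ ^ 2 := by positivity
  rw [div_pow, Real.sq_sqrt h.le, norm_div, Complex.norm_real, Real.norm_of_nonneg h.le]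
  field_simp
  ring

lemma chordal_sq (a b : OnePoint ℂ) :
    chordal a b ^ 2 = ‖(st a).1 - (st b).1‖ ^ 2 + ((st a).2 - (st b).2) ^ 2 := by
  induction a using OnePoint.rec <;> induction b using OnePoint.rec
  · simp [chordal, st]
  · rename_i b
    show (1 / √(1 + ‖b‖ ^ 2)) ^ 2 = _
    rw [sq_aux, st_coe, st_infty]
    simp
  · rename_i a
    show (1 / √(1 + ‖a‖ ^ 2)) ^ 2 = _
    rw [sq_aux, st_coe, st_infty]
    simp
  · rename_i a b
    show (‖a - b‖ / (√(1 + ‖a‖ ^ 2) * √(1 + ‖b‖ ^ 2))) ^ 2 = _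
    have ha : 0 < 1 + ‖a‖ ^ 2 := by positivity
    have hb : 0 < 1 + ‖b‖ ^ 2 := by positivity
    rw [div_pow, mul_pow, Real.sq_sqrt ha.le, Real.sq_sqrt hb.le, st_coe, st_coe]
    simp only
    rw [Complex.sq_norm (a - b), Complex.sq_norm (_ - _), Complex.normSq_apply,
      Complex.normSq_apply]
    simp only [Complex.sub_re, Complex.sub_im, Complex.div_ofReal_re, Complex.div_ofReal_im]
    have h1 : ‖a‖ ^ 2 = a.re ^ 2 + a.im ^ 2 := by rw [Complex.sq_norm, Complex.normSq_apply]; ring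
    have h2 : ‖b‖ ^ 2 = b.re ^ 2 + b.im ^ 2 := by rw [Complex.sq_norm, Complex.normSq_apply]; ring
    rw [h1, h2] at *
    field_simp
    ring

lemma chordal_le (a b : OnePoint ℂ) : chordal a b ≤ 2 * dist (st a) (st b) := by
  have h1 : ‖(st a).1 - (st b).1‖ ≤ dist (st a) (st b) := by
    rw [← dist_eq_norm, Prod.dist_eq]; exact le_max_left _ _
  have h2 : |(st a).2 - (st b).2| ≤ dist (st a) (st b) := by
    rw [← Real.dist_eq, Prod.dist_eq]; exact le_max_right _ _
  apply le_of_sq_le_sq _ (by positivity)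
  rw [chordal_sq, ← sq_abs ((st a).2 - (st b).2)]
  nlinarith [norm_nonneg ((st a).1 - (st b).1), abs_nonneg ((st a).2 - (st b).2),
    dist_nonneg (x := st a) (y := st b)]

lemma le_chordal (a b : OnePoint ℂ) : dist (st a) (st b) ≤ chordal a b := by
  rw [Prod.dist_eq, dist_eq_norm, Real.dist_eq]
  apply max_le <;> apply le_of_sq_le_sq _ (chordal_nonneg a b) <;> rw [chordal_sq]
  · nlinarith [sq_nonneg ((st a).2 - (st b).2)]
  · rw [sq_abs]; nlinarith [sq_nonneg ‖(st a).1 - (st b).1‖]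

lemma dist_st_le (a b : ℂ) : dist (st a) (st b) ≤ ‖a - b‖ := by
  refine (le_chordal a b).trans ?_
  show ‖a - b‖ / (√(1 + ‖a‖ ^ 2) * √(1 + ‖b‖ ^ 2)) ≤ _
  apply div_le_self (norm_nonneg _)
  apply one_le_mul_of_one_le_of_one_le <;> apply Real.le_sqrt_of_sq_le <;>
    nlinarith [sq_nonneg ‖a‖, sq_nonneg ‖b‖]

lemma dist_st_infty (a : ℂ) (ha : a ≠ 0) : dist (st a) (st ∞) ≤ ‖a‖⁻¹ := by
  refine (le_chordal a ∞).trans ?_
  show 1 / √(1 + ‖a‖ ^ 2) ≤ _
  rw [one_div]
  apply inv_anti₀ (norm_pos_iff.2 ha)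
  apply Real.le_sqrt_of_sq_le
  linarith

lemma continuous_st : Continuous st := by
  rw [OnePoint.continuous_iff]
  constructor
  · rw [coclosedCompact_eq_cocompact, tendsto_iff_dist_tendsto_zero]
    have h1 : Tendsto (fun a : ℂ => ‖a‖⁻¹) (cocompact ℂ) (𝓝 0) :=
      tendsto_inv_atTop_zero.comp tendsto_norm_cocompact_atTop
    refine squeeze_zero' (Eventually.of_forall fun _ => dist_nonneg) ?_ h1
    filter_upwards [isCompact_singleton.compl_mem_cocompact (s := {(0 : ℂ)})] with a ha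
    exact dist_st_infty a ha
  · refine (LipschitzWith.of_dist_le_mul (K := 1) fun a b => ?_).continuous
    simpa [dist_eq_norm] using dist_st_le a b

lemma exists_const (a : OnePoint ℂ) {ε : ℝ} (hε : 0 < ε) :
    ∃ M : ℂ, dist (st M) (st a) < ε := by
  induction a using OnePoint.rec with
  | infty =>
    refine ⟨((2 / ε : ℝ) : ℂ), (dist_st_infty _ (by simp [hε.ne'])).trans_lt ?_⟩
    rw [Complex.norm_real, Real.norm_of_nonneg (by positivity), inv_div]
    linarith
  | coe a => exact ⟨a, by simpa using hε⟩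

/-- Approximation on one closed disc. -/
lemma disc_approx {L : Set ℂ} {f : ℂ → OnePoint ℂ} (hf : InClass L f) {c : ℂ} {r : ℝ}
    (hr : 0 < r) (hD : closedBall c r ⊆ L) {ε : ℝ} (hε : 0 < ε) :
    ∃ p : ℂ[X], ∀ z ∈ closedBall c r, dist (st (p.eval z : ℂ)) (st (f z)) < ε := by
  have hb : ball c r ⊆ interior L := interior_maximal (ball_subset_closedBall.trans hD) isOpen_ball
  have hcomp : ball c r ⊆ connectedComponentIn (interior L) c :=
    (convex_ball c r).isPreconnected.subset_connectedComponentIn (mem_ball_self hr) hb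
  have hcont : ContinuousOn (st ∘ f) (closedBall c r) :=
    continuous_st.comp_continuousOn (hf.1.mono hD)
  rcases hf.2 c (hb (mem_ball_self hr)) with h | ⟨g, hg, h⟩
  · obtain ⟨M, hM⟩ := exists_const ∞ hε
    refine ⟨C M, fun z hz => ?_⟩
    have : EqOn (st ∘ f) (fun _ => st ∞) (closedBall c r) := by
      refine EqOn.of_subset_closure (s := ball c r) (fun w hw => ?_) hcont continuousOn_const
        ball_subset_closedBall (by rw [closure_ball c hr.ne'])
      simp [h w (hcomp hw)]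
    have h1 : st (f z) = st ∞ := this hz
    rw [eval_C, h1]; exact hM
  · obtain ⟨δ, hδ, hu⟩ := Metric.uniformContinuousOn_iff.1
      ((isCompact_closedBall c r).uniformContinuousOn_of_continuous hcont) (ε / 2) (by positivity)
    set τ := max (1 / 2) (1 - δ / (2 * r)) with hτ
    have hτ0 : 0 < τ := lt_max_of_lt_left (by norm_num)
    have hτ1 : τ < 1 := max_lt (by norm_num) (by
      have : 0 < δ / (2 * r) := by positivity
      linarith)
    have hτ2 : (1 - τ) * r < δ := by
      have h1 : 1 - τ ≤ δ / (2 * r) := by linarith [le_max_right (1 / 2) (1 - δ / (2 * r))]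
      have h2 : δ / (2 * r) * r = δ / 2 := by field_simp
      nlinarith
    obtain ⟨p, hp⟩ := approx_dilate hr hτ0 hτ1 (hg.mono hcomp) (ε / 2) (by positivity)
    refine ⟨p, fun z hz => ?_⟩
    have hz' : ‖z - c‖ ≤ r := by simpa [dist_eq_norm] using hz
    have h1 : c + τ * (z - c) ∈ ball c r := by
      simp only [mem_ball, dist_eq_norm, add_sub_cancel_left, norm_mul, Complex.norm_real,
        Real.norm_of_nonneg hτ0.le]
      nlinarith
    have h2 : dist (c + τ * (z - c)) z < δ := by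
      have : c + τ * (z - c) - z = -(((1 - τ : ℝ) : ℂ) * (z - c)) := by push_cast; ring
      rw [dist_eq_norm, this, norm_neg, norm_mul, Complex.norm_real,
        Real.norm_of_nonneg (by linarith)]
      nlinarith
    have h3 := hu _ (ball_subset_closedBall h1) _ hz h2
    simp only [Function.comp, h _ (hcomp h1)] at h3
    have h4 := (dist_st_le _ _).trans_lt (hp z hz)
    linarith [dist_triangle (st (p.eval z : ℂ)) (st (g (c + τ * (z - c)) : ℂ)) (st (f z))]

theorem main {P : ℂ} {c : ℕ → ℂ} {r : ℕ → ℝ} (hr : ∀ n, 0 < r n)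
    (hdisj : Pairwise fun m n => Disjoint (closedBall (c m) (r m)) (closedBall (c n) (r n)))
    (hconv : ∀ ε > 0, ∃ N, ∀ n ≥ N, closedBall (c n) (r n) ⊆ closedBall P ε)
    {f : ℂ → OnePoint ℂ} (hf : InClass ({P} ∪ ⋃ n, closedBall (c n) (r n)) f) {ε : ℝ}
    (hε : 0 < ε) : ∃ p : ℂ[X], ∀ z ∈ ({P} ∪ ⋃ n, closedBall (c n) (r n)),
      chordal (p.eval z : ℂ) (f z) < ε := by
  classical
  set L := {P} ∪ ⋃ n, closedBall (c n) (r n) with hL
  have hLc : IsCompact L := isCompact_all hconv
  have hLn : L.Nonempty := ⟨P, Or.inl rfl⟩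
  have hLp : IsPreconnected Lᶜ := isPreconnected_compl hr hdisj hconv
  have hDL : ∀ n, closedBall (c n) (r n) ⊆ L := fun n =>
    subset_union_of_subset_right (subset_iUnion (fun n => closedBall (c n) (r n)) n) _
  set η := ε / 8 with hη
  have hη0 : 0 < η := by positivity
  obtain ⟨c0, r0, hr0, hP0, hK, hK1, hK2⟩ := exists_core (P := P) hr hdisj
  obtain ⟨q, hq⟩ : ∃ q : ℂ[X], ∀ z ∈ closedBall c0 r0, dist (st (q.eval z : ℂ)) (st (f z)) < η := by
    rcases hK with h | ⟨k, rfl, rfl⟩
    · obtain ⟨M, hM⟩ := exists_const (f P) hη0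
      refine ⟨C M, fun z hz => ?_⟩
      rw [h] at hz
      rw [eval_C, hz]; exact hM
    · exact disc_approx hf (hr k) (hDL k) hη0
  choose p hp using fun n => disc_approx hf (hr n) (hDL n) hη0
  obtain ⟨δ1, hδ1, h1⟩ := Metric.continuousWithinAt_iff.1
    ((continuous_st.comp_continuousOn hf.1) P (Or.inl rfl)) η hη0
  obtain ⟨δ2, hδ2, h2⟩ := Metric.continuousAt_iff.1 (q.continuous.continuousAt (x := P)) η hη0
  obtain ⟨N, hN⟩ := hconv (min δ1 δ2 / 2) (by positivity)
  set I : Finset ℕ := (Finset.range N).filter fun n => P ∉ closedBall (c n) (r n) with hI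
  have hA : Approx L fun z => q.eval z
      + ∑ n ∈ I, (closedBall (c n) (r n)).indicator 1 z * (p n - q).eval z := by
    refine (Approx.poly q).add (Approx.sum I fun n hn => Approx.mul_poly hLc ?_ _)
    obtain ⟨R, hR, hR'⟩ := isolated hr hdisj hconv (Finset.mem_filter.1 hn).2
    exact approx_indicator hLc hLn hLp (hr n) hR hR'
  obtain ⟨s, hs⟩ := hA η hη0
  refine ⟨s, fun z hz => ?_⟩
  have h3 := hs z hz
  beta_reduce at h3
  have key : dist (st (s.eval z : ℂ)) (st (f z)) < 4 * η := by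
    by_cases hzI : ∃ n ∈ I, z ∈ closedBall (c n) (r n)
    · obtain ⟨n, hn, hzn⟩ := hzI
      have e : ∑ m ∈ I, (closedBall (c m) (r m)).indicator 1 z * (p m - q).eval z
          = (closedBall (c n) (r n)).indicator 1 z * (p n - q).eval z :=
        Finset.sum_eq_single_of_mem n hn fun m _ hmn => by
          rw [indicator_of_notMem (disjoint_right.1 (hdisj hmn) hzn), zero_mul]
      rw [e] at h3
      simp only [indicator_of_mem hzn, Pi.one_apply, one_mul, eval_sub, add_sub_cancel] at h3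
      linarith [dist_triangle (st (s.eval z : ℂ)) (st ((p n).eval z : ℂ)) (st (f z)),
        dist_st_le (s.eval z) ((p n).eval z), hp n z hzn]
    · push Not at hzI
      have e : ∑ m ∈ I, (closedBall (c m) (r m)).indicator 1 z * (p m - q).eval z = 0 :=
        Finset.sum_eq_zero fun m hm => by rw [indicator_of_notMem (hzI m hm), zero_mul]
      rw [e, add_zero] at h3
      have h4 := (dist_st_le _ _).trans_lt h3
      by_cases hz0 : z ∈ closedBall c0 r0
      · linarith [dist_triangle (st (s.eval z : ℂ)) (st (q.eval z : ℂ)) (st (f z)), hq z hz0]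
      · have h5 : dist z P < min δ1 δ2 := by
          rcases hz with h | h
          · exact absurd (h ▸ hP0) hz0
          · obtain ⟨n, hn⟩ := mem_iUnion.1 h
            have hPn : P ∉ closedBall (c n) (r n) := fun h' => hz0 (hK1 n h' hn)
            have hNn : N ≤ n := by
              by_contra hlt
              exact hzI n (Finset.mem_filter.2 ⟨Finset.mem_range.2 (not_le.1 hlt), hPn⟩) hn
            have := mem_closedBall.1 (hN n hNn hn)
            have h0 : 0 < min δ1 δ2 := lt_min hδ1 hδ2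
            linarith
        have h6 := h1 hz (h5.trans_le (min_le_left _ _))
        have h7 := h2 (h5.trans_le (min_le_right _ _))
        rw [dist_eq_norm] at h7
        have h8 := (dist_st_le _ _).trans_lt h7
        have h9 := hq P hP0
        simp only [Function.comp] at h6
        linarith [dist_triangle4 (st (q.eval z : ℂ)) (st (q.eval P : ℂ)) (st (f P)) (st (f z)),
          dist_triangle (st (s.eval z : ℂ)) (st (q.eval z : ℂ)) (st (f z)),
          dist_comm (st (f P)) (st (f z))]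
  linarith [chordal_le (s.eval z : ℂ) (f z)]

end Pool.Agent.Lib.MP_1b82cc_an
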