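import Pool.Agent.Lib.MP_1b82cc_an.Loc1

/-!
The lemma of Mergelyan: a bounded substitute for the Cauchy kernel.
-/

namespace Pool.Agent.Lib.MP_1b82cc_an

open Set Metric Filter Topology Complex

variable {K : Set ℂ}

lemma exists_far (hK : IsCompact K) (hc : IsPreconnected Kᶜ) {β : ℂ} (hβ : β ∉ K) :
    ∃ W, IsPreconnected W ∧ W ⊆ Kᶜ ∩ ball β 1 ∧ β ∈ W ∧ ∃ a ∈ W, 1 / 2 ≤ ‖a - β‖ := by
  have hO : IsOpen (Kᶜ ∩ ball β 1) := hK.isClosed.isOpen_compl.inter isOpen_ball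
  have hβO : β ∈ Kᶜ ∩ ball β 1 := ⟨hβ, mem_ball_self one_pos⟩
  refine ⟨connectedComponentIn (Kᶜ ∩ ball β 1) β, isPreconnected_connectedComponentIn,
    connectedComponentIn_subset _ _, mem_connectedComponentIn hβO, ?_⟩
  by_contra h
  have h1 : connectedComponentIn (Kᶜ ∩ ball β 1) β ⊆ closedBall β (1 / 2) := fun a ha => by
    rw [mem_closedBall, dist_eq_norm]
    exact le_of_not_ge fun h' => h ⟨a, ha, h'⟩
  have h2 : Kᶜ ⊆ connectedComponentIn (Kᶜ ∩ ball β 1) β := by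
    refine hc.subset_of_closure_inter_subset hO.connectedComponentIn
      ⟨β, hβ, mem_connectedComponentIn hβO⟩ ?_
    rintro w ⟨hw, hwK⟩
    have hwO : w ∈ Kᶜ ∩ ball β 1 := ⟨hwK, closedBall_subset_ball (by norm_num)
      (closure_minimal h1 isClosed_closedBall hw)⟩
    obtain ⟨y, hy, hy'⟩ := mem_closure_iff.1 hw _ hO.connectedComponentIn
      (mem_connectedComponentIn hwO)
    rw [connectedComponentIn_eq hy', ← connectedComponentIn_eq hy]
    exact mem_connectedComponentIn hwO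
  refine NormedSpace.unbounded_univ ℝ ℂ ((hK.isBounded.union
    (isBounded_closedBall (x := β) (r := 1 / 2))).subset fun z _ => ?_)
  exact (em (z ∈ K)).imp_right fun hz => h1 (h2 hz)

lemma arg_mem {x : ℂ} (h : ‖x‖ < 1) : |arg (1 + x)| < Real.pi / 2 := by
  refine abs_arg_lt_pi_div_two_iff.2 (Or.inl ?_)
  have := (abs_le.1 (abs_re_le_norm x)).1
  simp only [add_re, one_re]
  linarith

/-- A branch of the logarithm of `(z - a) / (z - β)` near `K`, principal far from `β`. -/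
def Br (K : Set ℂ) (β a : ℂ) : Prop :=
  ∃ (U : Set ℂ) (l : ℂ → ℂ), IsOpen U ∧ K ⊆ U ∧ DifferentiableOn ℂ l U ∧ ∀ z ∈ U,
    z ≠ β ∧ exp (l z) = (z - a) / (z - β) ∧ (2 < ‖z - β‖ → l z = log ((z - a) / (z - β)))

lemma Br.step {β x y : ℂ} (h : Br K β x) (hx : ‖x - β‖ < 1)
    (hxy : ∀ z ∈ K, ‖x - y‖ < ‖z - x‖) : Br K β y := by
  obtain ⟨U, l, h1, h2, h3, h4⟩ := h
  have hne : ∀ z, ‖x - y‖ < ‖z - x‖ → z - x ≠ 0 := fun z hz =>
    norm_pos_iff.1 ((norm_nonneg _).trans_lt hz)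
  have hlt : ∀ z, ‖x - y‖ < ‖z - x‖ → ‖(x - y) / (z - x)‖ < 1 := fun z hz => by
    rw [norm_div, div_lt_one ((norm_nonneg _).trans_lt hz)]; exact hz
  refine ⟨U ∩ {z | ‖x - y‖ < ‖z - x‖}, fun z => l z + log (1 + (x - y) / (z - x)),
    h1.inter (isOpen_lt continuous_const (by fun_prop)), subset_inter h2 hxy,
    (h3.mono inter_subset_left).add fun z hz => ?_, fun z hz => ?_⟩
  · refine (DifferentiableAt.clog (f := fun z => 1 + (x - y) / (z - x)) ?_
      (mem_slitPlane_of_norm_lt_one (hlt z hz.2))).differentiableWithinAt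
    have := hne z hz.2
    fun_prop (disch := assumption)
  · obtain ⟨h5, h6, h7⟩ := h4 z hz.1
    have h8 := hne z hz.2
    have h9 : z - β ≠ 0 := sub_ne_zero.2 h5
    have h10 : 1 + (x - y) / (z - x) ≠ 0 :=
      slitPlane_ne_zero (mem_slitPlane_of_norm_lt_one (hlt z hz.2))
    have h11 : (z - x) / (z - β) * (1 + (x - y) / (z - x)) = (z - y) / (z - β) := by
      field_simp; ring
    refine ⟨h5, by rw [exp_add, h6, exp_log h10, h11], fun hf => ?_⟩
    have h12 : (z - x) / (z - β) = 1 + -(x - β) / (z - β) := by field_simp; ring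
    have h13 : ‖-(x - β) / (z - β)‖ < 1 := by
      rw [norm_div, norm_neg, div_lt_one (by linarith)]; linarith
    have h14 := abs_lt.1 (arg_mem h13)
    have h15 := abs_lt.1 (arg_mem (hlt z hz.2))
    rw [← h12] at h14
    show l z + log (1 + (x - y) / (z - x)) = _
    rw [h7 hf, ← h11, (log_mul_eq_add_log_iff (div_ne_zero h8 h9) h10).2
      ⟨by linarith [h14.1, h15.1], by linarith [h14.2, h15.2]⟩]

lemma exists_br (hK : IsCompact K) (hc : IsPreconnected Kᶜ) {β : ℂ} (hβ : β ∉ K) :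
    ∃ a, 1 / 2 ≤ ‖a - β‖ ∧ ‖a - β‖ < 1 ∧ Br K β a := by
  obtain ⟨W, hW, hWs, hβW, a, ha, ha'⟩ := exists_far hK hc hβ
  have hn : ∀ x ∈ W, ‖x - β‖ < 1 := fun x hx => by simpa [dist_eq_norm] using (hWs hx).2
  refine ⟨a, ha', hn a ha, hW.induction₂' (fun x y => Br K β x → Br K β y) (fun x hx => ?_)
    (fun _ _ _ _ _ _ h1 h2 h => h2 (h1 h)) hβW ha ?_⟩
  · obtain ⟨r, hr, hb⟩ := Metric.isOpen_iff.1 hK.isClosed.isOpen_compl x (hWs hx).1
    have hz : ∀ z ∈ K, r ≤ ‖z - x‖ := fun z hz => le_of_not_gt fun h =>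
      hb (by simpa [dist_eq_norm] using h) hz
    filter_upwards [self_mem_nhdsWithin, mem_nhdsWithin_of_mem_nhds
      (ball_mem_nhds x (half_pos hr))] with y hy hy'
    rw [mem_ball, dist_eq_norm] at hy'
    refine ⟨fun h => h.step (hn x hx) fun z hzK => ?_, fun h => h.step (hn y hy) fun z hzK => ?_⟩
    · rw [norm_sub_rev]; linarith [hz z hzK]
    · linarith [hz z hzK, norm_sub_le_norm_sub_add_norm_sub z y x]
  · refine ⟨{β}ᶜ, 0, isOpen_compl_singleton, fun z hz h => hβ (h ▸ hz), differentiableOn_const _,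
      fun z hz => ⟨hz, ?_, fun _ => ?_⟩⟩ <;> simp [div_self (sub_ne_zero.2 hz)]

/-- A bounded function that behaves like `1 / (z - m)` far away. -/
lemma exists_g (hK : IsCompact K) (hc : IsPreconnected Kᶜ) {β : ℂ} (hβ : β ∉ K) :
    ∃ (U : Set ℂ) (g : ℂ → ℂ) (m c : ℂ), IsOpen U ∧ K ⊆ U ∧ DifferentiableOn ℂ g U ∧
      ‖m - β‖ ≤ 1 ∧ ‖c‖ ≤ 1 ∧ ∀ z ∈ K, ‖g z‖ ≤ 400 ∧ ‖g z‖ * ‖z - β‖ ≤ 400 ∧
        g z * (z - m) = 1 + c * g z ^ 2 := by
  obtain ⟨a, ha, ha', U, l, h1, h2, h3, h4⟩ := exists_br hK hc hβ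
  set d := a - β with hd
  have hd0 : d ≠ 0 := norm_pos_iff.1 (by linarith)
  refine ⟨U, fun z => 8 / d ^ 2 * (z - β - d / 2 - (z - β) * exp (l z / 2)), β + d / 2, d ^ 2 / 16,
    h1, h2, by fun_prop, ?_, ?_, fun z hz => ?_⟩
  · rw [add_sub_cancel_left, norm_div]; simp; linarith
  · rw [norm_div, norm_pow]; simp; nlinarith [norm_nonneg d]
  obtain ⟨h5, h6, h7⟩ := h4 z (h2 hz)
  set w := z - β with hw
  have hw0 : w ≠ 0 := sub_ne_zero.2 h5
  set e := exp (l z / 2) with he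
  have he2 : (w * e) ^ 2 = w * (w - d) := by
    have : e ^ 2 = (z - a) / w := by rw [← h6, he, sq, ← exp_add]; congr 1; ring
    rw [mul_pow, this, show z - a = w - d by rw [hw, hd]; ring]
    field_simp
  set g := 8 / d ^ 2 * (w - d / 2 - w * e) with hg
  have hprod : g * (w - d / 2 + w * e) = 2 := by
    rw [hg]
    field_simp
    linear_combination (-32 : ℂ) * he2
  have hid : g * (z - (β + d / 2)) = 1 + d ^ 2 / 16 * g ^ 2 := by
    have h8 : d ^ 2 / 8 * g = w - d / 2 - w * e := by rw [hg]; field_simp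
    rw [show z - (β + d / 2) = w - d / 2 by rw [hw]; ring]
    linear_combination (1 / 2 : ℂ) * hprod - (1 / 2 : ℂ) * g * h8
  have key : ‖g‖ ≤ 400 ∧ ‖g‖ * ‖w‖ ≤ 400 := by
    by_cases hf : 2 < ‖w‖
    · have h9 : (z - a) / w = 1 + -d / w := by rw [hw, hd]; field_simp; ring
      have h10 : ‖-d / w‖ < 1 / 2 := by
        rw [norm_div, norm_neg, div_lt_iff₀ (by linarith)]; linarith
      have h11 := abs_lt.1 (arg_mem (h10.trans (by norm_num)))
      have h12 : 0 < e.re := by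
        rw [he, h7 hf, exp_re, h9]
        refine mul_pos (Real.exp_pos _) (Real.cos_pos_of_mem_Ioo ⟨?_, ?_⟩) <;>
          simp only [div_ofNat_im, log_im] <;> linarith [h11.1, h11.2, Real.pi_pos]
      have h13 : 3 / 4 ≤ ‖1 + -d / w / 2 + e‖ := by
        refine le_trans ?_ (re_le_norm _)
        have := (abs_le.1 (abs_re_le_norm (-d / w))).1
        simp only [add_re, one_re, div_ofNat_re]
        linarith
      have h14 : g * w * (1 + -d / w / 2 + e) = 2 := by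
        have : w * (1 + -d / w / 2 + e) = w - d / 2 + w * e := by field_simp; ring
        rw [mul_assoc, this, hprod]
      have h15 := congrArg norm h14
      rw [norm_mul, norm_mul, Complex.norm_ofNat] at h15
      have h16 : ‖g‖ * ‖w‖ ≤ 3 := by nlinarith [mul_nonneg (norm_nonneg g) (norm_nonneg w)]
      exact ⟨by nlinarith [norm_nonneg g], by linarith⟩
    · have h9 : ‖w * e‖ ≤ 3 := by
        have h10 := congrArg norm he2
        rw [norm_pow, norm_mul w (w - d)] at h10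
        have h11 := norm_sub_le w d
        refine le_of_sq_le_sq ?_ (by norm_num)
        nlinarith [norm_nonneg w, norm_nonneg (w - d)]
      have h10 : ‖w - d / 2 - w * e‖ ≤ 6 := by
        have h11 := norm_sub_le (w - d / 2) (w * e)
        have h12 := norm_sub_le w (d / 2)
        have h13 : ‖d / 2‖ = ‖d‖ / 2 := by simp
        linarith
      have h11 : ‖8 / d ^ 2‖ ≤ 32 := by
        rw [norm_div, norm_pow, Complex.norm_ofNat, div_le_iff₀ (by positivity)]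
        nlinarith
      have h12 : ‖g‖ ≤ 192 := by
        rw [hg, norm_mul]
        nlinarith [norm_nonneg (8 / d ^ 2), norm_nonneg (w - d / 2 - w * e)]
      exact ⟨by linarith, by nlinarith [norm_nonneg g, norm_nonneg w]⟩
  exact ⟨key.1, key.2, hid⟩

/-- The estimate for the substitute of the Cauchy kernel. -/
lemma kernel_bound {g m c z ζ β : ℂ} (hm : ‖m - β‖ ≤ 1) (hc : ‖c‖ ≤ 1) (h1 : ‖g‖ ≤ 400)
    (h2 : ‖g‖ * ‖z - β‖ ≤ 400) (h3 : g * (z - m) = 1 + c * g ^ 2) (hζ : ‖ζ - β‖ ≤ 2) :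
    (1 + ‖z - ζ‖ ^ 2) * ‖(z - ζ) * (g + (ζ - m) * g ^ 2) - 1‖ ≤ 10 ^ 10 := by
  set y := ζ - m with hy
  have hy3 : ‖y‖ ≤ 3 := by
    have := norm_sub_le_norm_sub_add_norm_sub ζ β m
    rw [norm_sub_rev β m] at this
    linarith
  have h4 : (z - ζ) * (g + y * g ^ 2) - 1 = g ^ 2 * (c + c * y * g - y ^ 2) := by
    have : z - ζ = z - m - y := by rw [hy]; ring
    rw [this]
    linear_combination (1 + y * g) * h3
  have h5 : ‖c + c * y * g - y ^ 2‖ ≤ 1210 := by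
    have a1 := norm_sub_le (c + c * y * g) (y ^ 2)
    have a2 := norm_add_le c (c * y * g)
    have a3 : ‖c * y * g‖ ≤ 1 * 3 * 400 := by
      rw [norm_mul, norm_mul]; gcongr
    have a4 : ‖y ^ 2‖ ≤ 3 ^ 2 := by rw [norm_pow]; gcongr
    linarith
  have h6 : ‖g‖ * ‖z - ζ‖ ≤ 1200 := by
    have := norm_sub_le_norm_sub_add_norm_sub z β ζ
    rw [norm_sub_rev β ζ] at this
    nlinarith [norm_nonneg g]
  have h7 : (1 + ‖z - ζ‖ ^ 2) * ‖g‖ ^ 2 ≤ 400 ^ 2 + 1200 ^ 2 := by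
    have a1 : ‖g‖ ^ 2 ≤ 400 ^ 2 := by gcongr
    have a2 : (‖g‖ * ‖z - ζ‖) ^ 2 ≤ 1200 ^ 2 := by gcongr
    nlinarith
  rw [h4, norm_mul, norm_pow, ← mul_assoc]
  refine le_trans (b := (400 ^ 2 + 1200 ^ 2) * 1210) ?_ (by norm_num)
  gcongr

end Pool.Agent.Lib.MP_1b82cc_an
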